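import Pool.Agent.Lib.MP_751085_ag.ZC.T.Defs
import Pool.Agent.Lib.MP_796ce4_ag.ZY.FfM

/-! Points on curves over finite fields. -/

namespace Pool.Agent.ZCy

open scoped Classical Polynomial LaurentSeries
open Pool.Agent.ZeroCyc

variable {κ : Type} [Field κ] [IsAlgClosed κ] {s : ℕ}

/-- a fixed point of a twisted Frobenius off the roots of `u` -/
theorem cheb_pt (hs : FinB κ s) (M : Type) [Field M] [Algebra (RatFunc κ) M] [Algebra κ M]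
    [IsScalarTower κ (RatFunc κ) M] [FiniteDimensional (RatFunc κ) M] [IsGalois (RatFunc κ) M]
    {u : κ[X]} (hu : u ≠ 0) : ∃ n : ℕ, 0 < n ∧ ∀ Φ : M ≃+* M, SemiL κ Φ (s ^ (2 * n)) →
      ∃ (t : κ) (j : M →ₐ[κ] κ⸨X⸩), j ∈ ZeroCyc.Emb M t ∧ FixE Φ (s ^ (2 * n)) j ∧
        u.eval t ≠ 0 := by
  obtain ⟨p, r, hp, _, hr, rfl⟩ := hs.ex
  have : Fact p.Prime := ⟨hp⟩
  obtain ⟨C, n₀, hC⟩ := chebotarev (p := p) κ M
  have hB : (⋃ t ∈ {t | u.IsRoot t}, ZeroCyc.Emb M t).Finite :=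
    (Polynomial.finite_setOfPred_isRoot hu).biUnion fun t _ => emb_finite t
  obtain ⟨K, hK⟩ : ∃ K, (⋃ t ∈ {t | u.IsRoot t}, ZeroCyc.Emb M t).ncard = K := ⟨_, rfl⟩
  refine ⟨n₀ + C + K + 1, by omega, fun Φ hΦ => ?_⟩
  have h1 : n₀ + C + K + 1 ≤ r * (n₀ + C + K + 1) := Nat.le_mul_of_pos_left _ hr
  rw [← pow_mul, mul_left_comm] at hΦ ⊢
  generalize r * (n₀ + C + K + 1) = n at h1 hΦ ⊢
  by_contra h
  have h2 : ((FixS κ Φ (p ^ (2 * n))).ncard : ℝ) ≤ K := Nat.cast_le.2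
    ((Set.ncard_le_ncard (fun j hj => hj.1.elim fun t ht => Set.mem_biUnion (x := t)
      (not_not.1 fun e => h ⟨t, j, ht, hj.2, e⟩) ht) hB).trans hK.le)
  have h3 := (abs_le.1 (hC n (by omega) Φ hΦ)).1
  have h4 : (C + K + 1 : ℝ) ≤ p ^ n := by
    exact_mod_cast (show C + K + 1 ≤ n by omega).trans (Nat.lt_pow_self hp.one_lt).le
  rw [pow_mul' (p : ℝ), sq] at h3
  have h5 : (0 : ℝ) ≤ C := C.cast_nonneg
  have h6 : (0 : ℝ) ≤ K := K.cast_nonneg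
  nlinarith

/-- a curve in the sense of the library, with large `b` and `w` -/
theorem exists_cv {h : κ[X][X]} {ϑ : κ[X]} (hm : h.Monic) (hb : Bez h ϑ) :
    ∃ (c : Cv κ) (N : ℕ), c.χ = h ∧ c.ρ = ϑ ^ (N + 1) := by
  obtain ⟨N, α, β, e⟩ := hb
  obtain ⟨b, hb⟩ : ∃ b, ∀ i, (h.coeff i).natDegree ≤ b :=
    ⟨h.support.sup fun i => (h.coeff i).natDegree, fun i => by
      by_cases hi : i ∈ h.support
      · exact Finset.le_sup (f := fun i => (h.coeff i).natDegree) hi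
      · simp [Polynomial.notMem_support_iff.1 hi]⟩
  obtain ⟨m, hw⟩ := exists_WL b (b * h.natDegree) (Polynomial.C ϑ * β)
  refine ⟨⟨h, Polynomial.C ϑ * α, Polynomial.C ϑ * β, ϑ ^ (N + 1), h.natDegree, b,
    m + (ϑ ^ (N + 1)).natDegree, ⟨hm, rfl, fun i j e => ?_⟩, by rw [pow_succ', map_mul, e]; ring,
    le_add_self, hw.mono (by omega)⟩, N, rfl, rfl⟩
  have h1 := Polynomial.le_natDegree_of_ne_zero e
  rcases (Polynomial.le_natDegree_of_ne_zero (p := h) (n := i) fun h0 => e (by simp [h0])).eq_or_lt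
    with rfl | h2
  · rw [hm.coeff_natDegree, Polynomial.natDegree_one] at h1
    omega
  · have h3 := Nat.mul_le_mul_left b (Nat.succ_le_of_lt h2)
    have := hb i
    rw [Nat.mul_succ] at h3
    omega

theorem tcheb_alg {p r : ℕ} (hs : FinB κ (p ^ r)) (hr : 0 < r) : AlgP κ p := fun x =>
  (hs.alg x).imp' (fun n => r * n) fun _ h => ⟨Nat.mul_pos hr h.1, by rw [pow_mul]; exact h.2⟩

theorem tcheb_cv {p r : ℕ} [Fact p.Prime] [CharP κ p] {O : Type} [CommRing O] {ρ : O →+* κ}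
    (hρ : ∀ a, ρ a ^ p ^ r = ρ a) {h : O[X][X]} {ϑ : O[X]} (hm : h.Monic) (hb : Bez h ϑ) :
    ∃ (c : Cv κ) (N : ℕ), c.χ = mp ρ h ∧ c.ρ = ϑ.map ρ ^ (N + 1) ∧
      ∀ m, c.Inv (fr κ p (r * m)) := by
  obtain ⟨c, N, h1, h2⟩ := exists_cv (h := mp ρ h) (ϑ := ϑ.map ρ) (hm.map _) (by
    obtain ⟨N, α, β, e⟩ := hb
    refine ⟨N, mp ρ α, mp ρ β, ?_⟩
    rw [← Polynomial.map_pow, ← mp_C, e, map_add, map_mul, map_mul, mp_derivative])
  refine ⟨c, N, h1, h2, fun m => ?_⟩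
  have e : (fr κ p (r * m)).comp ρ = ρ := RingHom.ext fun a => by
    rw [RingHom.comp_apply, fr_apply, pow_mul]
    induction m with
    | zero => rw [pow_zero, pow_one]
    | succ m ih => rw [pow_succ, pow_mul, ih, hρ]
  exact ⟨by rw [h1, mp_mp, e], by rw [h2, Polynomial.map_pow, Polynomial.map_map, e]⟩

/-- `ff_many` with `M = 1` -/
theorem ffpts (hs : FinB κ s) {O : Type} [CommRing O] {ρ : O →+* κ} (hρ : ∀ a, ρ a ^ s = ρ a)
    {h : O[X][X]} {ϑ : O[X]} (hm : h.Monic) (hb : Bez h ϑ)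
    (hi : Irreducible (h.map (Polynomial.mapRingHom ρ))) (h0 : ϑ.map ρ ≠ 0) :
    ∃ m₀ : ℕ, ∀ m, m₀ ≤ m → ∃ t z : κ, t ^ s ^ m = t ∧ z ^ s ^ m = z ∧
      h.eval₂ (Polynomial.eval₂RingHom ρ t) z = 0 ∧ ϑ.eval₂ ρ t ≠ 0 := by
  obtain ⟨p, r, hp, _, hr, rfl⟩ := hs.ex
  have : Fact p.Prime := ⟨hp⟩
  obtain ⟨c, N, h1, h2, h3⟩ := tcheb_cv hρ hm hb
  refine ⟨(c.c0 + c.δ * (1 + 1)) ^ 2 + 1, fun m hm => ?_⟩
  have h4 : m ≤ r * m := Nat.le_mul_of_pos_left _ hr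
  obtain ⟨P, hP, -⟩ := ff_many (M := 1) (h2 ▸ pow_ne_zero _ h0) (h1 ▸ hi) (tcheb_alg hs hr)
    (by omega) (h3 m) (((Nat.le_of_succ_le hm).trans h4).trans (Nat.lt_pow_self hp.one_lt).le) 0
  obtain ⟨⟨h5, h6⟩, h7, -⟩ := hP 0
  rw [h1, ZeroCyc.On, ee_mp] at h5
  rw [h2, Polynomial.eval_pow, Polynomial.eval_map] at h6
  refine ⟨(P 0).1, (P 0).2, ?_, ?_, h5, fun e => h6 (by rw [e, zero_pow N.succ_ne_zero])⟩
  · rw [← pow_mul, ← fr_apply]; exact congrArg Prod.fst h7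
  · rw [← pow_mul, ← fr_apply]; exact congrArg Prod.snd h7

/-- a Frobenius on a stable Galois extension -/
theorem exists_semi (hs : FinB κ s) {O : Type} [CommRing O] {ρ : O →+* κ}
    (hρ : ∀ a, ρ a ^ s = ρ a) {h : O[X][X]} {ϑ : O[X]} (hm : h.Monic) (hb : Bez h ϑ)
    (hi : Irreducible (h.map (Polynomial.mapRingHom ρ))) (M : Type) [Field M]
    [Algebra (RatFunc κ) M] [FiniteDimensional (RatFunc κ) M] [IsGalois (RatFunc κ) M] {θ : M}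
    (hθ : h.eval₂ (Polynomial.eval₂RingHom (((algebraMap (RatFunc κ) M).comp RatFunc.C).comp ρ)
      (algebraMap (RatFunc κ) M RatFunc.X)) θ = 0) :
    ∃ (M' : Type) (_ : Field M') (_ : Algebra (RatFunc κ) M') (_ : Algebra κ M')
      (_ : IsScalarTower κ (RatFunc κ) M') (_ : FiniteDimensional (RatFunc κ) M')
      (_ : IsGalois (RatFunc κ) M') (i : M →ₐ[RatFunc κ] M') (Φ : M' ≃+* M'),
      SemiL κ Φ s ∧ Φ (i θ) = i θ := by
  obtain ⟨p, r, hp, _, hr, rfl⟩ := hs.ex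
  have : Fact p.Prime := ⟨hp⟩
  obtain ⟨c, N, h1, -, h3⟩ := tcheb_cv hρ hm hb
  let j : M →ₐ[RatFunc κ] ZeroCyc.Om κ := IsAlgClosed.lift
  obtain ⟨Φ, hΦ, hη⟩ := exists_semiL (η := j θ) (h1 ▸ hi) (mul_one r ▸ h3 1) (by
    change ee _ (mp _ c.χ) = 0
    have e := congrArg (j : M →+* ZeroCyc.Om κ) hθ
    rw [Polynomial.hom_eval₂, map_zero] at e
    rw [h1, mp_mp, ee_mp, ← e]
    refine congrArg (Polynomial.eval₂ · _ h) (Polynomial.ringHom_ext (fun a => ?_) ?_)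
    · simp [IsScalarTower.algebraMap_apply κ (RatFunc κ) (ZeroCyc.Om κ)]
    · simp [tO])
  obtain ⟨α, hα⟩ := Field.exists_primitive_element (RatFunc κ) M
  obtain ⟨E, _, _, h4, h5⟩ := exists_galois (tcheb_alg hs hr) hr hΦ {j α} fun x hx => by
    rw [Finset.mem_singleton.1 hx]
    exact (Algebra.IsSeparable.isSeparable _ α).map j j.injective
  have h6 : ∀ y, j y ∈ E := fun y => (IntermediateField.adjoin_simple_le_iff (K := E.comap j)).2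
    (h4 _ (Finset.mem_singleton_self _)) (hα ▸ IntermediateField.mem_top)
  exact ⟨E, _, _, inferInstance, inferInstance, inferInstance, inferInstance,
    j.codRestrict E.toSubalgebra h6, ⟨⟨fun x => ⟨Φ x, (h5 x).2 x.2⟩,
      fun x => ⟨Φ.symm x, (h5 _).1 (by simp)⟩, fun x => by simp, fun x => by simp⟩,
      fun x y => Subtype.ext (map_mul Φ _ _), fun x y => Subtype.ext (map_add Φ _ _)⟩,
    ⟨Subtype.ext hΦ.t, fun a => Subtype.ext (hΦ.c a)⟩, Subtype.ext hη⟩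

end Pool.Agent.ZCy
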