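import Pool.Agent.Lib.MP_751085_ag.ZC.T.G3a
import Pool.Agent.Lib.MP_751085_ag.ZC.T.Cheb

/-! Two points on the curve over the line whose Frobenius elements differ by a given element. -/

namespace Pool.Agent.ZCy

open scoped Classical Polynomial LaurentSeries PowerSeries

open Pool.Agent.ZeroCyc

theorem tg3b_fix {O M ι : Type} [CommRing O] [Field M] {χ : (MP ι O)[X]} {Θ : MP ι O}
    (hb : Bez χ Θ) {ψ : O →+* M} {y : ι → M} {T : PS ι M} (hT : χ.eval₂ (tay ψ y) T = 0)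
    (hΘ : MvPolynomial.eval₂ ψ y Θ ≠ 0) (Φ : M →+* M) (h1 : ∀ a, Φ (ψ a) = ψ a)
    (h2 : ∀ i, Φ (y i) = y i)
    (h3 : Φ (MvPowerSeries.constantCoeff T) = MvPowerSeries.constantCoeff T) :
    MvPowerSeries.map Φ T = T := by
  have e : (MvPowerSeries.map Φ).comp (tay ψ y) = tay ψ y := RingHom.ext fun Q => by
    rw [RingHom.comp_apply, map_tay, funext h2, show Φ.comp ψ = ψ from RingHom.ext h1]
  refine (ps_root_uniq (tay ψ y) hT ?_ h3.symm ((hb.unit _ hT ?_).map _)).symm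
  · rw [← e, ← Polynomial.hom_eval₂, hT, map_zero]
  · rw [MvPowerSeries.isUnit_iff_constantCoeff, cc_tay]
    exact hΘ.isUnit

theorem tg3b_aut {κ ι M : Type} [Field κ] [Field M] {ψ : κ →+* M} {y : ι → M}
    {β : OB ι κ →+* AlgebraicClosure (FP ι M)}
    (h1 : ∀ Q, β (toE (MP ι κ) _ Q) = algebraMap (FP ι M) _ (ps ι M (tay ψ y Q)))
    {Φ : M →+* M} {φ : κ ≃+* κ} (hψ : ∀ c, Φ (ψ c) = ψ (φ c)) (hy : ∀ i, Φ (y i) = y i)
    {Γ : FP ι M ≃+* FP ι M} (hΓ : CoefL Φ Γ) {x : OB ι κ} {u : FP ι M}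
    (hx : β x = algebraMap _ _ u) : ∃ x', β x' = algebraMap _ _ (Γ u) := by
  obtain ⟨γ', h2⟩ := exists_taut (Ω := AlgebraicClosure (FP ι M)) Γ
  obtain ⟨γ₀, h3⟩ := exists_rf_aut (ι := ι) φ
  have e : ((γ' : _ →+* _).comp β).comp (algebraMap (RF ι κ) (OB ι κ)) =
      (β.comp (algebraMap (RF ι κ) (OB ι κ))).comp (γ₀ : RF ι κ →+* RF ι κ) :=
    IsLocalization.ringHom_ext (nonZeroDivisors (MP ι κ)) (RingHom.ext fun Q => by
      change γ' (β (toE (MP ι κ) _ Q)) = β (algebraMap _ _ (γ₀ (algebraMap _ _ Q)))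
      rw [h3]
      change _ = β (toE (MP ι κ) _ _)
      rw [h1, h1, h2, hΓ, map_tay, tay_map, funext hy,
        show Φ.comp ψ = ψ.comp (φ : κ →+* κ) from RingHom.ext hψ])
  obtain ⟨γ, h4⟩ := exists_aut_res β γ' γ₀ (DFunLike.congr_fun e)
  exact ⟨γ x, by rw [← h4, hx, h2]⟩

/-- one point -/
theorem tg3b_one {O κ ι M : Type} [CommRing O] [Field κ] [Fintype ι] [Field M]
    [Algebra (RatFunc κ) M] [Algebra κ M] [IsScalarTower κ (RatFunc κ) M] {ρ : O →+* κ} {q : ℕ}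
    {φ : κ ≃+* κ} (hφ : ∀ x, φ x = x ^ q) (hρ : ∀ x, φ (ρ x) = ρ x) {χ : (MP ι O)[X]} {Θ : MP ι O}
    (hm : χ.Monic) (hb : Bez χ Θ) {a b : ι → O} {θ₀ : OB ι κ}
    (h0 : χ.eval₂ ((toE (MP ι κ) _).comp (MvPolynomial.map ρ)) θ₀ = 0)
    {β : OB ι κ →+* AlgebraicClosure (FP ι M)}
    (h1 : ∀ Q, β (toE (MP ι κ) _ Q) = algebraMap (FP ι M) _ (ps ι M (tay (algebraMap κ M)
      (tpt ((algebraMap κ M).comp ρ) a b (ZeroCyc.tE κ M)) Q)))
    {T : PS ι M} (h2 : β θ₀ = algebraMap _ _ (ps ι M T)) {Φ : M ≃+* M} (hΦ : SemiL κ Φ q)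
    (hθ : Φ (MvPowerSeries.constantCoeff T) = MvPowerSeries.constantCoeff T) {t : κ}
    {j : M →ₐ[κ] κ⸨X⸩} (hj : j ∈ ZeroCyc.Emb M t) (hf : FixE Φ q j)
    (hu : MvPolynomial.eval₂ ρ (tpt ρ a b t) Θ ≠ 0) {Γ : FP ι M ≃+* FP ι M}
    (hΓ : CoefL (Φ : M →+* M) Γ) :
    ∃ (z : κ) (γ : OB ι κ ≃+* OB ι κ), (LPt ρ χ Θ a b q t z ∧ γ θ₀ = θ₀ ∧
      (∀ Q, γ (toE (MP ι κ) _ Q) = toE (MP ι κ) _ (MvPolynomial.map (φ : κ →+* κ) Q)) ∧
      PtLink (tpt ρ a b t) z (φ : κ →+* κ) θ₀ γ) ∧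
      ∀ x u, β x = algebraMap _ _ u → β (γ x) = algebraMap _ _ (Γ u) := by
  have hc : ∀ c, Φ (algebraMap κ M c) = algebraMap κ M (φ c) := fun c => by rw [hΦ.c, hφ]
  have hjc : ∀ c, j (algebraMap κ M c) = HahnSeries.C c := fun c => by
    rw [j.commutes]
    simp [HahnSeries.algebraMap_apply']
  have ht : t ^ q = t := FixE.base hΦ hj hf
  obtain ⟨y, hy⟩ : ∃ y, y = tpt ((algebraMap κ M).comp ρ) a b (ZeroCyc.tE κ M) := ⟨_, rfl⟩
  have hy' : ∀ i, Φ (y i) = y i := fun i => by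
    simp only [hy, tpt, RingHom.comp_apply, map_add, map_mul, hc, hρ, hΦ.t]
  have hT : χ.eval₂ (tay ((algebraMap κ M).comp ρ) y) T = 0 := by
    have e : β.comp ((toE (MP ι κ) _).comp (MvPolynomial.map ρ)) = ((algebraMap _ _).comp
        (ps ι M)).comp (tay ((algebraMap κ M).comp ρ) y) := RingHom.ext fun Q =>
      (h1 _).trans (by rw [tay_map, hy]; rfl)
    have e2 := congrArg β h0
    rw [Polynomial.hom_eval₂, e, h2, map_zero] at e2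
    exact (IsFractionRing.to_map_eq_zero_iff (K := FP ι M)).1 ((map_eq_zero (algebraMap _ _)).1
      ((Polynomial.hom_eval₂ χ _ ((algebraMap _ _).comp (ps ι M)) T).trans e2))
  let ω : MP ι O →+* κ⟦X⟧ := MvPolynomial.eval₂Hom (PowerSeries.C.comp ρ)
    (tpt (PowerSeries.C.comp ρ) a b (PowerSeries.C t + PowerSeries.X))
  have e1 : (algebraMap κ⟦X⟧ κ⸨X⸩).comp ω = (j : M →+* κ⸨X⸩).comp
      (MvPowerSeries.constantCoeff.comp (tay ((algebraMap κ M).comp ρ) y)) :=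
    MvPolynomial.ringHom_ext (fun _ => by simp [ω, tay, hjc]) fun i => by
      have : j (ZeroCyc.tE κ M) = lin t := hj
      simp [ω, tay, hy, tpt, hjc, this, lin]
  have e2 : PowerSeries.constantCoeff.comp ω = MvPolynomial.eval₂Hom ρ (tpt ρ a b t) :=
    MvPolynomial.ringHom_ext (fun _ => by simp [ω]) fun i => by simp [ω, tpt]
  have e3 : χ.eval₂ ((algebraMap κ⟦X⟧ κ⸨X⸩).comp ω) (j (MvPowerSeries.constantCoeff T)) = 0 := by
    rw [e1]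
    exact (Polynomial.hom_eval₂ χ _ (j : M →+* κ⸨X⸩) _).symm.trans (by
      rw [← Polynomial.hom_eval₂, hT, map_zero, map_zero])
  obtain ⟨g, hg⟩ : ∃ g : κ⟦X⟧, algebraMap κ⟦X⟧ κ⸨X⸩ g = j (MvPowerSeries.constantCoeff T) :=
    IsIntegrallyClosed.isIntegral_iff.1 ⟨χ.map ω, hm.map _, by rwa [Polynomial.eval₂_map]⟩
  have e4 : χ.eval₂ ω g = 0 := IsFractionRing.injective κ⟦X⟧ κ⸨X⸩ (by
    rw [Polynomial.hom_eval₂, hg, e3, map_zero])
  have e5 : (j (MvPowerSeries.constantCoeff T)).coeff 0 = PowerSeries.constantCoeff g := by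
    rw [← hg]
    exact (PowerSeries.coeff_coe g 0).trans (by simp)
  have hΘ : MvPolynomial.eval₂ ((algebraMap κ M).comp ρ) y Θ ≠ 0 := fun e => hu (by
    have e6 := DFunLike.congr_fun e1 Θ
    simp only [RingHom.comp_apply, cc_tay, e, map_zero] at e6
    refine (DFunLike.congr_fun e2 Θ).symm.trans ?_
    rw [RingHom.comp_apply, (IsFractionRing.to_map_eq_zero_iff (K := κ⸨X⸩)).1 e6, map_zero])
  obtain ⟨γ, h3, h4, h5⟩ := pt_link (hm.map (MvPolynomial.map ρ)) (hb.map _)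
    (a := fun i => ρ (a i)) (b := fun i => ρ (b i)) (ψ := algebraMap κ M) (τ := ZeroCyc.tE κ M) h1
    (by rwa [Polynomial.eval₂_map]) h2 (j := (j : M →+* κ⸨X⸩)) hjc hj hg.symm rfl
    (by rw [MvPolynomial.eval_map]; exact hu) (Φ := Φ) (φ := φ) (fun x n => (hf x n).trans
      (hφ _).symm) (fun _ => hρ _) (fun _ => hρ _) ((hφ t).trans ht)
  have h6 : ∀ x u, β x = algebraMap _ _ u → β (γ x) = algebraMap _ _ (Γ u) := fun x u hx => by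
    obtain ⟨x', e⟩ := tg3b_aut h1 (Φ := (Φ : M →+* M)) hc (hy ▸ hy') hΓ hx
    rw [h5 (Γ : FP ι M →+* FP ι M) hΓ x x' u hx e, e]
  refine ⟨_, γ, ⟨⟨ht, ?_, ?_, hu⟩, β.injective ?_, h3, h4⟩, h6⟩
  · rw [← e5, ← hf, hθ]
  · refine (congrArg (Polynomial.eval₂ · _ χ) e2.symm).trans ?_
    rw [← Polynomial.hom_eval₂, e4, map_zero]
  · rw [h6 _ _ h2, hΓ, tg3b_fix hb hT hΘ (Φ : M →+* M) (fun c => (hc _).trans (by rw [hρ]; rfl))
      hy' hθ, h2]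

/-- Two points, fixed by a Frobenius `Φ ^ (2 * n)` and by its twist by the element for `g`. -/
theorem g3b (hZ : ZLP) {O κ ι : Type} [CommRing O] [Field κ] [IsAlgClosed κ] [Fintype ι] {s : ℕ}
    (hs : FinB κ s) {ρ : O →+* κ} (hρ : ∀ x, ρ x ^ s = ρ x) {χ : (MP ι O)[X]} {Θ : MP ι O}
    (hm : χ.Monic) (hb : Bez χ Θ) {a b : ι → O} (hl : GoodLine Θ a b) (hb0 : ∃ i, IsUnit (b i))
    (hi : Irreducible ((χ.map (line (RingHom.id O) a b)).map (Polynomial.mapRingHom ρ)))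
    {θ₀ : OB ι κ} (h0 : χ.eval₂ ((toE (MP ι κ) _).comp (MvPolynomial.map ρ)) θ₀ = 0)
    (E₀ : IntermediateField (RF ι κ) (OB ι κ)) [FiniteDimensional (RF ι κ) E₀]
    [IsGalois (RF ι κ) E₀] (hG : (Nat.card (E₀ ≃ₐ[RF ι κ] E₀) : κ) ≠ 0)
    (hU : UnrOff (RF ι κ) (toE (MP ι κ) E₀) (Θ.map ρ)) (hθ : θ₀ ∈ E₀)
    (g : OB ι κ ≃ₐ[RF ι κ] OB ι κ) (hg : g θ₀ = θ₀) :
    ∃ (m : ℕ) (φ : κ ≃+* κ) (t z : Fin 2 → κ) (γ : Fin 2 → OB ι κ ≃+* OB ι κ), 0 < m ∧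
      (∀ x, φ x = x ^ s ^ m) ∧ (∀ i, LPt ρ χ Θ a b (s ^ m) (t i) (z i) ∧ γ i θ₀ = θ₀ ∧
        (∀ Q, γ i (toE (MP ι κ) _ Q) = toE (MP ι κ) _ (MvPolynomial.map (φ : κ →+* κ) Q)) ∧
        PtLink (tpt ρ a b (t i)) (z i) (φ : κ →+* κ) θ₀ (γ i)) ∧
      ∀ x ∈ E₀, γ 1 x = γ 0 (g x) := by
  obtain ⟨M, _, _, _, _, J, hJ, hσ⟩ := hZ κ ι E₀ hG _ hU (fun i => ρ (a i)) (fun i => ρ (b i))
    (fun e => hb0.elim fun i h => (h.map ρ).ne_zero (congrFun e i)) (hl.tmap ρ)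
  obtain ⟨σ, hσ⟩ := hσ (g.restrictNormal E₀)
  obtain ⟨Γσ, hΓσ⟩ := exists_coefL (ι := ι) (f := (σ : M →+* M)) σ.injective
  replace hσ := hσ Γσ hΓσ
  have hg0 : ∀ x : E₀, (g.restrictNormal E₀ x : OB ι κ) = g x := g.restrictNormal_commutes E₀
  obtain ⟨ψ, hψ⟩ : ∃ ψ, ψ = (algebraMap (RatFunc κ) M).comp RatFunc.C := ⟨_, rfl⟩
  obtain ⟨y, hy⟩ : ∃ y, y = tpt (ψ.comp ρ) a b (algebraMap (RatFunc κ) M RatFunc.X) := ⟨_, rfl⟩
  replace hJ : ∀ Q, J (toE _ E₀ Q) = ps ι M (tay ψ y Q) := hy ▸ hψ ▸ hJ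
  have e1 : χ.eval₂ ((ps ι M).comp (tay (ψ.comp ρ) y)) (J ⟨θ₀, hθ⟩) = 0 := by
    have e : J.comp ((toE _ E₀).comp (MvPolynomial.map ρ)) = (ps ι M).comp (tay (ψ.comp ρ) y) :=
      RingHom.ext fun Q => (hJ _).trans (by rw [tay_map]; rfl)
    rw [← e, ← Polynomial.hom_eval₂, (map_eq_zero (algebraMap E₀ (OB ι κ))).1
      ((Polynomial.hom_eval₂ χ _ _ _).trans h0), map_zero]
  have := lv_normal M ι
  obtain ⟨T, hT⟩ : ∃ T, ps ι M T = J ⟨θ₀, hθ⟩ := IsIntegrallyClosed.isIntegral_iff.1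
    ⟨χ.map (tay (ψ.comp ρ) y), hm.map _, by rwa [Polynomial.eval₂_map]⟩
  have e2 : σ (MvPowerSeries.constantCoeff T) = MvPowerSeries.constantCoeff T :=
    congrArg MvPowerSeries.constantCoeff (IsFractionRing.injective (PS ι M) (FP ι M) (by
      rw [← hΓσ, hT, ← hσ]
      exact congrArg J (Subtype.ext ((hg0 _).trans hg))) : MvPowerSeries.map (σ : M →+* M) T = T)
  obtain ⟨M', _, _, _, _, _, _, i, Φ, hΦ, e3⟩ := exists_semi hs hρ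
    (hm.map (line (RingHom.id O) a b)) (hb.map _) hi M (θ := MvPowerSeries.constantCoeff T) (by
      have e : (Polynomial.eval₂RingHom (ψ.comp ρ) (algebraMap (RatFunc κ) M RatFunc.X)).comp
          (line (RingHom.id O) a b) = MvPowerSeries.constantCoeff.comp (tay (ψ.comp ρ) y) :=
        RingHom.ext fun Q => (eval₂_line ..).trans (by rw [← hy]; exact (cc_tay ..).symm)
      rw [← hT, ← Polynomial.hom_eval₂] at e1
      rw [Polynomial.eval₂_map, ← hψ, e, ← Polynomial.hom_eval₂,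
        (IsFractionRing.to_map_eq_zero_iff (K := FP ι M)).1 e1, map_zero])
  obtain ⟨σ', hσ'⟩ : ∃ σ' : M' ≃ₐ[RatFunc κ] M', ∀ x, σ' (i x) = i (σ x) := by
    let := (i : M →+* M').toAlgebra
    have : IsScalarTower (RatFunc κ) M M' :=
      IsScalarTower.of_algebraMap_eq fun x => (i.commutes x).symm
    exact ⟨σ.liftNormal M', σ.liftNormal_commutes M'⟩
  obtain ⟨n, hn, hC⟩ := cheb_pt hs M' (u := (line (RingHom.id O) a b Θ).map ρ) fun e =>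
    (hl.2.2.map ρ).ne_zero (by rw [← Polynomial.coeff_map, e, Polynomial.coeff_zero])
  obtain ⟨φ, hφ⟩ := hs.frob (2 * n)
  have hρ' : ∀ x, φ (ρ x) = ρ x := fun x => by
    rw [hφ]
    induction 2 * n with
    | zero => rw [pow_zero, pow_one]
    | succ m ih => rw [pow_succ, pow_mul, ih, hρ]
  obtain ⟨Γi, hΓi⟩ := exists_coefL (ι := ι) (f := (i : M →+* M')) i.injective
  obtain ⟨β, hβ⟩ := exists_hom_ext (Ω := OB ι κ)
    (((algebraMap (FP ι M') (AlgebraicClosure (FP ι M'))).comp Γi).comp J)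
  have hβ' : ∀ x : E₀, β x = algebraMap _ _ (Γi (J x)) := hβ
  have e4 : (i : M →+* M').comp ψ = algebraMap κ M' := RingHom.ext fun c => by
    rw [hψ, IsScalarTower.algebraMap_apply κ (RatFunc κ) M']
    exact i.commutes _
  have h1 : ∀ Q, β (toE (MP ι κ) _ Q) = algebraMap (FP ι M') _ (ps ι M' (tay (algebraMap κ M')
      (tpt ((algebraMap κ M').comp ρ) a b (ZeroCyc.tE κ M')) Q)) := fun Q =>
    (hβ' (toE _ E₀ Q)).trans (by
      rw [hJ, hΓi, map_tay, e4, ← e4, hy]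
      simp only [tpt, map_add, map_mul, RingHom.coe_coe, AlgHom.commutes]
      rfl)
  have h2 : β θ₀ = algebraMap _ _ (ps ι M' (MvPowerSeries.map (i : M →+* M') T)) :=
    (hβ' ⟨θ₀, hθ⟩).trans (by rw [← hT, hΓi])
  have e5 : ∀ k, (Φ ^ k) (i (MvPowerSeries.constantCoeff T)) =
      i (MvPowerSeries.constantCoeff T) := fun k => by
    induction k with
    | zero => rfl
    | succ k ih => rw [pow_succ, RingAut.mul_apply, e3, ih]
  obtain ⟨Γ₀, hΓ₀⟩ := exists_coefE (ι := ι) (Φ ^ (2 * n))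
  obtain ⟨Γ', hΓ'⟩ := exists_coefE (ι := ι) σ'.toRingEquiv
  have e6 : (Γ' : FP ι M' →+* FP ι M').comp Γi = Γi.comp Γσ := fp_ext fun u => by
    change Γ' (Γi _) = Γi (Γσ _)
    rw [hΓi, hΓ', hΓσ, hΓi]
    exact congrArg _ (MvPowerSeries.ext fun _ => hσ' _)
  obtain ⟨t₀, j₀, a1, a2, a3⟩ := hC _ (hΦ.pow (2 * n))
  obtain ⟨t₁, j₁, b1, b2, b3⟩ := hC _ ((hΦ.pow (2 * n)).tw σ')
  rw [Polynomial.eval_map, eval₂_line] at a3 b3
  obtain ⟨z₀, γ₀, a4, a5⟩ := tg3b_one hφ hρ' hm hb h0 h1 h2 (hΦ.pow (2 * n)) (e5 _) a1 a2 a3 hΓ₀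
  obtain ⟨z₁, γ₁, b4, b5⟩ := tg3b_one hφ hρ' hm hb h0 h1 h2 ((hΦ.pow (2 * n)).tw σ')
    ((congrArg (Φ ^ (2 * n)) ((hσ' _).trans (congrArg i e2))).trans (e5 _)) b1 b2 b3
    (Γ := Γ'.trans Γ₀) fun u => (congrArg Γ₀ (hΓ' u)).trans ((hΓ₀ _).trans
      (congrArg _ (MvPowerSeries.ext fun _ => rfl)))
  refine ⟨2 * n, φ, ![t₀, t₁], ![z₀, z₁], ![γ₀, γ₁], by omega, hφ, Fin.forall_fin_two.2 ⟨a4, b4⟩,
    fun x hx => β.injective ?_⟩
  refine (b5 _ _ (hβ' ⟨x, hx⟩)).trans ((a5 _ _ ((congrArg β (hg0 ⟨x, hx⟩).symm).trans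
    (hβ' _))).trans ?_).symm
  rw [hσ]
  exact congrArg _ (congrArg Γ₀ (DFunLike.congr_fun e6 _).symm)

end Pool.Agent.ZCy
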