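import Pool.Agent.Lib.MP_751085_ag.ZC.T.Geo1
import Pool.Agent.Lib.MP_751085_ag.ZC.T.G3b

/-! The residue is constant, or it separates two points of the curve. -/

namespace Pool.Agent.ZCy

open scoped Classical Polynomial

variable {O K κ σ F : Type} [CommRing O] [IsDomain O] [IsDiscreteValuationRing O] [Field K]
  [CharZero K] [Algebra O K] [IsFractionRing O K] [Field κ] [IsAlgClosed κ] [Fintype σ] [Field F]
  [Algebra (RF (Option σ) K) F] {s : ℕ} {π : O} {ρ : O →+* κ} {c₀ : PChart O σ} {c : PChart K σ}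
  {θ : F} {v : Vl F} {a : BR F} {θ₀ : OB (Option σ) κ} {ρ₀ : v.integer →+* OB (Option σ) κ}

/-- `PtLink` gives `β`, `β'`, `γ'`, `T`. `β ∘ ρ₀ = β' ∘ ρ'` by `XH.red_ext` (`tay_map`; the two
series are roots of `χ` with the same constant term: `GenR.root`, `XH.root`, `ps_root_uniq`,
`Bez.unit`). `γ' ∘ β' = β' ∘ Γ` by `fp_ext`. `ResAt.comp` twice and `nr_uniq`. -/
theorem GenR.link (g : GenR K π ρ θ v θ₀ ρ₀) (h : XH π ρ c₀ c θ) {Θ : MP (Option σ) O}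
    (hb : Bez c₀.χ Θ) {y : Option σ → κ} {z : κ} (hy : MvPolynomial.eval₂ ρ y Θ ≠ 0) {φ : κ →+* κ}
    {γ : OB (Option σ) κ ≃+* OB (Option σ) κ} (hl : PtLink y z φ θ₀ γ)
    {Γ : FP (Option σ) κ ≃+* FP (Option σ) κ} (hΓ : CoefL φ Γ) {ρ' : v.integer →+* FP (Option σ) κ}
    (h2 : AtPt K ρ θ ρ' y z) {q q' : AddCircle (1 : ℚ)} (hq : ResAt v ρ₀ a γ q)
    (hq' : ResAt v ρ' a Γ q') : q' = q := by
  obtain ⟨𝕂, _, _, β, β', γ', T, e1, e2, e3, e4, e5⟩ := hl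
  obtain ⟨r1, T', t1, t2⟩ := h2
  have : CharZero F := charZero_of_injective_ringHom
    ((toE (MP (Option σ) K) F).comp MvPolynomial.C).injective
  have e6 : β.comp ((toE (MP (Option σ) κ) _).comp (MvPolynomial.map ρ)) =
      β'.comp ((ps _ κ).comp (tay ρ y)) := RingHom.ext fun Q =>
    (e3 _).trans (by rw [tay_map]; rfl)
  have hi : Function.Injective (ps (Option σ) κ) := IsFractionRing.injective _ _
  have e7 : β'.comp ρ' = β.comp ρ₀ := by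
    refine h.red_ext g.cen.1 (g.red.tcomp β) (fun Q u hu => ?_) fun u hu => ?_
    · rw [RingHom.comp_apply, RingHom.comp_apply, r1 Q u hu, g.base Q u hu]
      exact (DFunLike.congr_fun e6 Q).symm
    · have h3 : c₀.χ.eval₂ (tay ρ y) T' = 0 := hi (by
        rw [Polynomial.hom_eval₂, ← t2 u hu, h.root g.cen.1 r1 hu, map_zero])
      have h4 : c₀.χ.eval₂ (tay ρ y) T = 0 := hi (β'.injective (by
        rw [Polynomial.hom_eval₂, Polynomial.hom_eval₂, ← e4, ← e6, ← Polynomial.hom_eval₂,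
          g.root h, map_zero, map_zero, map_zero]))
      have h5 := ps_root_uniq _ h3 h4 (t1.trans e5.symm) ((hb.unit _ h3 (by
        rw [MvPowerSeries.isUnit_iff_constantCoeff, cc_tay]
        exact hy.isUnit)).map _)
      rw [RingHom.comp_apply, RingHom.comp_apply, t2 u hu, g.th u hu, e4, h5]
  have e8 := fp_ext (Γ := (γ' : 𝕂 →+* 𝕂).comp β') (Γ' := β'.comp (Γ : _ →+* _)) fun f =>
    (e2 f).trans (congrArg β' (hΓ f).symm)
  exact nr_uniq ⟨_, g.cen.2⟩ (e7 ▸ hq'.comp β' (DFunLike.congr_fun e8)) (hq.comp β e1)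

/-- `exists_E0`. If some `g₀` over `RF _ κ` that fixes `θ₀` has a value `q ≠ 0` (`nr_exists`), take
`g3b`; the `γ i` have values `q i` (`GenR.fix`); `(γ 1)⁻¹ * γ 0 * g₀` fixes `E₀`, so
`q 0 + q = q 1 + 0` (`nr_mul`, `nr_uniq`); `GenR.link`. Otherwise `GenR.const`. -/
theorem GenR.geo (hT : TZP) (hZ : ZLP) (hs : FinB κ s) (hρ : LRes ρ s) (g : GenR K π ρ θ v θ₀ ρ₀)
    (h : XH π ρ c₀ c θ) (hδ : IsUnit (c₀.δ.factorial : O)) {Θ : MP (Option σ) O} {r : ℕ}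
    (hΘ : c₀.br ∣ Θ ^ r) {a₀ b₀ : Option σ → O} (hl : GoodLine Θ a₀ b₀) (hb0 : ∃ i, IsUnit (b₀ i))
    (hi : Irreducible ((c₀.χ.map (line (RingHom.id O) a₀ b₀)).map (Polynomial.mapRingHom ρ)))
    (T : TRep π c.br F a) {N : ℕ} (hN : IsUnit (N : O)) (ha : N • a = 0) :
    (∃ q₀, ConstR K ρ s v (Option σ) a q₀) ∨ TwoPt K ρ s c₀.χ Θ a₀ b₀ θ v a := by
  have : CharZero F := charZero_of_injective_ringHom
    ((toE (MP (Option σ) K) F).comp MvPolynomial.C).injective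
  have hb := (c₀.bez_of hΘ).1
  have hv : Nrm v := ⟨_, g.cen.2⟩
  have h0 : ¬MvPolynomial.C π ∣ Θ := fun e => h.irr.not_isUnit (isUnit_of_dvd_unit
    (by simpa using map_dvd (MvPolynomial.eval a₀) e) hl.1)
  obtain ⟨hres, E₀, _, _, hG, hU, hθ, htriv⟩ := g.exists_E0 hT hs h hδ hΘ h0 T hN ha
  by_cases hc : ∀ γ : OB (Option σ) κ ≃ₐ[RF (Option σ) κ] OB (Option σ) κ,
      γ θ₀ = θ₀ → ResAt v ρ₀ a γ.toRingEquiv 0
  · exact Or.inl (g.const hs hρ h hres hc)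
  obtain ⟨g₀, hc⟩ := not_forall.1 hc
  obtain ⟨hg₀, hne⟩ := Classical.not_imp.1 hc
  obtain ⟨q, hq⟩ := nr_exists hres g.red
    (g.fix h (γ := g₀.toRingEquiv) (fun Q => g₀.commutes _) hg₀)
  have h1 : ∀ x, ρ x ^ s = ρ x := fun x => (hρ.rng _).1 ⟨x, rfl⟩
  obtain ⟨m, φ, t, z, γ, hm, hφ, hi', hx⟩ :=
    g3b hZ hs h1 c₀.monic hb hl hb0 hi (g.root h) E₀ hG hU hθ g₀ hg₀
  refine Or.inr ⟨m, t, z, hm, fun i => (hi' i).1, fun φ' Γ ρ' q' hφ' hΓ hh e => hne ?_⟩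
  obtain rfl : φ' = φ := RingEquiv.ext fun x => (hφ' x).trans (hφ x).symm
  have h2 : (φ' : κ →+* κ).comp ρ = ρ := RingHom.ext fun x => (hφ _).trans (by
    clear hφ hφ' hi' hm
    induction m with
    | zero => rw [pow_zero, pow_one]
    | succ m ih => rw [pow_succ, pow_mul, ih, h1])
  choose p hp using fun i => nr_exists hres g.red (g.fix h (γ := γ i)
    (fun Q => by rw [(hi' i).2.2.1, MvPolynomial.map_map, h2]) (hi' i).2.1)
  have h3 : ∀ i, q' i = p i := fun i =>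
    g.link h hb (hi' i).1.off (hi' i).2.2.2 hΓ (hh i).2.1 (hp i) (hh i).2.2
  have h4 := nr_mul hv (hp 1) (htriv ((γ 1)⁻¹ * (γ 0 * g₀.toRingEquiv)) fun x hx' =>
    (γ 1).symm_apply_eq.2 (hx x hx').symm)
  rw [mul_inv_cancel_left, ← h3, ← e, h3] at h4
  exact add_left_cancel (nr_uniq hv (nr_mul hv (hp 0) hq) h4) ▸ hq

end Pool.Agent.ZCy
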