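import Pool.Agent.Lib.MP_751085_ag.ZC.T.Defs
import Pool.Agent.Lib.MP_751085_ag.ZC.CMap

/-! Maps on coefficients, expansions at points, Frobenius, extension of embeddings. -/

namespace Pool.Agent.ZCy

open scoped Classical WithZero Polynomial

section ps

variable {ι A B S : Type} [CommRing A] [CommRing B] [CommRing S]

theorem ps_map_injective {f : A →+* B} (hf : Function.Injective f) :
    Function.Injective (MvPowerSeries.map f : PS ι A →+* PS ι B) := fun _ _ e =>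
  MvPowerSeries.ext fun n => hf (congrArg (MvPowerSeries.coeff n) e)

theorem fp_ext {Γ Γ' : FP ι A →+* S} (h : ∀ y, Γ (ps ι A y) = Γ' (ps ι A y)) : Γ = Γ' :=
  IsLocalization.ringHom_ext (nonZeroDivisors (PS ι A)) (RingHom.ext h)

theorem exists_coefL [IsDomain A] [IsDomain B] {f : A →+* B} (hf : Function.Injective f) :
    ∃ Γ : FP ι A →+* FP ι B, CoefL f Γ :=
  ⟨IsLocalization.map (FP ι B) (MvPowerSeries.map f : PS ι A →+* PS ι B)
    (nonZeroDivisors_le_comap_nonZeroDivisors_of_injective _ (ps_map_injective hf)),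
    fun _ => IsLocalization.map_eq _ _⟩

theorem exists_coefE [IsDomain A] [IsDomain B] (f : A ≃+* B) :
    ∃ Γ : FP ι A ≃+* FP ι B, CoefL (f : A →+* B) Γ :=
  ⟨IsFractionRing.ringEquivOfRingEquiv (RingEquiv.ofBijective
    (MvPowerSeries.map (f : A →+* B) : PS ι A →+* PS ι B) ⟨ps_map_injective f.injective, fun y =>
      ⟨MvPowerSeries.map (f.symm : B →+* A) y, MvPowerSeries.ext fun _ => f.apply_symm_apply _⟩⟩),
    fun _ => IsFractionRing.ringEquivOfRingEquiv_algebraMap _ _⟩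

theorem map_tay (f : B →+* S) (φ : A →+* B) (y : ι → B) (Q : MP ι A) :
    MvPowerSeries.map f (tay φ y Q) = tay (f.comp φ) (fun i => f (y i)) Q := by
  have : (MvPowerSeries.map f).comp (tay φ y) = tay (f.comp φ) fun i => f (y i) :=
    MvPolynomial.ringHom_ext (fun _ => by simp [tay]) fun _ => by simp [tay]
  exact DFunLike.congr_fun this Q

theorem tay_map (φ : A →+* B) (ψ : B →+* S) (y : ι → S) (Q : MP ι A) :
    tay ψ y (MvPolynomial.map φ Q) = tay (ψ.comp φ) y Q :=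
  MvPolynomial.eval₂Hom_map_hom _ _ _ _

theorem cc_tay (φ : A →+* B) (y : ι → B) (Q : MP ι A) :
    MvPowerSeries.constantCoeff (tay φ y Q) = MvPolynomial.eval₂ φ y Q := by
  have : MvPowerSeries.constantCoeff.comp (tay φ y) = MvPolynomial.eval₂Hom φ y :=
    MvPolynomial.ringHom_ext (fun _ => by simp [tay]) fun _ => by simp [tay]
  exact DFunLike.congr_fun this Q

/-- `tay id y` is a translation of the polynomial ring followed by the inclusion -/
theorem tay_eq_zero (φ : A →+* B) (y : ι → B) (Q : MP ι A) :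
    tay φ y Q = 0 ↔ MvPolynomial.map φ Q = 0 := by
  let t : (ι → B) → MP ι B →+* MP ι B := fun y =>
    MvPolynomial.eval₂Hom MvPolynomial.C fun i => MvPolynomial.C (y i) + MvPolynomial.X i
  have h1 : tay φ y = (MvPolynomial.coeToMvPowerSeries.ringHom.comp (t y)).comp
      (MvPolynomial.map φ) :=
    MvPolynomial.ringHom_ext (fun _ => by simp [tay, t]) fun _ => by simp [tay, t]
  have h2 : (t (-y)).comp (t y) = RingHom.id _ :=
    MvPolynomial.ringHom_ext (fun _ => by simp [t]) fun _ => by simp [t]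
  have h3 : Function.Injective (t y) :=
    Function.LeftInverse.injective (g := t (-y)) (DFunLike.congr_fun h2)
  rw [h1, RingHom.comp_apply]
  exact map_eq_zero_iff _ ((MvPolynomial.coe_injective ι B).comp h3)

theorem ps_root_uniq {h : A[X]} (ψ : A →+* PS ι B) {T T' : PS ι B} (h1 : h.eval₂ ψ T = 0)
    (h2 : h.eval₂ ψ T' = 0) (e : MvPowerSeries.constantCoeff T = MvPowerSeries.constantCoeff T')
    (hu : IsUnit (MvPowerSeries.constantCoeff (h.derivative.eval₂ ψ T))) : T = T' := by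
  obtain ⟨k, hk⟩ := Polynomial.binomExpansion (h.map ψ) T (T' - T)
  rw [add_sub_cancel, Polynomial.derivative_map, Polynomial.eval_map, Polynomial.eval_map,
    Polynomial.eval_map, h1, h2] at hk
  have h3 : IsUnit (h.derivative.eval₂ ψ T + k * (T' - T)) := by
    rwa [MvPowerSeries.isUnit_iff_constantCoeff, map_add, map_mul, map_sub, e, sub_self, mul_zero,
      add_zero]
  exact (sub_eq_zero.1 (h3.mul_right_eq_zero.1 (by linear_combination -hk))).symm

theorem Bez.unit {χ : A[X]} {Θ : A} (h : Bez χ Θ) (ψ : A →+* S) {z : S} (h0 : χ.eval₂ ψ z = 0)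
    (hu : IsUnit (ψ Θ)) : IsUnit (χ.derivative.eval₂ ψ z) := by
  obtain ⟨N, α, β, e⟩ := h
  have := congrArg (Polynomial.eval₂ ψ z) e
  rw [Polynomial.eval₂_C, Polynomial.eval₂_add, Polynomial.eval₂_mul, Polynomial.eval₂_mul, h0,
    mul_zero, zero_add, map_pow] at this
  exact isUnit_of_mul_isUnit_right (this ▸ hu.pow N)

theorem Bez.map {χ : A[X]} {Θ : A} (h : Bez χ Θ) (ψ : A →+* S) : Bez (χ.map ψ) (ψ Θ) := by
  obtain ⟨N, α, β, e⟩ := h
  refine ⟨N, α.map ψ, β.map ψ, ?_⟩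
  rw [Polynomial.derivative_map, ← Polynomial.map_mul, ← Polynomial.map_mul, ← Polynomial.map_add,
    ← e, Polynomial.map_C, map_pow ψ]

theorem PChart.bez_of {σ : Type} (c : PChart A σ) {Θ : MP (Option σ) A} {r : ℕ}
    (h : c.br ∣ Θ ^ r) : Bez c.χ Θ ∧ ∃ r' : ℕ, c.D ∣ Θ ^ r' := by
  obtain ⟨s, hs⟩ := c.dvd
  obtain ⟨α, β, e⟩ := c.bez
  have h1 : c.D ∣ Θ ^ (r * s) :=
    hs.trans (pow_mul Θ r s ▸ pow_dvd_pow_of_dvd ((dvd_mul_right _ _).trans h) s)
  refine ⟨?_, _, h1⟩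
  obtain ⟨g, hg⟩ := h1
  exact ⟨r * s, α * Polynomial.C g, β * Polynomial.C g, by rw [hg, map_mul, e]; ring⟩

theorem tcf_map_line (φ : A →+* B) (ψ : B →+* S) (a b : ι → B) (Q : MP ι A) :
    (line φ a b Q).map ψ = line (ψ.comp φ) (fun i => ψ (a i)) (fun i => ψ (b i)) Q := by
  have : (Polynomial.mapRingHom ψ).comp (line φ a b) =
      line (ψ.comp φ) (fun i => ψ (a i)) fun i => ψ (b i) :=
    MvPolynomial.ringHom_ext (fun _ => by simp [line]) fun _ => by simp [line]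
  exact DFunLike.congr_fun this Q

theorem tcf_deg (a b : ι → A) (Q : MP ι A) :
    (line (RingHom.id A) a b Q).natDegree ≤ Q.totalDegree :=
  (MvPolynomial.aeval_natDegree_le Q le_rfl _ fun i => by
    rw [add_comm]; exact Polynomial.natDegree_linear_le).trans_eq (mul_one _)

theorem GoodLine.tmap [Nontrivial B] {Θ : MP ι A} {a b : ι → A} (h : GoodLine Θ a b) (φ : A →+* B) :
    GoodLine (MvPolynomial.map φ Θ) (fun i => φ (a i)) fun i => φ (b i) := by
  have e : line (RingHom.id B) (fun i => φ (a i)) (fun i => φ (b i)) (MvPolynomial.map φ Θ) =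
      (line (RingHom.id A) a b Θ).map φ := by
    rw [tcf_map_line]
    exact MvPolynomial.eval₂Hom_map_hom _ _ _ _
  have h3 : IsUnit (((line (RingHom.id A) a b Θ).map φ).coeff Θ.totalDegree) := by
    rw [Polynomial.coeff_map]
    exact h.2.2.map φ
  have h4 : (MvPolynomial.map φ Θ).totalDegree = Θ.totalDegree :=
    (totalDegree_map_le' φ Θ).antisymm
      ((Polynomial.le_natDegree_of_ne_zero h3.ne_zero).trans (e ▸ tcf_deg _ _ _))
  refine ⟨?_, e ▸ h.2.1.map, by rwa [e, h4]⟩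
  have := h.1.map φ
  rwa [MvPolynomial.eval₂_comp, ← MvPolynomial.eval_map] at this

theorem GoodLine.lead {Θ : MP ι A} {a b : ι → A} (h : GoodLine Θ a b) [Nontrivial A] :
    IsUnit (line (RingHom.id A) a b Θ).leadingCoeff := by
  rw [Polynomial.leadingCoeff,
    (tcf_deg a b Θ).antisymm (Polynomial.le_natDegree_of_ne_zero h.2.2.ne_zero)]
  exact h.2.2

theorem tmap_line (φ : A →+* B) (ψ : B →+* S) (a b : ι → B) (Q : MP ι A) :
    (line φ a b Q).map ψ = line (ψ.comp φ) (fun i => ψ (a i)) (fun i => ψ (b i)) Q :=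
  tcf_map_line φ ψ a b Q

theorem eval₂_line (φ : A →+* S) (a b : ι → A) (t : S) (Q : MP ι A) :
    (line (RingHom.id A) a b Q).eval₂ φ t = MvPolynomial.eval₂ φ (tpt φ a b t) Q := by
  have : (Polynomial.eval₂RingHom φ t).comp (line (RingHom.id A) a b) =
      MvPolynomial.eval₂Hom φ (tpt φ a b t) :=
    MvPolynomial.ringHom_ext (fun _ => by simp [line]) fun _ => by simp [line, tpt]
  exact DFunLike.congr_fun this Q

end ps

section field

variable {κ L Ω 𝕂 : Type} [Field κ] [Field L] [Field Ω] [Field 𝕂] {s : ℕ}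

theorem FinB.one_lt (h : FinB κ s) : 1 < s := by
  obtain ⟨p, r, hp, -, hr, rfl⟩ := h.ex
  exact Nat.one_lt_pow hr.ne' hp.one_lt

theorem FinB.pow (h : FinB κ s) {m : ℕ} (hm : 0 < m) : FinB κ (s ^ m) := by
  obtain ⟨p, r, hp, hc, hr, e⟩ := h.ex
  refine ⟨⟨p, r * m, hp, hc, mul_pos hr hm, by rw [e, pow_mul]⟩, fun x => ?_⟩
  obtain ⟨n, hn, hx⟩ := h.alg x
  refine ⟨n, hn, ?_⟩
  rw [pow_right_comm]
  clear hm
  induction m with
  | zero => rw [pow_zero, pow_one]
  | succ m ih => rw [pow_succ, pow_mul, ih, hx]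

theorem FinB.frob [IsAlgClosed κ] (h : FinB κ s) (m : ℕ) :
    ∃ φ : κ ≃+* κ, ∀ z, φ z = z ^ s ^ m := by
  obtain ⟨p, r, hp, hc, -, rfl⟩ := h.ex
  have : ExpChar κ p := ExpChar.prime hp
  exact ⟨iterateFrobeniusEquiv κ p (r * m), fun z => by rw [iterateFrobeniusEquiv_def, pow_mul]⟩

/-- the roots of `X ^ s - X` -/
theorem FinB.card [IsAlgClosed κ] (h : FinB κ s) : Nat.card {z : κ // z ^ s = z} = s := by
  have h1 := h.one_lt
  obtain ⟨p, r, hp, hc, hr, e⟩ := h.ex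
  have h2 := Polynomial.card_rootSet_eq_natDegree (K := κ)
    (galois_poly_separable (K := κ) p s (e ▸ dvd_pow_self p hr.ne')) (IsAlgClosed.splits _)
  rw [FiniteField.X_pow_card_sub_X_natDegree_eq κ h1, ← Nat.card_eq_fintype_card] at h2
  refine (Nat.card_congr (Equiv.subtypeEquivRight fun z => ?_)).trans h2
  simp [Polynomial.mem_rootSet_of_ne (FiniteField.X_pow_card_sub_X_ne_zero κ h1), sub_eq_zero]

theorem tcf_ext [Algebra L Ω] [Algebra.IsAlgebraic L Ω] [IsAlgClosed 𝕂] (β : L →+* 𝕂) :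
    ∃ β' : Ω →+* 𝕂, ∀ x, β' (algebraMap L Ω x) = β x := by
  let := β.toAlgebra
  exact ⟨(IsAlgClosed.lift : Ω →ₐ[L] 𝕂), (IsAlgClosed.lift : Ω →ₐ[L] 𝕂).commutes⟩

/-- `κ` embeds into every algebraically closed field over the residue field of `O` -/
theorem FinB.emb (h : FinB κ s) {O : Type} [CommRing O] [IsLocalRing O] {ρ : O →+* κ}
    (hρ : KerM ρ) [IsAlgClosed 𝕂] {ρ' : O →+* 𝕂} (hρ' : KerM ρ') :
    ∃ β : κ →+* 𝕂, ∀ a, β (ρ a) = ρ' a := by
  have : IsLocalHom ρ := ⟨fun a ha => not_not.1 fun e => ha.ne_zero ((hρ a).2 e)⟩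
  have : IsLocalHom ρ' := ⟨fun a ha => not_not.1 fun e => ha.ne_zero ((hρ' a).2 e)⟩
  let := (IsLocalRing.ResidueField.lift ρ).toAlgebra
  have : Algebra.IsAlgebraic (IsLocalRing.ResidueField O) κ := ⟨fun x => by
    obtain ⟨n, hn, hx⟩ := h.alg x
    exact ⟨_, FiniteField.X_pow_card_sub_X_ne_zero _ (Nat.one_lt_pow hn.ne' h.one_lt), by
      simp [hx]⟩⟩
  obtain ⟨β, hβ⟩ := tcf_ext (Ω := κ) (IsLocalRing.ResidueField.lift ρ')
  exact ⟨β, fun a => hβ (IsLocalRing.residue O a)⟩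

/-- a root of a polynomial that splits over the constants is a constant -/
theorem root_mem_range (j : L →+* Ω) {h : L[X]} (h0 : h ≠ 0) (hs : h.Splits) {z : Ω}
    (hz : h.eval₂ j z = 0) : z ∈ j.range :=
  hs.mem_range_of_isRoot h0 ((Polynomial.eval_map _ _).trans hz)

theorem exists_hom_ext [Algebra L Ω] [Algebra.IsAlgebraic L Ω] [IsAlgClosed 𝕂] (β : L →+* 𝕂) :
    ∃ β' : Ω →+* 𝕂, ∀ x, β' (algebraMap L Ω x) = β x := tcf_ext β

theorem exists_taut [Algebra L Ω] [IsAlgClosure L Ω] (γ : L ≃+* L) :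
    ∃ γ' : Ω ≃+* Ω, ∀ x, γ' (algebraMap L Ω x) = algebraMap L Ω (γ x) :=
  ⟨IsAlgClosure.equivOfEquiv Ω Ω γ, IsAlgClosure.equivOfEquiv_algebraMap Ω Ω γ⟩

/-- two embeddings of `Ω` that agree on `L` differ by an automorphism -/
theorem exists_aut_res [Algebra L Ω] [IsAlgClosure L Ω] (β : Ω →+* 𝕂) (γ : 𝕂 ≃+* 𝕂) (γ₀ : L ≃+* L)
    (h : ∀ x, γ (β (algebraMap L Ω x)) = β (algebraMap L Ω (γ₀ x))) :
    ∃ γ' : Ω ≃+* Ω, ∀ x, γ (β x) = β (γ' x) := by
  obtain ⟨γ₁, h1⟩ := exists_taut (Ω := Ω) γ₀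
  let := (β.comp (γ₁ : Ω →+* Ω)).toAlgebra
  let := ((β.comp (γ₁ : Ω →+* Ω)).comp (algebraMap L Ω)).toAlgebra
  have : IsScalarTower L Ω 𝕂 := IsScalarTower.of_algebraMap_eq fun _ => rfl
  let ϕ : Ω →ₐ[L] 𝕂 :=
    { (γ : 𝕂 →+* 𝕂).comp β with commutes' := fun x => (h x).trans (congrArg β (h1 x).symm) }
  exact ⟨(ϕ.restrictNormal' Ω).toRingEquiv.trans γ₁, fun x => (ϕ.restrictNormal_commutes Ω x).symm⟩

/-- the automorphism of the rational function field induced by one of the constants -/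
theorem exists_rf_aut {ι : Type} (φ : κ ≃+* κ) : ∃ Φ : RF ι κ ≃+* RF ι κ, ∀ Q : MP ι κ,
    Φ (algebraMap _ _ Q) = algebraMap (MP ι κ) _ (MvPolynomial.map (φ : κ →+* κ) Q) :=
  ⟨IsFractionRing.ringEquivOfRingEquiv (MvPolynomial.mapEquiv ι φ),
    fun _ => IsFractionRing.ringEquivOfRingEquiv_algebraMap _ _⟩

end field

end Pool.Agent.ZCy
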