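import Pool.Agent.Lib.MP_751085_ag.ZC.T.Defs
import Pool.Agent.Lib.MP_751085_ag.ZC.V.Har

/-! The valuation of a prime element. -/

namespace Pool.Agent.ZCy

open scoped Classical WithZero Polynomial

set_option linter.unusedSectionVars false

section

variable {A K E Ω : Type} [CommRing A] [Field K] [Field E] [Field Ω] {φ : A →+* K} {P : A}
  {v v' : Vl K}

theorem tgau_fin [IsDomain A] (hP : Prime P) (hF : Fac P) {a : A} (ha : a ≠ 0) :
    FiniteMultiplicity P a := by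
  obtain ⟨n, b, rfl, h⟩ := hF a ha
  exact ⟨n, by rwa [pow_succ, mul_dvd_mul_iff_left (pow_ne_zero n hP.ne_zero)]⟩

/-- the valuation of a prime on the ring -/
noncomputable def tgau_val [IsDomain A] (hP : Prime P) (hF : Fac P) : Valuation A ℤᵐ⁰ where
  toFun a := if a = 0 then 0 else WithZero.exp (-(multiplicity P a : ℤ))
  map_zero' := if_pos rfl
  map_one' := by rw [if_neg one_ne_zero, multiplicity_eq_zero.2 hP.not_dvd_one]; rfl
  map_mul' a b := by
    by_cases ha : a = 0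
    · simp [ha]
    by_cases hb : b = 0
    · simp [hb]
    rw [if_neg (mul_ne_zero ha hb), if_neg ha, if_neg hb,
      multiplicity_mul hP (tgau_fin hP hF (mul_ne_zero ha hb)), ← WithZero.exp_add,
      Nat.cast_add, neg_add]
  map_add_le_max' a b := by
    by_cases ha : a = 0
    · simp [ha]
    by_cases hb : b = 0
    · simp [hb]
    by_cases h : a + b = 0
    · simp [h]
    have := (tgau_fin hP hF h).pow_dvd_iff_le_multiplicity.1 (dvd_add
      ((pow_dvd_pow P (min_le_left _ (multiplicity P b))).trans (pow_multiplicity_dvd P a))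
      ((pow_dvd_pow P (min_le_right (multiplicity P a) _)).trans (pow_multiplicity_dvd P b)))
    simp only [if_neg ha, if_neg hb, if_neg h, le_max_iff, WithZero.exp_le_exp]
    omega

theorem tgau_val_apply [IsDomain A] (hP : Prime P) (hF : Fac P) {a : A} (ha : a ≠ 0) :
    tgau_val hP hF a = WithZero.exp (-(multiplicity P a : ℤ)) := if_neg ha

theorem gau_exists (h : Frc φ) (hP : Prime P) (hF : Fac P) : ∃ v : Vl K, Cen1 φ v P := by
  have := h.inj.isDomain φ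
  let := φ.toAlgebra
  have := (faithfulSMul_iff_algebraMap_injective A K).2 h.inj
  have := IsFractionRing.of_field A K h.surj
  have hS : nonZeroDivisors A ≤ (tgau_val hP hF).supp.primeCompl := fun a ha h => by
    have h' : tgau_val hP hF a = 0 := h
    rw [tgau_val_apply hP hF (nonZeroDivisors.ne_zero ha)] at h'
    exact WithZero.exp_ne_zero h'
  have e : ∀ a, (tgau_val hP hF).extendToLocalization hS K (φ a) = tgau_val hP hF a :=
    Valuation.extendToLocalization_apply_map_apply _ hS K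
  refine ⟨(tgau_val hP hF).extendToLocalization hS K, ⟨fun a => ?_, fun a => ?_⟩, ?_⟩
  · rw [e]
    by_cases ha : a = 0
    · simp [ha]
    rw [tgau_val_apply hP hF ha, ← WithZero.exp_zero, WithZero.exp_le_exp]
    omega
  · rw [e]
    by_cases ha : a = 0
    · simp [ha]
    rw [tgau_val_apply hP hF ha, ← WithZero.exp_zero, WithZero.exp_lt_exp, ← not_iff_not,
      ← multiplicity_eq_zero]
    omega
  · rw [e, tgau_val_apply hP hF hP.ne_zero, multiplicity_self, Nat.cast_one]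

theorem gau_val (h : Frc φ) (hP : Prime P) (hF : Fac P) {x : K} (hx : x ≠ 0) : ∃ (n : ℤ) (a b : A),
    ¬P ∣ a ∧ ¬P ∣ b ∧ x = φ P ^ n * φ a / φ b := by
  obtain ⟨a, b, rfl⟩ := h.surj x
  have h0 : φ P ≠ 0 := (map_ne_zero_iff φ h.inj).2 hP.ne_zero
  obtain ⟨n, a, rfl, h1⟩ := hF a (by rintro rfl; simp at hx)
  obtain ⟨m, b, rfl, h2⟩ := hF b (by rintro rfl; simp at hx)
  refine ⟨n - m, a, b, h1, h2, ?_⟩
  rw [map_mul, map_mul, map_pow, map_pow, zpow_sub₀ h0, zpow_natCast, zpow_natCast,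
    mul_div_mul_comm, mul_div_assoc]

theorem gau_desc (h : Frc φ) (hP : Prime P) (hF : Fac P) (hv : Cen φ v P) {x : K} (hx : v x ≤ 1) :
    ∃ a b : A, ¬P ∣ b ∧ x * φ b = φ a := by
  by_cases h0 : x = 0
  · exact ⟨0, 1, hP.not_dvd_one, by simp [h0]⟩
  obtain ⟨n, a, b, h1, h2, rfl⟩ := gau_val h hP hF h0
  have h3 : 0 < v (φ P) := zero_lt_iff.2
    ((Valuation.ne_zero_iff v).2 ((map_ne_zero_iff φ h.inj).2 hP.ne_zero))
  rw [map_div₀, map_mul, (hv.eq_one a).2 h1, (hv.eq_one b).2 h2, mul_one, div_one, map_zpow₀,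
    zpow_le_one_iff_right_of_lt_one₀ h3 ((hv.2 P).2 dvd_rfl)] at hx
  lift n to ℕ using hx
  refine ⟨P ^ n * a, b, h2, ?_⟩
  rw [div_mul_cancel₀ _ ((map_ne_zero_iff φ h.inj).2 (by rintro rfl; simp at h2)), map_mul,
    map_pow, zpow_natCast]

theorem tgau_iff (h : Frc φ) (hP : Prime P) (hF : Fac P) (hv : Cen φ v P) (x : K) :
    v x ≤ 1 ↔ ∃ a b : A, ¬P ∣ b ∧ x * φ b = φ a := by
  refine ⟨gau_desc h hP hF hv, fun ⟨a, b, h2, e⟩ => ?_⟩
  have := hv.1 a
  rwa [← e, map_mul, (hv.eq_one b).2 h2, mul_one] at this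

theorem gau_over (h : Frc φ) (hP : Prime P) (hF : Fac P) (hv : Cen φ v P) {j : K →+* E} {w : Vl E} :
    Cen (j.comp φ) w P ↔ Over j v w :=
  ⟨fun hw x => (tgau_iff h hP hF (v := w.comap j) hw x).trans (tgau_iff h hP hF hv x).symm,
    fun ho => (cen_of_over ho).2 hv⟩

theorem gau_eq (h : Frc φ) (hP : Prime P) (hF : Fac P) (hv : Cen1 φ v P) (hv' : Cen1 φ v' P) :
    v' = v :=
  Nrm.eq_of_iff ⟨_, hv.2⟩ ⟨_, hv'.2⟩ fun x =>
    (tgau_iff h hP hF hv'.1 x).trans (tgau_iff h hP hF hv.1 x).symm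

/-- the index is the order of `P` -/
theorem gau_idq (h : Frc φ) (hP : Prime P) (hF : Fac P) (hv : Cen1 φ v P) {j : K →+* E} {w : Vl E}
    (hw : Cen (j.comp φ) w P) : 0 < ord w (j (φ P)) ∧ Idq j v w (ord w (j (φ P))) := by
  refine ⟨(ord_pos_v w ((map_ne_zero j).2 ((map_ne_zero_iff φ h.inj).2 hP.ne_zero))).2
    ((hw.2 P).2 dvd_rfl), fun x hx => ?_⟩
  obtain ⟨n, a, b, h1, h2, rfl⟩ := gau_val h hP hF hx
  have e1 : w (j (φ a)) = 1 := (hw.eq_one a).2 h1
  have e2 : w (j (φ b)) = 1 := (hw.eq_one b).2 h2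
  simp only [ord, map_div₀, map_mul, map_zpow₀, e1, e2, (hv.1.eq_one a).2 h1, (hv.1.eq_one b).2 h2,
    mul_one, div_one, hv.2, WithZero.log_zpow, WithZero.log_exp]
  simp [mul_comm]

theorem gau_red (h : Frc φ) (hP : Prime P) (hF : Fac P) (hv : Cen φ v P) {ψ : A →+* Ω}
    (hψ : ∀ a, ψ a = 0 ↔ P ∣ a) : ∃ ρ : v.integer →+* Ω, IsRed v ρ ∧ RedA φ ρ ψ := by
  let β : A →+* v.integer := φ.codRestrict _ hv.1
  let := β.toAlgebra
  let M : Submonoid A := (nonZeroDivisors Ω).comap ψ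
  have hM : ∀ b, b ∈ M ↔ ¬P ∣ b := fun b => mem_nonZeroDivisors_iff_ne_zero.trans (hψ b).not
  have hs : ∀ x : v.integer, ∃ a b, ¬P ∣ b ∧ x * β b = β a := fun x =>
    (gau_desc h hP hF hv x.2).imp fun _ => .imp fun _ e => ⟨e.1, Subtype.ext e.2⟩
  have : IsLocalization M v.integer := (isLocalization_iff _ _).2
    ⟨fun b => (Valuation.integer.integers v).isUnit_of_one' ((hv.eq_one _).2 ((hM _).1 b.2)),
      fun x => (hs x).elim fun a => .rec fun b e => ⟨⟨a, b, (hM b).2 e.1⟩, e.2⟩,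
      fun e => ⟨1, congrArg _ (h.inj (congrArg Subtype.val e))⟩⟩
  let ρ : v.integer →+* Ω := IsLocalization.lift (M := M) (g := ψ) fun b =>
    .mk0 _ (nonZeroDivisors.ne_zero b.2)
  have hρ : ∀ a, ρ (β a) = ψ a := IsLocalization.lift_eq _
  refine ⟨ρ, fun x => ?_, fun a y e => (congrArg ρ (Subtype.ext e)).trans (hρ a)⟩
  obtain ⟨a, b, hb, e⟩ := hs x
  have e1 : (x : K) * φ b = φ a := congrArg Subtype.val e
  rw [← mul_eq_zero_iff_right ((hψ b).not.2 hb), ← hρ b, ← map_mul, e, hρ, hψ, ← hv.2, ← e1,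
    map_mul, (hv.eq_one b).2 hb, mul_one]

/-- a semilinear map that is compatible with the residue maps on `A` is compatible on all
integers; with `j = id` this is the uniqueness of the residue map -/
theorem gau_cmp (h : Frc φ) (hP : Prime P) (hF : Fac P) (hv : Cen φ v P) {ρ : v.integer →+* Ω}
    (hρ : IsRed v ρ) {Ω' : Type} [Field Ω'] {w : Vl E} {ρ' : w.integer →+* Ω'} (j : K →+* E)
    (β : Ω →+* Ω') (hw : ∀ a, w (j (φ a)) ≤ 1)
    (e : ∀ (a : A) (x : v.integer) (y : w.integer), (x : K) = φ a → (y : E) = j (φ a) →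
      ρ' y = β (ρ x)) : Cmp j ρ ρ' β := fun x y hy => by
  obtain ⟨a, b, hb, e1⟩ := gau_desc h hP hF hv x.2
  have h0 : β (ρ ⟨φ b, hv.1 b⟩) ≠ 0 :=
    (map_ne_zero β).2 ((hρ.ne_zero _).2 ((hv.eq_one b).2 hb))
  refine mul_right_cancel₀ h0 ?_
  rw [← map_mul, ← map_mul, show x * ⟨φ b, hv.1 b⟩ = ⟨φ a, hv.1 a⟩ from Subtype.ext e1,
    ← e a ⟨_, hv.1 a⟩ ⟨_, hw a⟩ rfl rfl, ← e b ⟨_, hv.1 b⟩ ⟨_, hw b⟩ rfl rfl, ← map_mul]
  exact congrArg ρ' (Subtype.ext ((congrArg (· * _) hy).trans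
    ((map_mul j _ _).symm.trans (congrArg j e1))))

theorem Cen1.nrm {w : Vl E} {ψ : A →+* E} (h : Cen1 ψ w P) : Nrm w := ⟨_, h.2⟩

theorem fac_of_wf [IsDomain A] [WfDvdMonoid A] (hP : Prime P) : Fac P := fun _ ha =>
  (FiniteMultiplicity.of_prime_left hP ha).exists_eq_pow_mul_and_not_dvd.elim fun b h => ⟨_, b, h⟩

theorem frc_alg [Algebra A K] [IsFractionRing A K] : Frc (algebraMap A K) :=
  ⟨IsFractionRing.injective A K, fun z => (IsFractionRing.div_surjective A z).imp fun _ =>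
    .imp fun _ e => e.2.symm⟩

end

section

variable {O K κ ι : Type} [CommRing O] [IsDomain O] [IsDiscreteValuationRing O] [Field K]
  [Algebra O K] [IsFractionRing O K] [Field κ] {π : O} {ρ : O →+* κ}

theorem KerM.dvd (h : KerM ρ) (hπ : Irreducible π) (a : O) : ρ a = 0 ↔ π ∣ a := by
  rw [h, ← Ideal.mem_span_singleton, ← hπ.maximalIdeal_eq, IsLocalRing.mem_maximalIdeal,
    mem_nonunits_iff]

theorem kerM_residue : KerM (IsLocalRing.residue O) := fun a => IsLocalRing.residue_eq_zero_iff a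

theorem tgau_vr (hπ : Irreducible π) :
    ∃ v : Vl K, IsVR (algebraMap O K) v ∧ Cen1 (algebraMap O K) v π := by
  obtain ⟨v, hv⟩ := gau_exists (K := K) frc_alg hπ.prime (fac_of_wf hπ.prime)
  refine ⟨v, ⟨hv.nrm, IsFractionRing.injective O K, fun x => ⟨fun hx => ?_, ?_⟩⟩, hv⟩
  · obtain ⟨a, b, hb, e⟩ := gau_desc frc_alg hπ.prime (fac_of_wf hπ.prime) hv.1 hx
    obtain ⟨c, hc⟩ := (not_not.1 fun u => hb ((kerM_residue.dvd hπ b).1
      ((kerM_residue b).2 u))).exists_right_inv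
    exact ⟨a * c, by rw [map_mul, ← e, mul_assoc, ← map_mul, hc, map_one, mul_one]⟩
  · rintro ⟨a, rfl⟩
    exact hv.1.1 a

theorem exists_tVR : ∃ v : Vl K, IsVR (algebraMap O K) v :=
  (IsDiscreteValuationRing.exists_irreducible O).elim fun _ hπ => (tgau_vr hπ).imp fun _ h => h.1

theorem IsVR.cen1 {v : Vl K} (h : IsVR (algebraMap O K) v) (hπ : Irreducible π) :
    Cen1 (algebraMap O K) v π := by
  obtain ⟨u, h1, h2⟩ := tgau_vr (K := K) hπ
  rwa [Nrm.eq_of_iff h1.1 h.1 fun x => (h.2.2 x).trans (h1.2.2 x).symm]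

theorem mp_ker (h : KerM ρ) (hπ : Irreducible π) (Q : MP ι O) :
    MvPolynomial.map ρ Q = 0 ↔ MvPolynomial.C π ∣ Q := by
  simp only [MvPolynomial.ext_iff, MvPolynomial.coeff_map, MvPolynomial.coeff_zero,
    MvPolynomial.C_dvd_iff_dvd_coeff, h.dvd hπ]

theorem mp_prime (hπ : Irreducible π) :
    Prime (MvPolynomial.C π : MP ι O) ∧ Fac (MvPolynomial.C π : MP ι O) :=
  have h := (MvPolynomial.prime_C_iff ι).2 hπ.prime
  ⟨h, fac_of_wf h⟩

variable (O K ι) in
theorem frc_gO : Frc (gO O K ι (RF ι K)) :=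
  have h := (isFr_alg O K).mv (isFr_alg (MP ι K) (RF ι K))
  ⟨h.1, fun z => (h.2 z).imp fun _ => .imp fun _ e =>
    (eq_div_iff ((map_ne_zero_iff _ h.1).2 e.1)).2 e.2⟩

theorem poly_ker (h : KerM ρ) (hπ : Irreducible π) (Q : O[X]) :
    Q.map ρ = 0 ↔ Polynomial.C π ∣ Q := by
  simp only [Polynomial.ext_iff, Polynomial.coeff_map, Polynomial.coeff_zero,
    Polynomial.C_dvd_iff_dvd_coeff, h.dvd hπ]

theorem poly_prime (hπ : Irreducible π) :
    Prime (Polynomial.C π : O[X]) ∧ Fac (Polynomial.C π : O[X]) :=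
  have h := Polynomial.prime_C_iff.2 hπ.prime
  ⟨h, fac_of_wf h⟩

omit [IsDomain O] [IsDiscreteValuationRing O] in
theorem tgau_dvd {f : PS ι O} : MvPowerSeries.C π ∣ f ↔ ∀ m, π ∣ MvPowerSeries.coeff m f := by
  refine ⟨fun ⟨g, e⟩ m => ⟨_, e ▸ MvPowerSeries.coeff_C_mul m g π⟩, fun h => ?_⟩
  choose g hg using h
  exact ⟨g, MvPowerSeries.ext fun m => (hg m).trans (MvPowerSeries.coeff_C_mul m g π).symm⟩

theorem ps_ker (h : KerM ρ) (hπ : Irreducible π) (f : PS ι O) :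
    MvPowerSeries.map ρ f = 0 ↔ MvPowerSeries.C π ∣ f := by
  simp only [MvPowerSeries.ext_iff, MvPowerSeries.coeff_map, map_zero, tgau_dvd, h.dvd hπ]

theorem ps_prime (hπ : Irreducible π) :
    Prime (MvPowerSeries.C π : PS ι O) ∧ Fac (MvPowerSeries.C π : PS ι O) := by
  have hk := ps_ker (ι := ι) kerM_residue hπ
  refine ⟨⟨(map_ne_zero_iff _ MvPowerSeries.C_injective).2 hπ.ne_zero, fun u =>
    one_ne_zero ((map_one _).symm.trans ((hk 1).2 u.dvd)), fun a b => ?_⟩, fun f hf => ?_⟩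
  · simp only [← hk, map_mul, mul_eq_zero, imp_self]
  obtain ⟨m, hm⟩ := not_forall.1 (mt MvPowerSeries.ext hf)
  obtain ⟨n, hn⟩ := FiniteMultiplicity.of_prime_left hπ.prime hm
  exact (FiniteMultiplicity.exists_eq_pow_mul_and_not_dvd
    ⟨n, fun d => hn (tgau_dvd.1 (by rwa [map_pow]) m)⟩).elim fun b h => ⟨_, b, h⟩

end

end Pool.Agent.ZCy
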