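import Pool.Agent.Lib.MP_751085_ag.ZC.T.Need
import Pool.Agent.Lib.MP_751085_ag.ZC.T.Gau
import Pool.Agent.Lib.MP_751085_ag.ZC.T.Cf

/-! The curve over a good line is geometrically irreducible modulo `π`. -/

namespace Pool.Agent.ZCy

open scoped Classical Polynomial

theorem tt0_mq {A B C ι : Type} [CommRing A] [CommRing B] [CommRing C] (f : A →+* B) (g : B →+* C)
    (p : (MP ι A)[X]) : mq g (mq f p) = mq (g.comp f) p := by
  simp only [Polynomial.coe_mapRingHom, Polynomial.map_map]
  congr 1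
  exact RingHom.ext fun q => MvPolynomial.map_map _ _ _

theorem tt0_line {A B ι : Type} [CommRing A] [CommRing B] (f : A →+* B) (a b : ι → A)
    (p : (MP ι A)[X]) : (mq f p).map (line (RingHom.id B) (fun i => f (a i)) fun i => f (b i)) =
      (p.map (line (RingHom.id A) a b)).map (Polynomial.mapRingHom f) := by
  simp only [Polynomial.coe_mapRingHom, Polynomial.map_map]
  congr 1
  exact MvPolynomial.ringHom_ext (fun r => by simp [line]) fun i => by simp [line]

theorem tt0_map {A B C : Type} [CommRing A] [CommRing B] [CommRing C] (f : A →+* B) (g : B →+* C)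
    (p : A[X][X]) : (p.map (Polynomial.mapRingHom f)).map (Polynomial.mapRingHom g) =
      p.map (Polynomial.mapRingHom (g.comp f)) := by
  rw [Polynomial.map_map, Polynomial.mapRingHom_comp]

/-- pass to a complete ring with algebraically closed residue field, and descend -/
theorem line_irr (hZ : Z1LP) (hT : TAP) (hI : IrrExt) {O K κ σ : Type} [CommRing O] [IsDomain O]
    [IsDiscreteValuationRing O] [Field K] [CharZero K] [Algebra O K] [IsFractionRing O K] [Field κ]
    [Fintype σ] {s : ℕ} (hs : FinB κ s) {ρ : O →+* κ} (hρ : KerM ρ) {c₀ : PChart O σ}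
    {c : PChart K σ} (hc : c₀.IsMap (algebraMap O K) c) (hG : c.GI) {Θ : MP (Option σ) O}
    (hb : Bez c₀.χ Θ) {a b : Option σ → O} (hl : GoodLine Θ a b) (hb0 : ∃ i, IsUnit (b i)) :
    Irreducible ((c₀.χ.map (line (RingHom.id O) a b)).map (Polynomial.mapRingHom ρ)) ∧
      Irreducible (mq ρ c₀.χ) := by
  obtain ⟨R, _, _, _, φ, hφ, _, hm⟩ := nv_zorn O
  have : CharZero O := (algebraMap O K).charZero
  have : CharZero R := charZero_of_injective_ringHom hφ
  let ψ : O →+* AlgebraicClosure (Fr R) :=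
    (algebraMap (Fr R) _).comp ((algebraMap R (Fr R)).comp φ)
  have hψ : Function.Injective ψ := (algebraMap (Fr R) (AlgebraicClosure (Fr R))).injective.comp
    ((IsFractionRing.injective R (Fr R)).comp hφ)
  have : CharZero (AlgebraicClosure (Fr R)) := charZero_of_injective_ringHom hψ
  obtain ⟨β, hβ⟩ := exists_hom_ext (Ω := AlgebraicClosure K) (IsFractionRing.lift (K := K) hψ)
  have h1 := hI _ _ _ β _ (c.monic.map _) hG
  have e1 : (β.comp (algebraMap K _)).comp (algebraMap O K) = ψ :=
    RingHom.ext fun x => (hβ _).trans (IsFractionRing.lift_algebraMap hψ x)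
  change Irreducible (mq β (mq _ c.χ)) at h1
  rw [tt0_mq, hc.χ, tt0_mq, e1] at h1
  have h2 := hZ _ _ _ _ (c₀.monic.map _) h1 (hb.map (MvPolynomial.map ψ)) _ _ (fun e => by
    obtain ⟨i, hi⟩ := hb0
    exact (hi.map ψ).ne_zero (congrFun e i)) (hl.tmap ψ)
  have m0 := c₀.monic.map (line (RingHom.id O) a b)
  have m1 := m0.map (Polynomial.mapRingHom φ)
  have h3 := (tt0_line ψ a b c₀.χ) ▸ h2
  rw [← tt0_map, ← tt0_map] at h3
  have h4 := hT R _ _ m1 ((m1.map _).irreducible_of_irreducible_map _ _ h3)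
    ((hb.map _).map (Polynomial.mapRingHom φ)) (by
      rw [Polynomial.coe_mapRingHom, Polynomial.leadingCoeff_map_of_injective hφ]
      exact hl.lead.map φ) hl.2.1.map
  obtain ⟨β₀, hβ₀⟩ := hs.emb hρ (ρ' := (IsLocalRing.residue R).comp φ) fun x =>
    ⟨fun e hx => (hx.map _).ne_zero e, fun hx => (IsLocalRing.residue_eq_zero_iff _).2
      (hm ▸ Ideal.mem_map_of_mem φ hx)⟩
  rw [tt0_map, ← (RingHom.ext hβ₀ : β₀.comp ρ = _), ← tt0_map] at h4
  have h5 := (m0.map _).irreducible_of_irreducible_map _ _ h4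
  exact ⟨h5, (c₀.monic.map _).irreducible_of_irreducible_map _ _ ((tt0_line ρ a b c₀.χ).symm ▸ h5)⟩

end Pool.Agent.ZCy
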