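import Pool.Agent.Lib.MP_751085_ag.ZC.T.Const
import Pool.Agent.Lib.MP_751085_ag.ZC.T.Geo
import Pool.Agent.Lib.MP_751085_ag.ZC.T.T0

/-! The dichotomy for the values of a class at a good place. -/

namespace Pool.Agent.ZCy

open scoped Classical

/-- The class is constant on the points, or it separates two points of the curve. -/
theorem Var.dich (H : THyp) {k O K κ σ : Type} [Field k] [CharZero k] [CommRing O] [IsDomain O]
    [CDVR O] [Field K] [Algebra O K] [IsFractionRing O K] [Algebra k K] [Field κ] [IsAlgClosed κ]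
    [Fintype σ] {s : ℕ} {ρ : O →+* κ} (hs : FinB κ s) (hρ : LRes ρ s) (X : Var k) {n : ℕ}
    (hX : X.Nice n) (hn : 3 ≤ n) {GG : Set (Fm X.N O)} (hσ : Fintype.card σ + 1 = n)
    (hM : X.Model (K := K) GG) (hC : CHv σ GG) (c₀ : Chart O σ X.N GG) {Θ : MP (Option σ) O}
    {a b : Option σ → O} (hδ : IsUnit (c₀.δ.factorial : O)) (hΘ : ∃ r : ℕ, c₀.br ∣ Θ ^ r)
    (hl : GoodLine Θ a b) (hb : ∃ i, IsUnit (b i)) {cl : BR X.F} (hcl : cl ∈ X.Brauer) {N : ℕ}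
    (hN : IsUnit (N : O)) (h0 : N • cl = 0) :
    (∃ q₀, X.CVal K ρ s cl q₀) ∨ X.TVal K ρ s c₀ Θ a b cl := by
  obtain ⟨π, hπ⟩ := IsDiscreteValuationRing.exists_irreducible O
  obtain ⟨r, hr⟩ := hΘ
  have : CharZero K := charZero_of_injective_algebraMap (algebraMap k K).injective
  have hΦ : ¬MvPolynomial.C π ∣ c₀.Φ := fun h => by
    have h1 : MvPolynomial.C π ∣ Θ ^ r :=
      (dvd_mul_of_dvd_right (by simpa using map_dvd (MvPolynomial.rename some) h) _).trans hr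
    have h2 := map_dvd (MvPolynomial.eval a) h1
    rw [MvPolynomial.eval_C, map_pow] at h2
    exact hπ.not_isUnit (isUnit_of_dvd_unit h2 (hl.1.pow r))
  obtain ⟨A, ⟨T⟩⟩ := Var.exists_kx H hX hσ hM c₀ hπ hδ hΦ hcl hN h0
  obtain ⟨h1, h2⟩ := line_irr H.z1 H.ta H.ie hs hρ.ker A.map.p A.gi (c₀.toPChart.bez_of hr).1 hl hb
  have h : XH π ρ c₀.toPChart A.c.toPChart A.θ := ⟨hπ, hρ.ker, A.map.p, A.gi, A.ff.ff, h2⟩
  obtain ⟨v, θ₀, ρ₀, g⟩ := h.exists_genR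
  rcases g.geo H.tz H.zl hs hρ h hδ hr hl hb h1 T hN (by rw [← map_nsmul, h0, map_zero]) with
    ⟨q₀, hq⟩ | ⟨m, t, z, hm, hp, hq⟩
  · exact Or.inl ⟨q₀, A.const_val H hs hρ hX hn hσ hM hC h hcl hN h0 g.cen hq⟩
  refine Or.inr ⟨m, t, z, hm, hp, fun L _ _ _ _ _ Y he hf y ζ hy => ?_⟩
  obtain ⟨φ, hφ⟩ := hs.frob m
  obtain ⟨Γ, hΓ⟩ := exists_coefE (ι := Option σ) φ
  have key : ∀ i, ∃ (ρv : v.integer →+* FP (Option σ) κ) (q : AddCircle (1 : ℚ)),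
      (IsRed v ρv ∧ AtPt K ρ A.θ ρv (tpt ρ a b (t i)) (z i) ∧ ResAt v ρv (rs A.γ cl) Γ q) ∧
      LInv L Y.ρ (s ^ m) (X.val cl L
        fun j => algebraMap Y.R L (c₀.pv (algebraMap O Y.R) (y i) (ζ i) j)) q := fun i => by
    have e : (fun j => Y.ρ (y i j)) = tpt ρ a b (t i) := funext (hy i).2.1
    have hu : IsUnit (MvPolynomial.eval₂ (algebraMap O Y.R) (y i) c₀.br) := by
      by_contra hu
      have h3 := (Y.res.ker _).2 hu
      rw [MvPolynomial.eval₂_comp_left, show Y.ρ.comp (algebraMap O Y.R) = ρ from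
        RingHom.ext Y.cmp, show Y.ρ ∘ y i = _ from e] at h3
      have h4 := map_dvd (MvPolynomial.eval₂Hom ρ (tpt ρ a b (t i))) hr
      rw [map_pow, MvPolynomial.coe_eval₂Hom, h3, zero_dvd_iff] at h4
      exact (hp i).off (eq_zero_of_pow_eq_zero h4)
    obtain ⟨v', ρv, q, c1, c2, c3, -, c4, c5⟩ :=
      A.t1 H.tz hs hρ hπ (H.ev k X n hX hn) hcl T Y (hy i).1 hu (hf ▸ hφ) hΓ
    obtain rfl := h.eq g.cen c1
    rw [e, (hy i).2.2] at c3
    rw [he, hf, one_smul] at c5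
    exact ⟨ρv, q, ⟨c2, c3, c4⟩, c5⟩
  choose ρv q h3 h4 using key
  exact ⟨q, hq φ Γ ρv q hφ hΓ h3, h4⟩

end Pool.Agent.ZCy
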