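import Pool.Agent.Lib.MP_751085_ag.ZC.T.Fin
import Pool.Agent.Lib.MP_751085_ag.ZC.T.Dich
import Pool.Agent.Lib.MP_751085_ag.ZC.T.T0
import Pool.Agent.Lib.MP_751085_ag.ZC.T.Cheb

/-! The local conclusion at a good place. -/

namespace Pool.Agent.ZCy

open Module Pool.Agent.ZeroCyc IsLocalRing NumberField IsDedekindDomain
open scoped Classical Polynomial

/-- points of the curve over the line over all large finite fields -/
theorem tfin_pts (H : THyp) {k O K κ σ : Type} [Field k] [CharZero k] [CommRing O] [IsDomain O]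
    [CDVR O] [Field K] [CharZero K] [Algebra O K] [IsFractionRing O K] [Algebra k K] [Field κ]
    [IsAlgClosed κ] [Fintype σ] {s : ℕ} {ρ : O →+* κ} (hs : FinB κ s) (hρ : LRes ρ s) {X : Var k}
    {n : ℕ} (hX : X.Nice n) {GG : Set (Fm X.N O)} (hσ : Fintype.card σ + 1 = n)
    (hM : X.Model (K := K) GG) (c : Chart O σ X.N GG) {Θ : MP (Option σ) O} {a b : Option σ → O}
    (hΘ : ∃ r : ℕ, c.br ∣ Θ ^ r) (hl : GoodLine Θ a b) (hb : ∃ i, IsUnit (b i)) :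
    ∃ m₀ : ℕ, ∀ m, m₀ ≤ m → ∃ t z : κ, LPt ρ c.χ Θ a b (s ^ m) t z := by
  obtain ⟨r, hr⟩ := hΘ
  have hB := (c.toPChart.bez_of hr).1
  obtain ⟨c', hc'⟩ := c.exists_map (algebraMap O K) (GG' := X.IK K)
    (fun G hG => hM.2 ▸ Ideal.subset_span hG) fun Ω _ ψ x hx => Zer.map_image.1 fun G hG =>
      hx.span (hM.2 ▸ Ideal.subset_span hG)
  have hi := (line_irr H.z1 H.ta H.ie hs hρ.ker hc'.p (H.chf k X n hX K σ c' hσ).1 hB hl hb).1
  obtain ⟨m₀, hm⟩ := ffpts hs (fun x => (hρ.rng _).1 ⟨x, rfl⟩) (c.monic.map _) (hB.map _) hi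
    fun e => (hl.lead.map ρ).ne_zero (by
      rw [Polynomial.leadingCoeff, ← Polynomial.coeff_map, e, Polynomial.coeff_zero])
  refine ⟨m₀, fun m h => ?_⟩
  obtain ⟨t, z, h1, h2, h3, h4⟩ := hm m h
  refine ⟨t, z, h1, h2, ?_, by rwa [eval₂_line] at h4⟩
  rw [Polynomial.eval₂_map, show (Polynomial.eval₂RingHom ρ t).comp (line (RingHom.id O) a b) =
    MvPolynomial.eval₂Hom ρ (tpt ρ a b t) from RingHom.ext (eval₂_line ρ a b t)] at h3
  exact h3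

theorem tfin_loc (H : THyp) (h1 : N1) (h4 : WBC) (h5 : N2) (h6 : U.TOR) {k O K : Type} [Field k]
    [CharZero k] [CommRing O] [IsDomain O] [CDVR O] [Finite (ResidueField O)] [Field K] [CharZero K]
    [Algebra O K] [IsFractionRing O K] [Algebra k K] [TopologicalSpace K]
    (hK : U.IsLoc K (AlgebraicClosure K)) {X : Var k} {n : ℕ} (hX : X.Nice n) (hn : 4 ≤ n) {Λ : ℕ}
    (hΛ : Λ ≠ 0) {j : BR K →+ AddCircle (1 : ℚ)} (hj : Function.Injective j) {f : Fm X.N k}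
    {Y : Gen k X.N} (hY : Y.var.Nice (n - 1)) (hf : X.Sec Y f) (hG : X.GoodAt n Λ f O K)
    {z : X.Cyc K} (hz : Var.deg z = 1) {p : Y.var.Cyc K}
    (hp : ∃ r : ℕ, Var.deg p ∣ (Λ : ℤ) ^ r) : X.Loc Y Λ K z p := by
  obtain ⟨hU, σ, _, GG, fO, u, hσ, hM, hu, hfO, hC, c, Θ, a, b, μ, j₀, e, hδ, hΘ, hl, hb, hμ⟩ := hG
  obtain ⟨κ, _, _, s, ρ, hs, hρ⟩ := exists_finB O
  have hn3 : 3 ≤ n := by omega
  have hn' : 3 ≤ n - 1 := by omega
  have EX := H.ev k X n hX hn3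
  have EY := H.ev k Y.var _ hY hn'
  obtain ⟨B, hB, hL⟩ := tfin_curve hρ (U.charts_of Y.var _ h1 H.chf hY hn') hf hM hu hfO
    ⟨hΘ, hl.1, μ, e, hμ⟩
  obtain ⟨m₀, hm₀⟩ := tfin_pts H hs hρ hX hσ hM c hΘ hl hb
  refine U.loc_of_det h1 H.chf H.ev h4 h5 h6 hK hX hn hY hf hΛ hj hz hp
    fun l hl' hd => ⟨?_, B, hB, fun α β hm _ ⟨r, hr⟩ h0 w hw => ?_⟩
  · obtain ⟨L, _, E, e1, e2⟩ := tfin_unx (K := K) hs hρ (l * m₀).succ_pos
    obtain ⟨t, x, hP⟩ := hm₀ (l * m₀).succ (Nat.le_succ_of_le (Nat.le_mul_of_pos_left _ hl'.pos))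
    obtain ⟨y, ζ, -, g, -⟩ := hL L E t x (e2 ▸ hP)
    obtain ⟨w, hw, -⟩ := EY.exists_cyc L g
    refine ⟨w, fun h => hl'.one_lt.ne' ?_⟩
    rw [hw, ← E.deg, e1, e2, one_mul, Int.natCast_dvd_natCast] at h
    exact Nat.dvd_one.1 ((Nat.dvd_add_right (dvd_mul_right _ _)).1 h)
  have hN : IsUnit ((l ^ r : ℕ) : O) := by
    rw [Nat.cast_pow]
    exact (isUnit_of_dvd_unit (Nat.cast_dvd_cast hd) hU).pow r
  rcases X.dich H hs hρ hX hn3 hσ hM hC c hδ hΘ hl hb hm.2.1 hN hr with ⟨q, hq⟩ | hT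
  · have h := hq.pair EX hs hρ hm.2.1 hN hr w
    rw [hw, zero_smul] at h
    refine h.inj hs hρ hN ?_ (nsmul_zero (M := BR K) _) (LInv.zero hs hρ)
    have e := U.pair_nsmul H.ev h4 hX hn3 w EX.zero 0
    rw [zero_nsmul, zero_nsmul] at e
    rw [← U.pair_nsmul H.ev h4 hX hn3 w hm.2.1, hr, e]
  · obtain ⟨m, t, x, hm0, hP, hT⟩ := hT
    obtain ⟨L, _, E, e1, rfl⟩ := tfin_unx (K := K) hs hρ hm0
    choose y ζ g1 g2 g3 using fun i => hL L E (t i) (x i) (hP i)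
    have : IsScalarTower k K L := IsScalarTower.of_algebraMap_eq fun _ => rfl
    obtain ⟨q, hq, hI⟩ := hT L E e1 rfl y ζ g1
    choose w w1 w2 w3 using fun i => EY.exists_cyc L (g2 i)
    have hw : ∀ i, LInv K ρ s (Var.pair (w i) α) (q i) := fun i => by
      rw [w3 i α hm.1, hm.2.2 L _ (g2 i)]
      exact LInv.cor hs hρ E hN (EX.val_kill hm.2.1 hr L ((hf L _).1 (g2 i)).1) (hI i)
    have e := h0 (w 0 - w 1) (by
      rw [map_sub, w2, w2]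
      exact sub_mem (g3 0) (g3 1))
      ((map_sub (U.degH Y.var K) (w 0) (w 1)).trans (sub_eq_zero.2 ((w1 0).trans (w1 1).symm)))
    have e' : Var.pair (w 0) α = Var.pair (w 1) α :=
      sub_eq_zero.1 ((map_sub (U.pairH (X := Y.var) K α) (w 0) (w 1)).symm.trans e)
    have h' := hw 0
    rw [e'] at h'
    exact absurd (h'.uniq hs hρ (hw 1)) hq

theorem tMain_of (H : THyp) (h1 : N1) (h4 : WBC) (h5 : N2) (h6 : U.TOR) : TMain := by
  intro k _ _ v X n hX hn Λ hΛ j hj f Y _ hY hf hG z hz p hp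
  obtain ⟨_, _⟩ := tfin_cdvr v
  have : CharZero (v.adicCompletion k) :=
    charZero_of_injective_algebraMap (algebraMap k _).injective
  exact tfin_loc H h1 h4 h5 h6 (U.isLoc_adic v) hX hn hΛ hj hY hf hG hz hp

end Pool.Agent.ZCy
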