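import Pool.Agent.Lib.MP_751085_ag.ZC.T.Ind
import Pool.Agent.Lib.MP_751085_ag.ZC.T.Gau
import Pool.Agent.Lib.MP_751085_ag.ZC.L.Fld
import Pool.Agent.Lib.MP_751085_ag.ZC.L.Red

/-! Change of chart. -/

namespace Pool.Agent.ZCy

open scoped Classical Polynomial

variable {k O K σ : Type} [Field k] [CharZero k] [CommRing O] [IsDomain O] [Field K] [Algebra O K]
  [IsFractionRing O K] [Algebra k K] [Fintype σ] {π : O} {X : Var k} {GG : Set (Fm X.N O)}

section

variable {R ι F : Type} [CommRing R] [Field F] {N : ℕ} {HH : Set (Fm N R)}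

theorem tchg_zer (c : Chart R ι N HH) {S : Type} [CommRing S] {φ : R →+* S} {ξ : Option ι → S}
    {θ : S} (h : ev φ ξ θ c.χ = 0) : Zer HH φ (c.pv φ ξ θ) := fun G hG => by
  have h1 := map_dvd (ev φ ξ θ) (c.dv_on G hG)
  rwa [h, zero_dvd_iff, ev_sb] at h1

theorem tchg_scale (c : Chart R ι N HH) (φ : R →+* F) {u : F} (hu : u ≠ 0)
    (x : Fin (N + 1) → F) : c.xi φ (fun i => u * x i) = c.xi φ x := by
  funext i
  rw [Chart.xi, Chart.xi, fld_scale (c.hf _), fld_scale (c.hf _),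
    mul_div_mul_left _ _ (pow_ne_zero _ hu)]

theorem tchg_cen [Fintype ι] (c c' : Chart R ι N HH) {p : R} (g : MP (Option ι) R →+* F) {v : Vl F}
    (hv : Cen g v (MvPolynomial.C p)) (hD : ¬MvPolynomial.C p ∣ c'.D) {θ : F}
    (hθ : c'.χ.eval₂ g θ = 0) :
    Cen (MvPolynomial.eval₂Hom (g.comp MvPolynomial.C) (c.xi (g.comp MvPolynomial.C)
      (c'.pv (g.comp MvPolynomial.C) (fun i => g (MvPolynomial.X i)) θ))) v (MvPolynomial.C p) := by
  obtain ⟨Ω, _, ρ, hρ⟩ := exists_redL v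
  let β : MP (Option ι) R →+* v.integer := g.codRestrict _ hv.1
  have hs : v.integer.subtype.comp β = g := rfl
  have h1 : θ ∈ v.integer := (Valuation.integer.integers v).mem_of_integral
    ⟨c'.χ.map β, c'.monic.map β, by rw [Polynomial.eval₂_map]; exact hθ⟩
  let θ₁ : v.integer := ⟨θ, h1⟩
  let φ₁ : R →+* v.integer := β.comp MvPolynomial.C
  let ξ₁ : Option ι → v.integer := fun i => β (MvPolynomial.X i)
  have h2 : ev φ₁ ξ₁ θ₁ c'.χ = 0 := by
    rw [ev_def, fld_hom β]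
    refine Subtype.ext ?_
    exact (Polynomial.hom_eval₂ c'.χ β v.integer.subtype θ₁).trans hθ
  have h3 : ev (ρ.comp φ₁) (fun i => ρ (ξ₁ i)) (ρ θ₁) c'.χ = 0 := by
    rw [← map_ev, h2, map_zero]
  have h4 : ∀ Q, MvPolynomial.eval₂ (ρ.comp φ₁) (fun i => ρ (ξ₁ i)) Q = 0 ↔
      MvPolynomial.C p ∣ Q := fun Q => by
    rw [← hv.2, ← MvPolynomial.coe_eval₂Hom]
    exact (congrArg (· = 0) (RingHom.congr_fun (fld_hom (ρ.comp β)) Q)).to_iff.trans (hρ (β Q))
  have h5 : ∀ Q : MP (Option ι) R, MvPolynomial.map (ρ.comp φ₁) Q = 0 ↔ MvPolynomial.C p ∣ Q :=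
    fun Q => ⟨fun h => (h4 Q).1 (by rw [MvPolynomial.eval₂_eq_eval_map, h, map_zero]),
      fun ⟨Q', e⟩ => by
        have h6 := (h4 _).2 dvd_rfl
        rw [MvPolynomial.eval₂_C] at h6
        rw [e, map_mul, MvPolynomial.map_C, h6, map_zero, zero_mul]⟩
  obtain ⟨h6, h7, -⟩ := fld_coord c' (u := 1) h3 ((h4 _).not.2 hD) fun j => (one_mul _).symm
  obtain ⟨h8, h9⟩ := c.int_indep c' (ρ.comp φ₁) (tchg_zer c' h3) h6
    (by rw [funext h7]; exact fun Q h => (h5 Q).2 ((h4 Q).1 h))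
  have e1 : ∀ {T : Type} [Field T] (t : v.integer →+* T) (G : Fm N R),
      t (MvPolynomial.eval₂ φ₁ (c'.pv φ₁ ξ₁ θ₁) G) = MvPolynomial.eval₂ (t.comp φ₁)
        (c'.pv (t.comp φ₁) (fun i => t (ξ₁ i)) (t θ₁)) G := fun t G => by
    rw [MvPolynomial.eval₂_comp_left]
    exact congrArg (MvPolynomial.eval₂ _ · G) (funext fun j => map_ev t _ _ _ _)
  rw [← e1, hρ.ne_zero] at h8
  obtain ⟨b, hb⟩ := ((Valuation.integer.integers v).isUnit_of_one' h8).exists_right_inv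
  have e2 : ∀ {T : Type} [Field T] (t : v.integer →+* T) (Q : MP (Option ι) R),
      t (MvPolynomial.eval₂ φ₁ (fun i => MvPolynomial.eval₂ φ₁ (c'.pv φ₁ ξ₁ θ₁) (c.f (some i)) * b)
        Q) = MvPolynomial.eval₂ (t.comp φ₁) (c.xi (t.comp φ₁)
          (c'.pv (t.comp φ₁) (fun i => t (ξ₁ i)) (t θ₁))) Q := fun t Q => by
    rw [MvPolynomial.eval₂_comp_left]
    refine congrArg (MvPolynomial.eval₂ _ · Q) (funext fun i => ?_)
    rw [Function.comp_apply, Chart.xi, ← e1, ← e1, map_mul, div_eq_mul_inv,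
      ← eq_inv_of_mul_eq_one_right ((map_mul t _ _).symm.trans ((congrArg t hb).trans (map_one t)))]
  have e3 : ∀ Q, (MvPolynomial.eval₂Hom (g.comp MvPolynomial.C) (c.xi (g.comp MvPolynomial.C)
      (c'.pv (g.comp MvPolynomial.C) (fun i => g (MvPolynomial.X i)) θ))) Q =
      (MvPolynomial.eval₂ φ₁ (fun i => MvPolynomial.eval₂ φ₁ (c'.pv φ₁ ξ₁ θ₁) (c.f (some i)) * b)
        Q : v.integer) := fun Q => (e2 v.integer.subtype Q).symm
  refine ⟨fun Q => ?_, fun Q => ?_⟩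
  · rw [e3]
    exact (v.mem_integer_iff _).1 (Subtype.property _)
  · rw [e3, ← hρ, e2, ← h5]
    exact ⟨h9 Q, fun h => by rw [MvPolynomial.eval₂_eq_eval_map, h, map_zero]⟩

end

/-- comparison of the function fields of two charts -/
theorem Var.KX.cmp [IsDiscreteValuationRing O] (hπ : Irreducible π) {c₀ c₀' : Chart O σ X.N GG}
    (A : X.KX K c₀) (A' : X.KX K c₀') (hD : ¬MvPolynomial.C π ∣ c₀'.D) {v' : Vl A'.F}
    (hv' : Cen1 (gO O K (Option σ) A'.F) v' (MvPolynomial.C π)) :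
    ∃ j : A.F →+* A'.F, j.comp A.γ = A'.γ ∧
      (∀ a : O, j (gO O K (Option σ) A.F (MvPolynomial.C a)) =
        gO O K (Option σ) A'.F (MvPolynomial.C a)) ∧
      Cen1 (gO O K (Option σ) A.F) (v'.comap j) (MvPolynomial.C π) := by
  obtain ⟨h0, h1, -⟩ := A'.ff.coord
  have hz := A'.ff.zer
  obtain ⟨u', hu', hx'⟩ := A'.ff.dom.2
  have hr := A'.ff.ff.1
  have ha := A'.ff.alg
  have e0 := fld_hom (toE (MP (Option σ) K) A'.F)
  have hin := toE_inj (A := MP (Option σ) K) A'.F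
  have he : gO O K (Option σ) A'.F =
      (toE (MP (Option σ) K) A'.F).comp (MvPolynomial.map (algebraMap O K)) := rfl
  generalize toE (MP (Option σ) K) A'.F = e at *
  rw [he] at hv' ⊢
  obtain ⟨h2, h3⟩ := A.c.int_indep A'.c _ hz h0 (by
    rw [funext h1]
    intro Q h
    rw [← MvPolynomial.coe_eval₂Hom, e0, map_eq_zero_iff _ hin] at h
    rw [h, map_zero])
  have hi : Function.Injective (MvPolynomial.eval₂Hom (e.comp MvPolynomial.C)
      (A.c.xi (e.comp MvPolynomial.C) fun i => A'.γ (X.g i))) :=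
    (injective_iff_map_eq_zero _).2 fun Q h => (map_eq_zero_iff _
      (MvPolynomial.map_injective _ (e.comp MvPolynomial.C).injective)).1 (h3 Q h)
  obtain ⟨h4, h5⟩ := A.c.fro _ _ _ (A.c.xi _ _) (A.c.tht _ _) hz h2
    (fun i => (div_mul_cancel₀ _ h2).symm) (div_mul_cancel₀ _ h2).symm
  obtain ⟨u, hu⟩ := h5 ((map_ne_zero_iff _ hi).2 A.c.D_ne)
  obtain ⟨j, hj, hθ⟩ := A.ff.ff.lift A.gi hi h4
  obtain ⟨u₀, hu₀, hx⟩ := A.ff.dom.2
  have h6 : ∀ i, j u₀ * j (A.γ (X.g i)) = u * A'.γ (X.g i) := fun i => by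
    rw [← map_mul, ← hx, ← hu, Chart.pv, map_ev, hθ]
    congr 2
    · exact RingHom.ext fun a => (hj _).trans (MvPolynomial.eval₂_C _ _ _)
    · exact funext fun l => (hj _).trans (MvPolynomial.eval₂_X _ _ _)
  have h7 : j u₀ = u := by
    obtain ⟨i, hi⟩ := X.one
    simpa [hi] using h6 i
  have h8 : ∀ a : O, j (gO O K (Option σ) A.F (MvPolynomial.C a)) =
      (e.comp (MvPolynomial.map (algebraMap O K))) (MvPolynomial.C a) := fun a => by
    refine (hj _).trans ?_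
    simp
  have h9 := tchg_cen c₀ c₀' _ hv'.1 hD (θ := A'.θ) (by
    rw [← Polynomial.eval₂_map]
    rw [A'.map.p.χ] at hr
    exact hr)
  refine ⟨j, ?_, h8, ?_, (congrArg v' (h8 π)).trans hv'.2⟩
  · refine RingHom.eq_of_eqOn_of_field_closure_eq_top
      (congrArg IntermediateField.toSubfield X.gen) ?_
    rintro _ (⟨a, rfl⟩ | ⟨i, rfl⟩)
    · change j (A.γ _) = _
      rw [A.ff.dom.1, A.ff.alg, hj, A'.ff.dom.1, ha]
      exact MvPolynomial.eval₂_C _ _ _
    · exact mul_left_cancel₀ ((map_ne_zero j).2 hu₀) ((h6 i).trans (by rw [h7]))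
  · have e1 : (e.comp (MvPolynomial.map (algebraMap O K))).comp
        (MvPolynomial.C : O →+* MP (Option σ) O) =
        (e.comp MvPolynomial.C).comp (algebraMap O K) := RingHom.ext fun a => by simp
    have e2 : (fun i => (e.comp (MvPolynomial.map (algebraMap O K)))
        (MvPolynomial.X i : MP (Option σ) O)) = fun i => e (MvPolynomial.X i) :=
      funext fun i => by simp
    rw [e1, e2, ← A'.map.pv, funext hx', tchg_scale _ _ hu', ← A.map.xi] at h9
    have e3 : MvPolynomial.eval₂Hom ((e.comp MvPolynomial.C).comp (algebraMap O K))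
        (A.c.xi (e.comp MvPolynomial.C) fun i => A'.γ (X.g i)) = j.comp (gO O K (Option σ) A.F) :=
      RingHom.ext fun Q => ((hj _).trans (MvPolynomial.eval₂_map _ _ _ _)).symm
    rw [e3] at h9
    exact h9

end Pool.Agent.ZCy
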