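import Pool.Agent.Lib.MP_751085_ag.ZC.G2
import Pool.Agent.Lib.MP_751085_ag.ZC.G3

/-! A cocycle in roots of unity becomes inflated after division by powers of a root. -/

namespace Pool.Agent.ZCy

open scoped Classical
open groupCohomology

variable {G A : Type} [Group G] [CommGroup A] [MulDistribMulAction G A] {D I : Subgroup G}
  {c : G × G → A} {m e : ℕ} {ϖ ζ : A}

omit [MulDistribMulAction G A] in
theorem trf0_mem {p q : A} (hp : p ∈ Subgroup.zpowers ζ) (hq : q ∈ Subgroup.zpowers ζ)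
    (h0 : 0 < orderOf p) (h : q ^ orderOf p = 1) : q ∈ Subgroup.zpowers p := by
  obtain ⟨r, hr⟩ := (Subgroup.isCyclic_iff_exists_zpowers_eq_top _).1 (Subgroup.isCyclic_of_le
    (sup_le (Subgroup.zpowers_le.2 hp) (Subgroup.zpowers_le.2 hq)))
  have hk : Subgroup.zpowers p ⊔ Subgroup.zpowers q ≤ (powMonoidHom (orderOf p)).ker :=
    sup_le (Subgroup.zpowers_le.2 (pow_orderOf_eq_one p)) (Subgroup.zpowers_le.2 h)
  have hr1 : r ^ orderOf p = 1 := hk (hr ▸ Subgroup.mem_zpowers r)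
  have : Finite (Subgroup.zpowers r) :=
    finite_zpowers.2 (isOfFinOrder_iff_pow_eq_one.2 ⟨_, h0, hr1⟩)
  rw [Subgroup.eq_of_le_of_card_ge (H := Subgroup.zpowers p) (K := Subgroup.zpowers r)
    (hr ▸ le_sup_left) (by
      rw [Nat.card_zpowers, Nat.card_zpowers]; exact orderOf_le_of_pow_eq_one h0 hr1), hr]
  exact Subgroup.mem_sup_right (Subgroup.mem_zpowers q)

theorem trf0_fix (hμ : ∀ a : A, a ^ (m * e) = 1 → a ∈ Subgroup.zpowers ζ)
    (hfix : ∀ i ∈ I, i • ζ = ζ) {i : G} (hi : i ∈ I) {a : A} (ha : a ^ (m * e) = 1) :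
    i • a = a := by
  obtain ⟨k, rfl⟩ := hμ a ha
  change i • ζ ^ k = ζ ^ k
  rw [smul_zpow', hfix i hi]

theorem trf0_gen (hϖ : ∀ g : G, g • ϖ ^ e = ϖ ^ e)
    (hμ : ∀ a : A, a ^ (m * e) = 1 → a ∈ Subgroup.zpowers ζ) (hfix : ∀ i ∈ I, i • ζ = ζ)
    (hf : ∀ i ∈ I, i • ϖ = ϖ → i = 1) :
    ∃ s, Subgroup.zpowers s = I ∧ orderOf s ∣ e ∧ orderOf (s • ϖ / ϖ) = orderOf s ∧
      s • ϖ / ϖ ∈ Subgroup.zpowers ζ ∧ ∀ j : ℤ, s ^ j • ϖ / ϖ = (s • ϖ / ϖ) ^ j := by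
  have h1 : ∀ g : G, (g • ϖ / ϖ) ^ e = 1 := fun g => by rw [div_pow, ← smul_pow', hϖ, div_self']
  have h2 : ∀ g : G, (g • ϖ / ϖ) ^ (m * e) = 1 := fun g => by rw [pow_mul', h1, one_pow]
  let θ : I →* A := MonoidHom.mk' (fun i => i.1 • ϖ / ϖ) fun i j => by
    have := trf0_fix hμ hfix i.2 (h2 j)
    rw [smul_div', div_eq_iff_eq_mul] at this
    rw [Subgroup.coe_mul, mul_smul, this, mul_div_assoc, mul_comm]
  have hθ : Function.Injective θ := (injective_iff_map_eq_one θ).2 fun i hi =>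
    Subtype.ext (hf i i.2 (div_eq_one.1 hi))
  have : IsCyclic I := isCyclic_of_injective (θ.codRestrict (Subgroup.zpowers ζ) fun i =>
    hμ _ (h2 _)) fun _ _ h => hθ (congrArg Subtype.val h)
  obtain ⟨s, rfl⟩ := (Subgroup.isCyclic_iff_exists_zpowers_eq_top _).1 this
  have h3 : orderOf (s • ϖ / ϖ) = orderOf s :=
    (orderOf_injective θ hθ ⟨s, Subgroup.mem_zpowers s⟩).trans (Subgroup.orderOf_mk _ _)
  exact ⟨s, rfl, h3 ▸ orderOf_dvd_of_pow_eq_one (h1 s), h3, hμ _ (h2 s),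
    fun j => map_zpow θ ⟨s, Subgroup.mem_zpowers s⟩ j⟩

theorem trf0_res (hN : I ≤ D) (hn : ∀ g ∈ D, ∀ i ∈ I, g * i * g⁻¹ ∈ I) (hc : CocOn D c)
    (h : ∀ i ∈ I, ∀ j ∈ I, c (i, j) = 1) {a : G → A} (a1 : ∀ g ∈ I, a g = 1)
    (a2 : ∀ g ∈ D, ∀ i ∈ I, conjE c g i = i • a g / a g) :
    ∃ t : G → G, Infl D I (c * dd fun g => a (t g) * c (t g, (t g)⁻¹ * g)) := by
  have cj : ∀ g ∈ D, ∀ i ∈ I, g⁻¹ * i * g ∈ I := fun g hg i hi => by
    simpa only [inv_inv] using hn _ (inv_mem hg) i hi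
  obtain ⟨t, t1, t2⟩ : ∃ t : G → G, (∀ g, (t g)⁻¹ * g ∈ I) ∧ ∀ g, ∀ i ∈ I, t (g * i) = t g :=
    ⟨fun g => (g : G ⧸ I).out, fun g => QuotientGroup.eq.1 (Quotient.out_eq _),
      fun g i hi => congrArg Quotient.out (QuotientGroup.mk_mul_of_mem g hi)⟩
  have t3 : ∀ {H : Subgroup G}, I ≤ H → ∀ g ∈ H, t g ∈ H := fun hH g hg => by
    simpa using mul_mem hg (inv_mem (hH (t1 g)))
  refine ⟨t, ?_⟩
  obtain ⟨e, he⟩ : ∃ e : G → A, ∀ g, e g = a (t g) * c (t g, (t g)⁻¹ * g) := ⟨_, fun _ => rfl⟩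
  rw [← funext he]
  have e1 : ∀ i ∈ I, e i = 1 := fun i hi => by
    rw [he, a1 _ (t3 le_rfl i hi), h _ (t3 le_rfl i hi) _ (t1 i), one_mul]
  refine infl_of_one hN hn (hc.mul (.of_coc (dd_coc e) D)) (fun g hg i hi => ?_)
    fun g hg i hi => ?_
  · have k := hc _ (t3 hN g hg) _ (hN (t1 g)) i (hN hi)
    rw [h _ (t1 g) i hi, smul_one, one_mul, mul_inv_cancel_left, mul_assoc] at k
    rw [Pi.mul_apply, dd_apply, e1 i hi, smul_one, he, he, t2 g i hi, ← k]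
    apply Additive.ofMul.injective
    simp only [ofMul_mul, ofMul_div, ofMul_one]
    abel
  · have tD := t3 hN g hg
    have k1 := hc i (hN hi) _ tD _ (hN (t1 g))
    have k2 := hc _ tD _ (hN (cj _ tD i hi)) _ (hN (t1 g))
    have k3 := a2 _ tD i hi
    have k4 : t (i * g) = t g := by
      rw [show i * g = g * (g⁻¹ * i * g) by group, t2 g _ (cj g hg i hi)]
    rw [mul_inv_cancel_left, ← div_eq_iff_eq_mul] at k1
    rw [h _ (cj _ tD i hi) _ (t1 g), smul_one, one_mul,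
      show t g * ((t g)⁻¹ * i * t g) = i * t g by group,
      show (t g)⁻¹ * i * t g * ((t g)⁻¹ * g) = (t g)⁻¹ * (i * g) by group] at k2
    rw [conjE, eq_comm, div_eq_iff_eq_mul] at k3
    rw [Pi.mul_apply, dd_apply, e1 i hi, he, he, k4, smul_mul', ← k1, ← k2, k3]
    apply Additive.ofMul.injective
    simp only [ofMul_mul, ofMul_div, ofMul_one]
    abel

/-- the cocycle splits on `I` in roots of unity -/
theorem rf0_split (hc : IsMulCocycle₂ c) (hm : ∀ p, c p ^ m = 1) (h0 : 0 < m * e)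
    (hϖ : ∀ g : G, g • ϖ ^ e = ϖ ^ e) (hζ : IsPrimitiveRoot ζ (m * e))
    (hμ : ∀ a : A, a ^ (m * e) = 1 → a ∈ Subgroup.zpowers ζ) (hfix : ∀ i ∈ I, i • ζ = ζ)
    (hf : ∀ i ∈ I, i • ϖ = ϖ → i = 1) :
    ∃ u : G → A, (∀ g, u g ^ (m * e) = 1) ∧ ∀ g ∈ I, ∀ h ∈ I, c (g, h) = dd u (g, h) := by
  obtain ⟨s, rfl, ⟨e', he'⟩, -⟩ := trf0_gen hϖ hμ hfix hf
  have hs : IsOfFinOrder s := orderOf_pos_iff.1 (Nat.pos_of_mul_pos_right
    (he' ▸ Nat.pos_of_mul_pos_left h0))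
  have hc := CocOn.of_coc hc (Subgroup.zpowers s)
  have hn : ∀ p, c p ^ (m * e) = 1 := fun p => by rw [pow_mul, hm, one_pow]
  obtain ⟨η, h1, h2⟩ : ∃ η : A, η ^ (m * e) = 1 ∧
      η ^ orderOf s = ∏ j ∈ Finset.range (orderOf s), c (s ^ j, s) := by
    generalize hf : ∏ j ∈ Finset.range (orderOf s), c (s ^ j, s) = f
    have h3 : f ^ m = 1 := by rw [← hf, ← Finset.prod_pow, Finset.prod_eq_one fun _ _ => hm _]
    obtain ⟨a, rfl⟩ := hμ f (by rw [pow_mul, h3, one_pow])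
    rw [← zpow_natCast, ← zpow_mul, hζ.zpow_eq_one_iff_dvd, Nat.cast_mul, mul_comm a] at h3
    obtain ⟨b, rfl⟩ := Int.dvd_of_mul_dvd_mul_left
      (Nat.cast_ne_zero.2 (Nat.pos_of_mul_pos_right h0).ne') h3
    refine ⟨ζ ^ ((e' : ℤ) * b), ?_, ?_⟩
    · rw [← zpow_natCast, ← zpow_mul, mul_comm, zpow_mul, hζ.zpow_eq_one, one_zpow]
    · rw [← zpow_natCast, ← zpow_mul, he', Nat.cast_mul]
      congr 1
      ring
  let u : ℕ → A := fun i => (c (1, 1))⁻¹ * ∏ j ∈ Finset.range i, (c (s ^ j, s) / η)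
  have k0 : ∀ b, u (b + 1) = u b * (c (s ^ b, s) / η) := fun b => by
    simp only [u, Finset.prod_range_succ, mul_assoc]
  have kz : u 0 = (c (1, 1))⁻¹ := by simp [u]
  have k1 : ∀ a, u (orderOf s + a) = 1 * u a := fun a => by
    simp only [u, Finset.prod_range_add, pow_add, pow_orderOf_eq_one, one_mul]
    rw [Finset.prod_div_distrib, Finset.prod_const, Finset.card_range, h2, div_self', one_mul]
  have k2 : ∀ a b, u a * s ^ a • u b * c (s ^ a, s ^ b) = u (a + b) := fun a b => by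
    have ma := Subgroup.npow_mem_zpowers s a
    induction b with
    | zero => rw [kz, pow_zero, hc.one_right ma, smul_inv', add_zero, inv_mul_cancel_right]
    | succ b ih =>
      have e := hc _ ma _ (Subgroup.npow_mem_zpowers s b) _ (Subgroup.mem_zpowers s)
      rw [← div_eq_iff_eq_mul] at e
      rw [← add_assoc, k0, k0, ← ih, smul_mul', smul_div', trf0_fix hμ hfix ma h1, pow_succ,
        pow_add, ← e]
      apply Additive.ofMul.injective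
      simp only [ofMul_mul, ofMul_div]
      abel
  refine ⟨(fun x => u (xp s x))⁻¹, fun g => ?_, fun g hg h hh => ?_⟩
  · rw [Pi.inv_apply, inv_pow, mul_pow, inv_pow, hn, ← Finset.prod_pow,
      Finset.prod_eq_one fun _ _ => by rw [div_pow, hn, h1, div_one], inv_one, mul_one, inv_one]
  · have := g3_dd hs k1 k2 hg hh
    rw [cyc, one_pow] at this
    rw [dd_inv, Pi.inv_apply]
    exact eq_inv_of_mul_eq_one_right this.symm

/-- a homomorphism from `I` to the roots of unity is a power of `θ` -/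
theorem rf0_hom (h0 : 0 < m * e) (hϖ : ∀ g : G, g • ϖ ^ e = ϖ ^ e) (hζ : IsPrimitiveRoot ζ (m * e))
    (hμ : ∀ a : A, a ^ (m * e) = 1 → a ∈ Subgroup.zpowers ζ) (hfix : ∀ i ∈ I, i • ζ = ζ)
    (hf : ∀ i ∈ I, i • ϖ = ϖ → i = 1) {x : G → A} (hx : ∀ i ∈ I, x i ^ (m * e) = 1)
    (hm : ∀ i ∈ I, ∀ i' ∈ I, x (i * i') = x i * x i') :
    ∃ k : ℤ, ∀ i ∈ I, x i = i • ϖ ^ k / ϖ ^ k := by
  obtain ⟨s, rfl, ⟨e', he'⟩, h1, h2, h3⟩ := trf0_gen hϖ hμ hfix hf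
  have hs : 0 < orderOf s := Nat.pos_of_mul_pos_right (he' ▸ Nat.pos_of_mul_pos_left h0)
  let χ : Subgroup.zpowers s →* A := MonoidHom.mk' (fun i => x i) fun i j => hm _ i.2 _ j.2
  obtain ⟨k, hk⟩ := trf0_mem h2 (hμ _ (hx s (Subgroup.mem_zpowers s))) (h1 ▸ hs) (by
    rw [h1, ← Subgroup.orderOf_mk s (Subgroup.mem_zpowers s)]
    exact (map_pow χ ⟨s, Subgroup.mem_zpowers s⟩ _).symm.trans
      (by rw [pow_orderOf_eq_one, map_one]))
  refine ⟨k, ?_⟩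
  rintro _ ⟨j, rfl⟩
  rw [smul_zpow', ← div_zpow, h3, ← zpow_mul, mul_comm, zpow_mul]
  exact (map_zpow χ ⟨s, Subgroup.mem_zpowers s⟩ j).trans (congrArg (· ^ j) hk.symm)

/-- split on `I`, then correct by powers of `ϖ` -/
theorem rform0 (hI : I ≤ D) (hn : ∀ g ∈ D, ∀ i ∈ I, g * i * g⁻¹ ∈ I) (hc : IsMulCocycle₂ c)
    (hm : ∀ p, c p ^ m = 1) (h0 : 0 < m * e) (hϖ : ∀ g : G, g • ϖ ^ e = ϖ ^ e)
    (hζ : IsPrimitiveRoot ζ (m * e)) (hμ : ∀ a : A, a ^ (m * e) = 1 → a ∈ Subgroup.zpowers ζ)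
    (hfix : ∀ i ∈ I, i • ζ = ζ) (hf : ∀ i ∈ I, i • ϖ = ϖ → i = 1) :
    ∃ (u : G → A) (k : G → ℤ), (∀ g, u g ^ (m * e) = 1) ∧
      Infl D I (c * dd fun g => u g * ϖ ^ k g) := by
  obtain ⟨u, hu, he⟩ := rf0_split hc hm h0 hϖ hζ hμ hfix hf
  have cj : ∀ g ∈ D, ∀ i ∈ I, g⁻¹ * i * g ∈ I := fun g hg i hi => by
    simpa only [inv_inv] using hn _ (inv_mem hg) i hi
  have h1 : CocOn D (c / dd u) := .of_coc (coc_div hc (dd_coc u)) D
  have h2 : ∀ i ∈ I, ∀ j ∈ I, (c / dd u) (i, j) = 1 := fun i hi j hj => by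
    rw [Pi.div_apply, he i hi j hj, div_self']
  have h3 : ∀ p, (c / dd u) p ^ (m * e) = 1 := fun p => by
    rw [Pi.div_apply, div_pow, pow_mul (c p), hm, one_pow, ← Pi.pow_apply, ← dd_pow,
      show u ^ (m * e) = 1 from funext hu, dd_one, Pi.one_apply, div_one]
  have e0 : c = c / dd u * dd u := (div_mul_cancel _ _).symm
  generalize c / dd u = c₁ at h1 h2 h3 e0
  have h4 : ∀ g i, conjE c₁ g i ^ (m * e) = 1 := fun g i => by
    rw [conjE, div_pow, h3, h3, div_one]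
  have ex : ∀ g, ∃ k : ℤ, (g ∈ I → ϖ ^ k = 1) ∧
      (g ∈ D → ∀ i ∈ I, conjE c₁ g i = i • ϖ ^ k / ϖ ^ k) := fun g => by
    by_cases hg : g ∈ I
    · exact ⟨0, fun _ => zpow_zero _, fun hg' i hi => by
        rw [conjE, h2 g hg _ (cj g hg' i hi), h2 i hi g hg, zpow_zero, smul_one]⟩
    by_cases hg' : g ∈ D
    · obtain ⟨k, hk⟩ := rf0_hom h0 hϖ hζ hμ hfix hf (x := conjE c₁ g) (fun i _ => h4 g i)
        fun i hi j hj => by
          have := h1.conj hg' (hI hi) (hI hj)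
          rw [h2 _ (cj g hg' i hi) _ (cj g hg' j hj), h2 i hi j hj, smul_one, one_mul, dd_apply,
            div_mul_eq_mul_div, eq_comm, div_eq_one, trf0_fix hμ hfix hi (h4 g j), mul_comm] at this
          exact this.symm
      exact ⟨k, fun h => absurd h hg, fun _ => hk⟩
    · exact ⟨0, fun _ => zpow_zero _, fun h => absurd h hg'⟩
  choose k k1 k2 using ex
  obtain ⟨t, ht⟩ := trf0_res hI hn h1 h2 k1 k2
  refine ⟨fun g => c₁ (t g, (t g)⁻¹ * g) / u g, fun g => k (t g),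
    fun g => by rw [div_pow, h3, hu, div_one], ?_⟩
  have e1 : (u * fun g => c₁ (t g, (t g)⁻¹ * g) / u g * ϖ ^ k (t g)) =
      fun g => ϖ ^ k (t g) * c₁ (t g, (t g)⁻¹ * g) :=
    funext fun g => by rw [Pi.mul_apply, ← mul_assoc, mul_div_cancel, mul_comm]
  rw [e0, mul_assoc, ← dd_mul, e1]
  exact ht

end Pool.Agent.ZCy
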