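import Pool.Agent.Lib.MP_751085_ag.ZC.T.Need
import Pool.Agent.Lib.MP_751085_ag.ZC.T.Gau
import Pool.Agent.Lib.MP_751085_ag.ZC.T.Cf
import Pool.Agent.Lib.MP_751085_ag.ZC.T.Rf0
import Pool.Agent.Lib.MP_751085_ag.ZC.A2
import Pool.Agent.Lib.MP_751085_ag.ZC.L.Fld
import Pool.Agent.Lib.MP_751085_ag.ZC.L.Red
import Pool.Agent.Lib.MP_751085_ag.ZC.V.Ord

/-! Tame representations and their residue data. -/

namespace Pool.Agent.ZCy

open scoped Classical WithZero Polynomial
open groupCohomology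

variable {O K : Type} [CommRing O] [IsDomain O] [IsDiscreteValuationRing O] [Field K] [CharZero K]
  [Algebra O K] [IsFractionRing O K] {π : O}

omit [CharZero K] in
theorem trf1_over {ι E : Type} [Field E] [Algebra (RF ι K) E] (hπ : Irreducible π)
    {v : Vl (RF ι K)} (hv : Cen (gO O K ι (RF ι K)) v (MvPolynomial.C π)) {w : Vl E} :
    Cen (gO O K ι E) w (MvPolynomial.C π) ↔ Over (algebraMap (RF ι K) E) v w :=
  gau_over (frc_gO O K ι) (mp_prime hπ).1 (mp_prime hπ).2 hv

theorem trf1_fix {L E : Type} [Field L] [Field E] [Algebra L E] {w : Vl E} {g : E ≃ₐ[L] E}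
    (hg : g ∈ Ine L w) {M : ℕ} (hM : w (M : E) = 1) {η : E} (h : η ^ M = 1) : g η = η := by
  have h0 : M ≠ 0 := by
    rintro rfl
    simp at hM
  obtain ⟨Ω, _, ρ, hρ⟩ := exists_redL w
  have h' : g η ^ M = 1 := by rw [← map_pow, h, map_one]
  exact congrArg Subtype.val (hρ.root_inj hM (y := ⟨g η, (root_val h0 h').le⟩)
    (y' := ⟨η, (root_val h0 h).le⟩) h' h
    (by rw [← sub_eq_zero, ← map_sub]; exact (hρ _).2 (hg.2 η (root_val h0 h).le)))

theorem trf1_tame {L E : Type} [Field L] [Field E] [Algebra L E] [FiniteDimensional L E] {w : Vl E}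
    {e : ℕ} (he : w (e : E) = 1) (hn : ∀ n : ℕ, w (n : E) ≤ 1) {ϖ : E} (h0 : ϖ ≠ 0) {p : L}
    (hp : ϖ ^ e = algebraMap L E p) (hf : ∀ g ∈ Ine L w, g ϖ = ϖ → g = 1) : Tame L w := by
  have h1 : ∀ g : E ≃ₐ[L] E, (g ϖ / ϖ) ^ e = 1 := fun g => by
    rw [div_pow, ← map_pow, hp, g.commutes, div_self (hp ▸ pow_ne_zero e h0)]
  let f : Ine L w →* E :=
    { toFun := fun g => g.1 ϖ / ϖ
      map_one' := div_self h0
      map_mul' := fun g h => by
        have := trf1_fix g.2 he (h1 h)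
        rw [map_div₀, div_eq_iff ((map_ne_zero _).2 h0)] at this
        change g.1 (h.1 ϖ) / ϖ = _
        rw [this, mul_div_assoc, mul_comm] }
  have hi : Function.Injective f := (injective_iff_map_eq_one f).2 fun g u =>
    Subtype.ext (hf g g.2 ((div_eq_one_iff_eq h0).1 u))
  have := isCyclic_of_injective_ringHom f hi
  obtain ⟨d, hd⟩ : Nat.card (Ine L w) ∣ e := IsCyclic.exponent_eq_card (α := Ine L w) ▸
    Monoid.exponent_dvd_of_forall_pow_eq_one fun g => hi (by rw [map_pow, map_one]; exact h1 g)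
  rw [hd, Nat.cast_mul, map_mul] at he
  exact (hn _).antisymm (he.symm.trans_le (mul_le_of_le_one_right' (hn d)))

theorem trf1_unit {A E : Type} [CommRing A] [Field E] {φ : A →+* E} {w : Vl E} {P : A}
    (hP : Prime P) (h : Cen φ w P) {a : A} (ha : IsUnit a) : w (φ a) = 1 :=
  h.red_one fun u => hP.not_isUnit (isUnit_of_dvd_unit u ha)

theorem trf1_nat {ι E : Type} [Field E] {φ : MP ι O →+* E} {w : Vl E} (hπ : Irreducible π)
    (h : Cen φ w (MvPolynomial.C π)) {n : ℕ} : w (n : E) = 1 ↔ IsUnit (n : O) := by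
  rw [← map_natCast φ, ← map_natCast (MvPolynomial.C : O →+* MP ι O)]
  refine ⟨fun u => by_contra fun h' => ((h.2 _).2 (map_dvd _ ((kerM_residue.dvd hπ _).1
    ((kerM_residue _).2 h')))).ne u, fun u => trf1_unit (mp_prime hπ).1 h (u.map _)⟩

/-- enlargement to a tame representation -/
theorem exists_tRep {ι F : Type} [Field F] [Algebra (RF ι K) F] {Θ : MP ι K} {a : BR F}
    (hπ : Irreducible π) (R : MuRep Θ F a) (hm : IsUnit (R.m : O))
    (ht : ∀ w : Vl R.E, Cen (gO O K ι R.E) w (MvPolynomial.C π) → Tame (RF ι K) w) :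
    Nonempty (TRep π Θ F a) := by
  obtain ⟨v, hv, hv1⟩ := gau_exists (frc_gO O K ι) (mp_prime hπ).1 (mp_prime hπ).2
  obtain ⟨e, E, _, _, _, _, _, _, ϖ, ζ, h1, h2, h3, h4, h5⟩ := nv_abh (E := R.E) hv1
    (fun w hw => ht w ((trf1_over hπ hv).2 hw)) ((trf1_nat hπ hv).2 hm)
  have he := (trf1_nat hπ hv).1 h1
  have hu : IsUnit ((R.m * e : ℕ) : O) := Nat.cast_mul (α := O) _ _ ▸ hm.mul he
  have h0 : R.m * e ≠ 0 := fun u => hu.ne_zero (by rw [u, Nat.cast_zero])
  have hϖ : ϖ ≠ 0 := fun u => WithZero.exp_ne_zero (hv1.symm.trans ((map_eq_zero v).2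
    ((map_eq_zero (algebraMap _ E)).1 (by rw [← h2, u, zero_pow (right_ne_zero_of_mul h0)]))))
  let : Algebra F E := ((algebraMap R.E E).comp (algebraMap F R.E)).toAlgebra
  have : IsScalarTower (RF ι K) F E := IsScalarTower.of_algebraMap_eq fun x =>
    (IsScalarTower.algebraMap_apply _ R.E E x).trans
      (congrArg _ (IsScalarTower.algebraMap_apply _ F R.E x))
  have : CharZero F := charZero_of_injective_algebraMap (algebraMap (RF ι K) F).injective
  have : FiniteDimensional F R.E := Module.Finite.of_restrictScalars_finite (RF ι K) _ _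
  have : IsGalois F R.E := IsGalois.tower_top_of_isGalois (RF ι K) _ _
  have : FiniteDimensional F E := Module.Finite.of_restrictScalars_finite (RF ι K) _ _
  have : IsGalois F E := IsGalois.tower_top_of_isGalois (RF ι K) _ _
  obtain ⟨r, hr⟩ := exists_pull (G := R.E ≃ₐ[F] R.E) (G' := E ≃ₐ[F] E) (γ := RingHom.id F)
    (j := algebraMap R.E E) fun _ => rfl
  obtain ⟨r₀, hr₀⟩ := exists_lk_of (γ := RingHom.id (RF ι K)) (j := algebraMap R.E E)
    fun x => (IsScalarTower.algebraMap_apply _ R.E E x).symm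
  refine ⟨{ E := E, m := R.m, c := pull (algebraMap R.E E) r R.c, pos := R.pos, unr := ?_
            coc := pull_coc hr R.coc, pow := fun p => ?_, cls_eq := ?_, e := e
            ϖ := Units.mk0 ϖ hϖ, ζ := (h3.isUnit h0).unit, root := h2
            prim := IsPrimitiveRoot.coe_units_iff.1 h3, unit := hu, tame := fun w hw => ?_
            faith := fun w hw => h4 w ((trf1_over hπ hv).1 hw) }⟩
  · refine fun P w hP hn hc => (Subgroup.eq_bot_iff_forall _).2 fun g hg => h5 w ?_ ?_ g hg fun x => ?_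
    · refine Eq.trans (congrArg w ?_) (trf1_unit hP hc (((map_ne_zero_iff _
        (IsFractionRing.injective O K)).2 hπ.ne_zero).isUnit.map MvPolynomial.C))
      rw [← MvPolynomial.map_C]
      rfl
    · rw [← map_natCast (toE (MP ι K) E), ← map_natCast (MvPolynomial.C : K →+* MP ι K)]
      exact trf1_unit hP hc ((Nat.cast_ne_zero.2 h0).isUnit.map _)
    · have e1 : (algebraMap R.E E).comp (toE (MP ι K) R.E) = toE (MP ι K) E :=
        RingHom.ext fun p => (IsScalarTower.algebraMap_apply _ R.E E _).symm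
      have := (nv_up (IsScalarTower.toAlgHom (RF ι K) R.E E) hr₀.comm
        (Over.comap (algebraMap R.E E) w)).2 g hg
      rw [R.unr P _ hP hn (e1 ▸ hc : Cen ((algebraMap R.E E).comp _) w P), Subgroup.mem_bot] at this
      rw [← hr₀.comm, this]
      rfl
  · rw [pull, ← map_pow, R.pow, map_one]
  · have := rs_cls (RingHom.id F) (j := algebraMap R.E E) (fun _ => rfl) hr R.coc
    rw [rs, res_id] at this
    exact this.symm.trans R.cls_eq
  · exact trf1_tame ((trf1_nat hπ hw).2 he) (fun n => map_natCast (gO O K ι E) n ▸ hw.1 n) hϖ h2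
      (h4 w ((trf1_over hπ hv).1 hw))

theorem trf1_int {A E : Type} [CommRing A] [Field E] {φ : A →+* E} {w : Vl E} {χ : A[X]}
    (hm : χ.Monic) (hw : ∀ a, w (φ a) ≤ 1) {x : E} (hx : χ.eval₂ φ x = 0) : w x ≤ 1 :=
  (Valuation.integer.integers w).mem_of_integral
    ⟨χ.map (φ.codRestrict w.integer hw), hm.map _, (Polynomial.eval₂_map _ _ _).trans hx⟩

/-- two roots of `χ` that are congruent modulo `w` are equal if `Θ` is a unit -/
theorem root_eq_of_bez {A E : Type} [CommRing A] [Field E] {φ : A →+* E} {w : Vl E} {χ : A[X]}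
    {Θ : A} (hm : χ.Monic) (hb : Bez χ Θ) (hw : ∀ a, w (φ a) ≤ 1) (hΘ : w (φ Θ) = 1) {x y : E}
    (hx : χ.eval₂ φ x = 0) (hy : χ.eval₂ φ y = 0) (h : w (x - y) < 1) : x = y := by
  let ψ := φ.codRestrict w.integer hw
  have e : ∀ z : w.integer, χ.eval₂ φ z = 0 → χ.eval₂ ψ z = 0 := fun z hz =>
    Subtype.ext ((Polynomial.hom_eval₂ χ ψ w.integer.subtype z).trans hz)
  let x' : w.integer := ⟨x, trf1_int hm hw hx⟩
  let y' : w.integer := ⟨y, trf1_int hm hw hy⟩
  have I := Valuation.integer.integers w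
  have hu := I.one_of_isUnit (hb.unit ψ (e y' hy) (I.isUnit_of_one' hΘ))
  obtain ⟨k, hk⟩ := (χ.map ψ).binomExpansion y' (x' - y')
  rw [add_sub_cancel, Polynomial.derivative_map, Polynomial.eval_map, Polynomial.eval_map,
    Polynomial.eval_map, e x' hx, e y' hy, zero_add, sq, ← mul_assoc, ← add_mul, eq_comm,
    mul_eq_zero, sub_eq_zero, add_eq_zero_iff_eq_neg] at hk
  refine congrArg Subtype.val (hk.resolve_left fun u => ?_)
  rw [u, map_neg, Valuation.map_neg, map_mul, map_mul] at hu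
  exact (mul_lt_one_of_nonneg_of_lt_one_right k.2 zero_le h).ne hu

variable {σ F : Type} {c₀ : PChart O σ} {c : PChart K σ} [Field F] [Algebra (RF (Option σ) K) F]
  {θ : F} {E : Type} [Field E] [Algebra (RF (Option σ) K) E] [Algebra F E]
  [IsScalarTower (RF (Option σ) K) F E] [FiniteDimensional (RF (Option σ) K) E]
  [IsGalois (RF (Option σ) K) E]

/-- the valuation of `F` above `π` has index one -/
theorem exists_cen1 (hπ : Irreducible π) (hc : c₀.IsMap (algebraMap O K) c) (hF : c.FF F θ)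
    (hD : ¬MvPolynomial.C π ∣ c₀.D) {w : Vl E}
    (hw : Cen (gO O K (Option σ) E) w (MvPolynomial.C π)) :
    ∃ v : Vl F, Cen1 (gO O K (Option σ) F) v (MvPolynomial.C π) ∧
      0 < ord w (gO O K (Option σ) E (MvPolynomial.C π)) ∧
      Idq (algebraMap F E) v w (ord w (gO O K (Option σ) E (MvPolynomial.C π))) := by
  obtain ⟨v₀, hv, hv1⟩ := gau_exists (frc_gO O K (Option σ)) (mp_prime hπ).1 (mp_prime hπ).2
  obtain ⟨h0, hq⟩ := gau_idq (frc_gO O K (Option σ)) (mp_prime hπ).1 (mp_prime hπ).2 ⟨hv, hv1⟩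
    (j := algebraMap _ E) hw
  change 0 < ord w (gO O K (Option σ) E (MvPolynomial.C π)) at h0
  have eF : ∀ p, algebraMap F E (gO O K (Option σ) F p) = gO O K (Option σ) E p :=
    fun p => (IsScalarTower.algebraMap_apply (RF (Option σ) K) F E _).symm
  have hθ : c₀.χ.eval₂ (gO O K (Option σ) E) (algebraMap F E θ) = 0 := by
    rw [← show (algebraMap F E).comp _ = _ from RingHom.ext eF, ← Polynomial.hom_eval₂,
      ← Polynomial.eval₂_map, show c₀.χ.map _ = c.χ from hc.χ.symm, hF.1, map_zero]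
  have hfix : ∀ g ∈ Ine (RF (Option σ) K) w, ∀ z, g (algebraMap F E z) = algebraMap F E z := by
    intro g hg z
    have := congrArg (g : E →+* E) hθ
    rw [Polynomial.hom_eval₂, map_zero, show (g : E →+* E).comp _ = gO O K (Option σ) E from
      RingHom.ext fun p => g.commutes _] at this
    obtain ⟨g', e⟩ := hF.over g (root_eq_of_bez c₀.monic ⟨1, (pow_one c₀.D).symm ▸ c₀.bez⟩ hw.1
      (hw.red_one hD) this hθ (hg.2 _ (trf1_int c₀.monic hw.1 hθ)))
    rw [← e, g'.commutes]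
  have hlt := (hw.2 _).2 dvd_rfl
  have hp0 : gO O K (Option σ) E (MvPolynomial.C π) ≠ 0 := fun u => by
    rw [u, ord_zero] at h0
    exact h0.false
  have hp1 : gO O K (Option σ) F (MvPolynomial.C π) ≠ 0 := fun u => hp0 (by rw [← eF, u, map_zero])
  obtain ⟨v, e, ⟨t, ht⟩, he, hi⟩ := exists_nrm (v := w.comap (algebraMap F E)) hp1
    (by rw [Valuation.comap_apply, eF]; exact hlt.ne)
  have ho : ∀ z, ord w (algebraMap F E z) = e * ord v z := hi.ord
  have t0 : t ≠ 0 := fun u => WithZero.exp_ne_zero (ht.symm.trans ((map_eq_zero v).2 u))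
  obtain ⟨y, hy⟩ := nv_fix fun g hg => hfix g hg t
  have y0 : y ≠ 0 := fun u => (map_ne_zero w).2 ((map_ne_zero _).2 t0) (by rw [hy, u]; simp)
  have h1 := ho (gO O K (Option σ) F (MvPolynomial.C π))
  rw [eF] at h1
  have h2 : (e : ℤ) * 1 = e * (ord v (gO O K (Option σ) F (MvPolynomial.C π)) * ord v₀ y) := by
    rw [← mul_assoc, ← h1, ← ord_eq_of v ht, ← ho,
      (ord_eq_ord w ((map_ne_zero _).2 t0) ((map_ne_zero _).2 y0)).2 hy]
    exact_mod_cast hq y y0
  have h3 : ord v (gO O K (Option σ) F (MvPolynomial.C π)) = 1 :=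
    Int.eq_one_of_mul_eq_one_right ((mul_pos_iff_of_pos_left
      (Nat.cast_pos.2 (Nat.pos_of_ne_zero he))).1 (h1 ▸ h0)).le
      (mul_left_cancel₀ (Nat.cast_ne_zero.2 he) h2).symm
  refine ⟨v, ⟨⟨fun a => ((hi.over he) _).1 ((congrArg w (eF a)).trans_le (hw.1 a)), fun a =>
    ((hi.over he).lt_one _).symm.trans ?_⟩, ?_⟩, h0, fun z _ => ?_⟩
  · exact (eF a ▸ hw.2 a : w (algebraMap F E _) < 1 ↔ _)
  · rw [exp_neg_ord v hp1, h3]
  · rw [ho, h1, h3, mul_one]
    push_cast
    rfl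

/-- residue data of a tame representation -/
theorem TRep.rdat {Θ : MP (Option σ) K} {a : BR F} (hπ : Irreducible π) (T : TRep π Θ F a)
    {w : Vl T.E} (hw : Cen (gO O K (Option σ) T.E) w (MvPolynomial.C π)) {v : Vl F}
    (h0 : 0 < ord w (gO O K (Option σ) T.E (MvPolynomial.C π)))
    (hv : Idq (algebraMap F T.E) v w (ord w (gO O K (Option σ) T.E (MvPolynomial.C π)))) :
    ∃ R : RDat v w a, R.e = ord w (gO O K (Option σ) T.E (MvPolynomial.C π)) ∧
      ∀ p, ∃ k : ℤ, (R.c p / T.ϖ ^ k) ^ (T.m * T.e) = 1 := by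
  have : CharZero F := charZero_of_injective_algebraMap (algebraMap (RF (Option σ) K) F).injective
  have : FiniteDimensional F T.E := Module.Finite.of_restrictScalars_finite (RF (Option σ) K) _ _
  have : IsGalois F T.E := IsGalois.tower_top_of_isGalois (RF (Option σ) K) _ _
  have hz : T.m * T.e ≠ 0 := fun u => T.unit.ne_zero (by rw [u, Nat.cast_zero])
  have : NeZero (T.m * T.e) := ⟨hz⟩
  have hϖ : ∀ g : T.E ≃ₐ[F] T.E, g • T.ϖ ^ T.e = T.ϖ ^ T.e := fun g => Units.ext (by
    change g (T.ϖ ^ T.e : T.Eˣ) = _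
    rw [Units.val_pow_eq_pow_val, T.root]
    exact (g.restrictScalars (RF (Option σ) K)).commutes _)
  obtain ⟨u, k, h1, h2⟩ := rform0 (D := Dec F w) (I := Ine F w) (fun _ h => h.1)
    (fun g hg i hi => ⟨mul_mem (mul_mem hg hi.1) (inv_mem hg), fun x hx => by
      have := hi.2 (g⁻¹ x) ((inv_mem hg x).trans_le hx)
      rw [← hg, map_sub] at this
      simpa using this⟩) T.coc T.pow (Nat.pos_of_ne_zero hz) hϖ T.prim
    (fun a h => T.prim.zpowers_eq ▸ h)
    (fun i hi => Units.ext (trf1_fix hi ((trf1_nat hπ hw).2 T.unit)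
      (congrArg Units.val T.prim.pow_eq_one)))
    fun i hi h => AlgEquiv.ext fun x => DFunLike.congr_fun (T.faith w hw
      (i.restrictScalars _) ⟨hi.1, hi.2⟩ (congrArg Units.val h)) x
  have key : ∀ p, ((T.c * dd fun g => u g * T.ϖ ^ k g) p /
      T.ϖ ^ (k p.1 + k p.2 - k (p.1 * p.2))) ^ (T.m * T.e) = 1 := fun p => by
    have e : (T.c * dd fun g => u g * T.ϖ ^ k g) p / T.ϖ ^ (k p.1 + k p.2 - k (p.1 * p.2)) =
        T.c p * (p.1 • u p.2 / u (p.1 * p.2) * u p.1) * (p.1 • T.ϖ / T.ϖ) ^ k p.2 := by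
      simp only [Pi.mul_apply, dd, smul_mul', smul_zpow']
      apply Additive.ofMul.injective
      simp only [ofMul_mul, ofMul_div, ofMul_zpow]
      module
    have e1 : T.c p ^ (T.m * T.e) = 1 := by rw [pow_mul, T.pow, one_pow]
    have e2 : ((p.1 • T.ϖ / T.ϖ) ^ k p.2) ^ (T.m * T.e) = 1 := by
      rw [← zpow_natCast, zpow_comm, zpow_natCast, mul_comm, pow_mul, div_pow, ← smul_pow', hϖ,
        div_self', one_pow, one_zpow]
    rw [e, mul_pow, mul_pow, mul_pow, div_pow, ← smul_pow', e1, e2, h1, h1, h1, smul_one]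
    simp
  refine ⟨⟨_, _, fun g => k g / T.e, by exact_mod_cast h0, hv, coc_mul T.coc (dd_coc _),
    (cls_mul_dd T.coc _).trans T.cls_eq, h2, fun g _ h _ => ?_⟩, rfl, fun p => ⟨_, key p⟩⟩
  have h3 := (ord_eq_zero_v w (Units.ne_zero _)).2 (root_val hz (congrArg Units.val (key (g, h))))
  rw [Units.val_div_eq_div_val, ord_div_v w (Units.ne_zero _) (Units.ne_zero _),
    Units.val_zpow_eq_zpow_val, ord_zpow_v, sub_eq_zero] at h3
  have h4 : (T.e : ℚ) ≠ 0 := Nat.cast_ne_zero.2 (right_ne_zero_of_mul hz)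
  rw [h3, ← T.root, ord_pow_v]
  push_cast
  field_simp

end Pool.Agent.ZCy
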