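import Pool.Agent.Lib.MP_751085_ag.ZC.T.Def3
import Pool.Agent.Lib.MP_751085_ag.ZC.T.Rf1

/-! The generic fibre of a chart. -/

namespace Pool.Agent.ZCy

open scoped Classical Polynomial

variable {k O K σ : Type} [Field k] [CharZero k] [CommRing O] [IsDomain O] [Field K] [Algebra O K]
  [IsFractionRing O K] [Algebra k K] [Fintype σ] {π : O} {X : Var k} {GG : Set (Fm X.N O)}

/-- the chart over `K`, its function field, and a tame representation of the class -/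
theorem Var.exists_kx [CDVR O] (H : THyp) {n : ℕ} (hX : X.Nice n) (hσ : Fintype.card σ + 1 = n)
    (hM : X.Model (K := K) GG) (c₀ : Chart O σ X.N GG) (hπ : Irreducible π)
    (hδ : IsUnit (c₀.δ.factorial : O)) (hΦ : ¬MvPolynomial.C π ∣ c₀.Φ) {cl : BR X.F}
    (hcl : cl ∈ X.Brauer) {N : ℕ} (hN : IsUnit (N : O)) (h0 : N • cl = 0) :
    ∃ A : X.KX K c₀, Nonempty (TRep π A.c.br A.F (rs A.γ cl)) := by
  have : CharZero K := charZero_of_injective_algebraMap (algebraMap k K).injective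
  obtain ⟨c, hc⟩ := c₀.exists_map (algebraMap O K) (GG' := X.IK K)
    (fun G hG => hM.2 ▸ Ideal.subset_span hG) fun Ω _ ψ x hx =>
      Zer.map_image.1 fun G hG => hx.span (hM.2 ▸ Ideal.subset_span hG)
  obtain ⟨hG, F, _, _, _, θ, γ, hF⟩ := Var.exists_fld H.chf hX c hσ
  obtain ⟨h1, h2⟩ := H.hk k X K σ c F θ γ hG hF cl hcl
  obtain ⟨R, h3, h4⟩ := H.kt O K σ c₀.toPChart c.toPChart π F θ hc.p hπ hΦ (hc.p.δ ▸ hδ) hG hF.1
    (rs γ cl) N hN (by rw [← map_nsmul, h0, map_zero]) h1 h2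
  exact ⟨⟨c, F, θ, γ, hc, hG, hF⟩, exists_tRep hπ R h3 h4⟩

end Pool.Agent.ZCy
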