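import Pool.Agent.Lib.MP_751085_ag.ZC.T.Gau
import Pool.Agent.Lib.MP_751085_ag.ZC.T.Cf
import Pool.Agent.Lib.MP_751085_ag.ZC.L.Fld

/-! The valuation of the special fibre when the reduction of `χ` is irreducible. -/

namespace Pool.Agent.ZCy

open scoped Classical WithZero Polynomial

variable {O K κ σ F Ω : Type} [CommRing O] [IsDomain O] [IsDiscreteValuationRing O] [Field K]
  [Algebra O K] [IsFractionRing O K] [Field κ] [Finite σ] [Field F] [Algebra (RF (Option σ) K) F]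
  [Field Ω] {π : O} {ρ₀ : O →+* κ} {c₀ : PChart O σ} {c : PChart K σ} {θ : F} {v v' : Vl F}

/-- the hypotheses on the chart -/
structure XH (π : O) (ρ₀ : O →+* κ) (c₀ : PChart O σ) (c : PChart K σ) (θ : F) : Prop where
  irr : Irreducible π
  ker : KerM ρ₀
  map : c₀.IsMap (algebraMap O K) c
  gi : c.GI
  ff : c.FF F θ
  red : Irreducible (mq ρ₀ c₀.χ)

section

variable {A L : Type} [CommRing A] [Field L] {χ : A[X]} {P : A}

theorem txx_ker (hm : χ.Monic) {r : A →+* L} (hr : ∀ a, r a = 0 ↔ P ∣ a)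
    (hi : Irreducible (χ.map r)) (ψ : AdjoinRoot χ →+* Ω)
    (hψ : ∀ a, ψ (AdjoinRoot.of χ a) = 0 ↔ P ∣ a) (b : AdjoinRoot χ) :
    ψ b = 0 ↔ AdjoinRoot.of χ P ∣ b := by
  refine ⟨fun hb => ?_, fun ⟨d, hd⟩ => by rw [hd, map_mul, (hψ P).2 dvd_rfl, zero_mul]⟩
  obtain ⟨f, rfl⟩ := AdjoinRoot.mk_surjective b
  have := RingHom.ker_isPrime r
  let q : A →+* Fr (A ⧸ RingHom.ker r) :=
    (algebraMap (A ⧸ RingHom.ker r) _).comp (Ideal.Quotient.mk (RingHom.ker r))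
  have ex : ∀ (Ω : Type) [Field Ω] (t : A →+* Ω), (∀ a, t a = 0 ↔ P ∣ a) →
      ∃ j : Fr (A ⧸ RingHom.ker r) →+* Ω, j.comp q = t := fun Ω _ t ht =>
    have i : Function.Injective (Ideal.Quotient.lift (RingHom.ker r) t
      fun a ha => (ht a).2 ((hr a).1 ha)) :=
      (Ideal.injective_lift_iff _).2 (Ideal.ext fun a => (ht a).trans (hr a).symm)
    ⟨IsFractionRing.lift i, RingHom.ext fun a =>
      IsFractionRing.lift_algebraMap i (Ideal.Quotient.mk _ a)⟩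
  obtain ⟨i, h1⟩ := ex L r hr
  obtain ⟨j, h2⟩ := ex Ω (ψ.comp (AdjoinRoot.of χ)) hψ
  have e : ∀ g : A[X], Polynomial.eval₂RingHom j (ψ (AdjoinRoot.root χ)) (g.map q) =
      ψ (AdjoinRoot.mk χ g) := fun g => by
    rw [Polynomial.coe_eval₂RingHom, Polynomial.eval₂_map, h2, ← Polynomial.hom_eval₂,
      ← AdjoinRoot.aeval_eq]
    rfl
  have h3 := ((hm.map q).irreducible_of_irreducible_map i _ (by
    rwa [Polynomial.map_map, h1])).isCoprime_or_dvd (f.map q) |>.resolve_left fun h => by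
      have h4 := h.map (Polynomial.eval₂RingHom j (ψ (AdjoinRoot.root χ)))
      rw [e, e, hb, AdjoinRoot.mk_self, map_zero] at h4
      exact not_isCoprime_zero_zero h4
  rw [← Polynomial.modByMonic_eq_zero_iff_dvd (hm.map q), ← Polynomial.map_modByMonic q hm] at h3
  rw [← AdjoinRoot.mk_leftInverse hm (AdjoinRoot.mk χ f), AdjoinRoot.modByMonicHom_mk,
    ← AdjoinRoot.mk_C]
  refine map_dvd _ ((Polynomial.C_dvd_iff_dvd_coeff _ _).2 fun n => (hr _).1 ?_)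
  rw [← h1, RingHom.comp_apply, ← Polynomial.coeff_map, h3, Polynomial.coeff_zero, map_zero]

theorem txx_int (hm : χ.Monic) (φ : AdjoinRoot χ →+* F) (h : ∀ a, v (φ (AdjoinRoot.of χ a)) ≤ 1)
    (b : AdjoinRoot χ) : v (φ b) ≤ 1 := by
  let g : A →+* v.integer := (φ.comp (AdjoinRoot.of χ)).codRestrict _ h
  have h1 : χ.eval₂ (v.integer.subtype.comp g) (φ (AdjoinRoot.root χ)) = 0 :=
    (Polynomial.hom_eval₂ χ _ φ _).symm.trans (by rw [AdjoinRoot.eval₂_root, map_zero])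
  have h2 : φ (AdjoinRoot.root χ) ∈ v.integer := (Valuation.integer.integers v).mem_of_integral
    ⟨χ.map g, hm.map g, by rw [Polynomial.eval₂_map]; exact h1⟩
  have h3 : v.integer.subtype.comp (AdjoinRoot.lift g ⟨_, h2⟩ (Subtype.ext
      ((Polynomial.hom_eval₂ χ g v.integer.subtype _).trans h1))) = φ :=
    AdjoinRoot.ringHom_ext (RingHom.ext fun a => congrArg Subtype.val (AdjoinRoot.lift_of _))
      (congrArg Subtype.val (AdjoinRoot.lift_root _))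
  rw [← DFunLike.congr_fun h3 b]
  exact Subtype.prop (AdjoinRoot.lift g ⟨_, h2⟩ _ b)

theorem txx_adj [IsNoetherianRing A] (hm : χ.Monic) {r : A →+* L} (hr : ∀ a, r a = 0 ↔ P ∣ a)
    (hi : Irreducible (χ.map r)) (h0 : P ≠ 0) {φ : AdjoinRoot χ →+* F}
    (hφ : Function.Injective φ) (hφ' : Function.Injective (φ.comp (AdjoinRoot.of χ))) :
    Prime (AdjoinRoot.of χ P) ∧ Fac (AdjoinRoot.of χ P) ∧
      ∀ v : Vl F, Cen (φ.comp (AdjoinRoot.of χ)) v P ↔ Cen φ v (AdjoinRoot.of χ P) := by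
  have := hφ.isDomain
  have := Fact.mk hi
  let ψ := AdjoinRoot.lift ((AdjoinRoot.of (χ.map r)).comp r) (AdjoinRoot.root _)
    ((Polynomial.eval₂_map _ _ _).symm.trans (AdjoinRoot.eval₂_root _))
  have h1 : ∀ a, ψ (AdjoinRoot.of χ a) = 0 ↔ P ∣ a := fun a => by
    rw [AdjoinRoot.lift_of, RingHom.comp_apply, map_eq_zero, hr]
  have h2 := txx_ker hm hr hi ψ h1
  have h3 : Prime (AdjoinRoot.of χ P) :=
    ⟨fun e => h0 (hφ' ((congrArg φ e).trans ((map_zero φ).trans (map_zero _).symm))),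
      fun e => one_ne_zero ((map_one ψ).symm.trans ((h2 1).2 e.dvd)), fun a b e => by
        rwa [← h2, map_mul, mul_eq_zero, h2, h2] at e⟩
  refine ⟨h3, fac_of_wf h3, fun v => ⟨fun h => ⟨txx_int hm φ h.1, fun b => ?_⟩,
    fun h => ⟨fun a => h.1 _, fun a => (h.2 _).trans ((h2 _).symm.trans (h1 a))⟩⟩⟩
  have e : ∀ b, (IsLocalRing.residue v.valuationSubring).comp (φ.codRestrict v.valuationSubring
      (txx_int hm φ h.1)) b = 0 ↔ v (φ b) < 1 := fun b =>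
    (IsLocalRing.residue_eq_zero_iff _).trans v.mem_maximalIdeal_iff
  exact (e b).symm.trans (txx_ker hm hr hi _ (fun a => (e _).trans (h.2 a)) b)

end

theorem txx_root (h : XH π ρ₀ c₀ c θ) : c₀.χ.eval₂ (gO O K (Option σ) F) θ = 0 := by
  have h1 := h.ff.1
  rwa [h.map.χ, Polynomial.coe_mapRingHom, Polynomial.eval₂_map] at h1

/-- `B = AdjoinRoot c₀.χ` is a noetherian domain with fraction field `F`, and `π` is prime in `B`. -/
theorem XH.adj (h : XH π ρ₀ c₀ c θ) : ∃ φ : AdjoinRoot c₀.χ →+* F, Frc φ ∧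
    (∀ Q, φ (AdjoinRoot.of _ Q) = gO O K (Option σ) F Q) ∧ φ (AdjoinRoot.root _) = θ ∧
    Prime (AdjoinRoot.of c₀.χ (MvPolynomial.C π)) ∧ Fac (AdjoinRoot.of c₀.χ (MvPolynomial.C π)) ∧
    (∀ v : Vl F, Cen (gO O K (Option σ) F) v (MvPolynomial.C π) ↔
      Cen φ v (AdjoinRoot.of c₀.χ (MvPolynomial.C π))) ∧
    ∀ (Ω : Type) [Field Ω] (ψ : AdjoinRoot c₀.χ →+* Ω),
      (∀ Q, ψ (AdjoinRoot.of _ Q) = 0 ↔ MvPolynomial.C π ∣ Q) →
        ∀ b, ψ b = 0 ↔ AdjoinRoot.of c₀.χ (MvPolynomial.C π) ∣ b := by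
  let φ := AdjoinRoot.lift _ θ (txx_root h)
  have e : φ.comp (AdjoinRoot.of _) = gO O K (Option σ) F := AdjoinRoot.lift_comp_of _
  have hM := MvPolynomial.map_injective (σ := Option σ) _ (IsFractionRing.injective O K)
  have h1 : Function.Injective (gO O K (Option σ) F) := (toE_inj F).comp hM
  have h2 : Function.Injective φ := (injective_iff_map_eq_zero φ).2 fun b hb => by
    have := (txx_ker (P := 0) c₀.monic (r := (algebraMap _ (RF (Option σ) K)).comp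
      (MvPolynomial.map (algebraMap O K))) (fun a => (map_eq_zero_iff (RingHom.comp _ _)
        ((IsFractionRing.injective _ _).comp hM)).trans zero_dvd_iff.symm) (by
        have h3 := h.gi.irr
        rwa [h.map.χ, Polynomial.coe_mapRingHom, Polynomial.map_map] at h3) φ
      (fun a => (map_eq_zero_iff (φ.comp (AdjoinRoot.of _)) (e ▸ h1)).trans
        zero_dvd_iff.symm) b).1 hb
    rwa [map_zero, zero_dvd_iff] at this
  have h3 : ∀ a, (algebraMap _ (RF (Option σ) κ)).comp (MvPolynomial.map ρ₀) a = 0 ↔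
      MvPolynomial.C π ∣ a := fun a =>
    (map_eq_zero_iff _ (IsFractionRing.injective (MP (Option σ) κ) _)).trans
      (mp_ker h.ker h.irr a)
  have h4 : Irreducible (c₀.χ.map ((algebraMap _ (RF (Option σ) κ)).comp (MvPolynomial.map ρ₀))) :=
    Polynomial.map_map (MvPolynomial.map ρ₀) (algebraMap _ (RF (Option σ) κ)) c₀.χ ▸
      (c₀.monic.map _).irreducible_iff_irreducible_map_fraction_map.1 h.red
  obtain ⟨h5, h6, h7⟩ := txx_adj c₀.monic h3 h4 (mp_prime h.irr).1.ne_zero h2 (e ▸ h1)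
  refine ⟨φ, ⟨h2, fun z => ?_⟩, DFunLike.congr_fun e, AdjoinRoot.lift_root _, h5, h6, e ▸ h7,
    fun Ω _ => txx_ker c₀.monic h3 h4⟩
  have m : ∀ b, φ b ∈ Subfield.closure (φ.range : Set F) := fun b =>
    Subfield.subset_closure ⟨b, rfl⟩
  obtain ⟨x, hx, y, hy, rfl⟩ := Subfield.mem_closure_iff.1 (fld_top h.ff _ (fun p => by
    obtain ⟨a, b, hp⟩ := (frc_gO O K (Option σ)).surj (algebraMap _ _ p)
    rw [RingHom.comp_apply, hp, map_div₀]
    exact div_mem ((DFunLike.congr_fun e a).subst (motive := (· ∈ _)) (m (AdjoinRoot.of _ a)))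
      ((DFunLike.congr_fun e b).subst (motive := (· ∈ _)) (m (AdjoinRoot.of _ b))))
    (AdjoinRoot.lift_root (txx_root h) ▸ m _) z)
  rw [Subring.closure_eq] at hx hy
  obtain ⟨a, rfl⟩ := hx
  obtain ⟨b, rfl⟩ := hy
  exact ⟨a, b, rfl⟩

theorem XH.exists (h : XH π ρ₀ c₀ c θ) :
    ∃ v : Vl F, Cen1 (gO O K (Option σ) F) v (MvPolynomial.C π) := by
  obtain ⟨φ, h1, h2, -, h3, h4, h5, -⟩ := h.adj
  obtain ⟨v, hv⟩ := gau_exists h1 h3 h4
  exact ⟨v, (h5 v).2 hv.1, h2 _ ▸ hv.2⟩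

theorem XH.eq (h : XH π ρ₀ c₀ c θ) (hv : Cen1 (gO O K (Option σ) F) v (MvPolynomial.C π))
    (hv' : Cen1 (gO O K (Option σ) F) v' (MvPolynomial.C π)) : v' = v := by
  obtain ⟨φ, h1, h2, -, h3, h4, h5, -⟩ := h.adj
  exact gau_eq h1 h3 h4 ⟨(h5 v).1 hv.1, (congrArg v (h2 _)).trans hv.2⟩
    ⟨(h5 v').1 hv'.1, (congrArg v' (h2 _)).trans hv'.2⟩

theorem XH.le (h : XH π ρ₀ c₀ c θ) (hv : Cen (gO O K (Option σ) F) v (MvPolynomial.C π)) :
    v θ ≤ 1 := by
  obtain ⟨φ, -, -, h2, -, -, h5, -⟩ := h.adj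
  exact h2 ▸ ((h5 v).1 hv).1 _

theorem XH.red_ex (h : XH π ρ₀ c₀ c θ) (hv : Cen (gO O K (Option σ) F) v (MvPolynomial.C π))
    {ψ : MP (Option σ) O →+* Ω} (hψ : ∀ Q, ψ Q = 0 ↔ MvPolynomial.C π ∣ Q) {z : Ω}
    (hz : c₀.χ.eval₂ ψ z = 0) : ∃ ρ : v.integer →+* Ω, IsRed v ρ ∧
      RedA (gO O K (Option σ) F) ρ ψ ∧ ∀ u : v.integer, (u : F) = θ → ρ u = z := by
  obtain ⟨φ, h1, h2, h2', h3, h4, h5, h6⟩ := h.adj
  obtain ⟨ρ, h7, h8⟩ := gau_red h1 h3 h4 ((h5 v).1 hv) (h6 Ω (AdjoinRoot.lift ψ z hz) fun Q => by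
    rw [AdjoinRoot.lift_of, hψ])
  exact ⟨ρ, h7, fun Q u hu => (h8 _ u (hu.trans (h2 Q).symm)).trans (AdjoinRoot.lift_of hz),
    fun u hu => (h8 _ u (hu.trans h2'.symm)).trans (AdjoinRoot.lift_root hz)⟩

theorem XH.red_ext (h : XH π ρ₀ c₀ c θ) (hv : Cen (gO O K (Option σ) F) v (MvPolynomial.C π))
    {ρ ρ' : v.integer →+* Ω} (hρ : IsRed v ρ)
    (e : ∀ (Q : MP (Option σ) O) (u : v.integer), (u : F) = gO O K (Option σ) F Q → ρ' u = ρ u)
    (e' : ∀ u : v.integer, (u : F) = θ → ρ' u = ρ u) : ρ' = ρ := by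
  obtain ⟨φ, h1, h2, h2', h3, h4, h5, -⟩ := h.adj
  have h6 := (h5 v).1 hv
  have h7 : ρ'.comp (φ.codRestrict _ h6.1) = ρ.comp (φ.codRestrict _ h6.1) :=
    AdjoinRoot.ringHom_ext (RingHom.ext fun Q => e Q _ (h2 Q)) (e' _ h2')
  refine RingHom.ext fun u => gau_cmp h1 h3 h4 h6 hρ (RingHom.id F) (RingHom.id Ω) h6.1
    (fun a x y hx hy => ?_) u u rfl
  obtain rfl : x = φ.codRestrict _ h6.1 a := Subtype.ext hx
  obtain rfl : y = φ.codRestrict _ h6.1 a := Subtype.ext hy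
  exact DFunLike.congr_fun h7 a

/-- the residue of `θ` is a root of the reduction of `χ` -/
theorem XH.root (h : XH π ρ₀ c₀ c θ) (hv : Cen (gO O K (Option σ) F) v (MvPolynomial.C π))
    {ρ : v.integer →+* Ω} {ψ : MP (Option σ) O →+* Ω} (hρ : RedA (gO O K (Option σ) F) ρ ψ)
    {u : v.integer} (hu : (u : F) = θ) : c₀.χ.eval₂ ψ (ρ u) = 0 := by
  let g : MP (Option σ) O →+* v.integer := (gO O K (Option σ) F).codRestrict _ hv.1
  have h1 : c₀.χ.eval₂ g u = 0 := Subtype.ext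
    ((Polynomial.hom_eval₂ _ g v.integer.subtype u).trans 
      ((congrArg (c₀.χ.eval₂ (gO O K (Option σ) F)) hu).trans (txx_root h)))
  rw [← show ρ.comp g = ψ from RingHom.ext fun a => hρ a _ rfl, ← Polynomial.hom_eval₂, h1,
    map_zero]

end Pool.Agent.ZCy
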