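import Pool.Agent.Lib.MP_751085_ag.ZC.T.T1
import Pool.Agent.Lib.MP_751085_ag.ZC.T.Kx
import Pool.Agent.Lib.MP_751085_ag.ZC.T.Chg
import Pool.Agent.Lib.MP_751085_ag.ZC.T.XX

/-! Classes whose residue comes from the constants. -/

namespace Pool.Agent.ZCy

open scoped Classical Polynomial

variable {k O K κ σ : Type} [Field k] [CharZero k] [CommRing O] [IsDomain O] [CDVR O] [Field K]
  [Algebra O K] [IsFractionRing O K] [Algebra k K] [Field κ] [IsAlgClosed κ] [Fintype σ] {s : ℕ}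
  {ρ : O →+* κ} {π : O} {X : Var k} {GG : Set (Fm X.N O)}

/-- a point over `L` is an integral point of a chart -/
theorem Var.exists_intpt (hρ : LRes ρ s) (hπ : Irreducible π) (hM : X.Model (K := K) GG)
    (hC : CHv σ GG) {L : Type} [Field L] [Algebra K L] [Algebra k L] [IsScalarTower k K L]
    (Y : LExt K ρ s L) {x : Fin (X.N + 1) → L} (hx : X.On x) :
    ∃ (c₁ : Chart O σ X.N GG) (y : Option σ → Y.R) (z : Y.R) (u : L),
      IsUnit (c₁.δ.factorial : O) ∧ ev (algebraMap O Y.R) y z c₁.χ = 0 ∧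
      IsUnit (MvPolynomial.eval₂ (algebraMap O Y.R) y c₁.br) ∧ u ≠ 0 ∧
      (fun j => algebraMap Y.R L (c₁.pv (algebraMap O Y.R) y z j)) = u • x ∧
      ¬MvPolynomial.C π ∣ c₁.Φ ∧ ¬MvPolynomial.C π ∣ c₁.D := by
  obtain ⟨u, y₀, hu, hy, i₀, hi⟩ := exists_prim (R := Y.R) hx.1
  have me : ∀ {Ω ι : Type} [Field Ω] (τ : Y.R →+* Ω) (y : ι → Y.R) (G : MP ι O),
      MvPolynomial.eval₂ (τ.comp (algebraMap O Y.R)) (fun i => τ (y i)) G =
        τ (MvPolynomial.eval₂ (algebraMap O Y.R) y G) := fun τ y G =>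
    (MvPolynomial.eval₂_comp_left τ _ y G).symm
  have z1 : Zer (X.IK K) (algebraMap K L) x := Zer.map_image.2 fun G hG => by
    rw [← IsScalarTower.algebraMap_eq]
    exact hx.2 G hG
  have z2 : Zer GG ((algebraMap Y.R L).comp (algebraMap O Y.R))
      fun i => algebraMap Y.R L (y₀ i) := fun G hG => by
    obtain ⟨m, hm⟩ := hM.1 G hG
    have := z1.span (hM.2 ▸ Ideal.subset_span (Set.mem_image_of_mem _ hG))
    rw [MvPolynomial.eval₂_map, ← show (algebraMap Y.R L).comp (algebraMap O Y.R) =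
      (algebraMap K L).comp (algebraMap O K) from RingHom.ext Y.tow] at this
    rw [funext hy, fld_scale hm, this, mul_zero]
  have z3 : Zer GG (algebraMap O Y.R) y₀ := fun G hG =>
    (map_eq_zero_iff _ (IsFractionRing.injective Y.R L)).1 ((me _ _ G).symm.trans (z2 G hG))
  have un : ∀ a, Y.ρ a ≠ 0 → IsUnit a := fun a ha => not_not.1 fun e => ha ((Y.res.ker a).2 e)
  obtain ⟨c, hδ, h1, h2⟩ := hC κ _ _
    (fun e => (Y.res.ker _).1 (congrFun e i₀) hi) (z3.comp Y.ρ)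
  have h3 := un _ (me Y.ρ _ _ ▸ h1)
  obtain ⟨w, hw⟩ := h3.exists_right_inv
  let y : Option σ → Y.R := fun i => MvPolynomial.eval₂ (algebraMap O Y.R) y₀ (c.f (some i)) * w
  let z := MvPolynomial.eval₂ (algebraMap O Y.R) y₀ c.th * w
  have h4 : ∀ {Ω : Type} [Field Ω] (τ : Y.R →+* Ω),
      (c.xi (τ.comp (algebraMap O Y.R)) (fun i => τ (y₀ i)) = fun i => τ (y i)) ∧
        c.tht (τ.comp (algebraMap O Y.R)) (fun i => τ (y₀ i)) = τ z := fun τ => by
    have e := eq_inv_of_mul_eq_one_right ((map_mul τ _ _).symm.trans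
      ((congrArg τ hw).trans (map_one τ)))
    exact ⟨funext fun i => by rw [Chart.xi, me, me, map_mul, e, div_eq_mul_inv],
      by rw [Chart.tht, me, me, map_mul, e, div_eq_mul_inv]⟩
  rw [(h4 Y.ρ).1] at h2
  have h5 := un _ (me Y.ρ _ _ ▸ h2)
  obtain ⟨r, hr⟩ := c.toPChart.D_dvd_br
  obtain ⟨h6, -, u', hu', h7⟩ := Chart.Off.coord (c := c) (Θ := c.br) ⟨by
    rw [me]; exact (h3.map _).ne_zero, by rw [(h4 _).1, me]; exact (h5.map _).ne_zero⟩ z2 hr
  rw [(h4 _).1, (h4 _).2] at h6 h7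
  have h8 : ∀ r : ℕ, ¬MvPolynomial.C π ∣ c.br ^ r := fun r ⟨g, hg⟩ => pow_ne_zero r h2 (by
    rw [← MvPolynomial.eval₂_pow, hg, MvPolynomial.eval₂_mul, MvPolynomial.eval₂_C,
      RingHom.comp_apply, Y.cmp, (hρ.ker π).2 hπ.not_isUnit, zero_mul])
  refine ⟨c, y, z, u' * u, hδ, (map_eq_zero_iff _ (IsFractionRing.injective Y.R L)).1
    ((map_ev _ _ _ _ _).trans h6), h5, mul_ne_zero hu' hu, funext fun j => ?_,
    fun e => h8 1 ?_, fun e => h8 r (e.trans hr)⟩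
  · refine (map_ev _ _ _ _ _).trans ((congrFun h7 j).trans ?_)
    simp only [Pi.smul_apply, smul_eq_mul, hy, mul_assoc]
  · have := map_dvd (MvPolynomial.rename (R := O) (some : σ → Option σ)) e
    rw [MvPolynomial.rename_C] at this
    rw [pow_one]
    exact this.mul_left _

/-- a class with constant residue has constant values -/
theorem Var.KX.const_val (H : THyp) (hs : FinB κ s) (hρ : LRes ρ s) {n : ℕ} (hX : X.Nice n)
    (hn : 3 ≤ n) (hσ : Fintype.card σ + 1 = n) (hM : X.Model (K := K) GG) (hC : CHv σ GG)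
    {c₀ : Chart O σ X.N GG} (A : X.KX K c₀) (h : XH π ρ c₀.toPChart A.c.toPChart A.θ)
    {cl : BR X.F} (hcl : cl ∈ X.Brauer) {N : ℕ} (hN : IsUnit (N : O)) (h0 : N • cl = 0)
    {v : Vl A.F} (hv : Cen1 (gO O K (Option σ) A.F) v (MvPolynomial.C π))
    {q₀ : AddCircle (1 : ℚ)} (hq : ConstR K ρ s v (Option σ) (rs A.γ cl) q₀) :
    X.CVal K ρ s cl q₀ := by
  intro L _ _ _ _ _ Y x hx
  have hE := H.ev k X n hX hn
  obtain ⟨c₁, y, z, u, hδ, h1, h2, hu, h3, hΦ, hD⟩ := Var.exists_intpt hρ h.irr hM hC Y hx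
  obtain ⟨A', ⟨T⟩⟩ := Var.exists_kx H hX hσ hM c₁ h.irr hδ hΦ hcl hN h0
  obtain ⟨φ, hφ⟩ := hs.frob Y.f
  obtain ⟨Γ, hΓ⟩ := exists_coefE (ι := Option σ) φ
  obtain ⟨v', ρ', q, hv', r1, r2, r3, r4, r5⟩ :=
    A'.t1 H.tz hs hρ h.irr hE hcl T Y h1 h2 hφ hΓ
  obtain ⟨j, j1, j2, j3⟩ := A.cmp h.irr A' hD hv'
  obtain rfl := h.eq hv j3
  have := charZero_of_injective_algebraMap (algebraMap k X.F).injective
  have := charZero_of_injective_algebraMap (algebraMap k A.F).injective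
  have := charZero_of_injective_algebraMap (algebraMap k A'.F).injective
  obtain ⟨γ, hγ⟩ := exists_taut (Ω := AlgebraicClosure (FP (Option σ) κ)) Γ
  let i := algebraMap (FP (Option σ) κ) (AlgebraicClosure (FP (Option σ) κ))
  obtain ⟨ρ₁, s1, s2⟩ := (r1.tcomp i).comap j (w := v'.comap j) fun _ => Iff.rfl
  have s3 : ∀ a, γ (i.comp ρ' a) = i.comp ρ' a := fun a => (hγ _).trans (congrArg i (r3 a))
  have s4 := hq _ (i.comp ((ps _ κ).comp MvPowerSeries.C)) ρ₁ γ Y.f s1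
    (fun a b e => (s2 b ⟨j b, b.2⟩ rfl).trans (congrArg i
      ((r2.1 (MvPolynomial.C a) _ ((congrArg j e).trans (j2 a))).trans
        (congrArg (ps _ κ) (MvPolynomial.eval₂Hom_C _ _ a)))))
    (fun a => by rw [s2 a ⟨j a, a.2⟩ rfl, s3]) fun a => (hγ _).trans (congrArg i ((hΓ _).trans
      (congrArg (ps _ κ) ((MvPowerSeries.map_C _ a).trans (congrArg _ (hφ a))))))
  have s5 := nr_map j hv.nrm hv'.nrm one_pos (fun a _ => by rw [Nat.cast_one, one_mul]; rfl)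
    (r1.tcomp i) (ι := RingHom.id _) (fun a b e => (s2 a b e).symm) (fun _ => rfl) s3 s4
  rw [la_comp, j1, one_nsmul] at s5
  rwa [nr_uniq hv'.nrm (r4.comp i hγ) s5, h3, hE.val_smul cl hcl L x u hx hu, ← mul_nsmul'] at r5

end Pool.Agent.ZCy
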