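import Pool.Agent.Lib.MP_751085_ag.ZC.T.Defs

/-! Block T: the alternative for the values of a class. -/

namespace Pool.Agent.ZCy

open scoped Classical

/-- the statements of other blocks that are used -/
structure THyp : Prop where
  chf : CHF
  ev : EV
  hk : HK
  kt : ThmKT
  tz : TZP
  zl : ZLP
  z1 : Z1LP
  ta : TAP
  ie : IrrExt

variable {k O κ σ : Type} [Field k] [CommRing O] [Field κ] (X : Var k) (K : Type) [Field K]
  [Algebra k K] [Algebra O K] (ρ : O →+* κ) (s : ℕ)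

/-- the values of the class at all points are given by one character of the constants -/
def Var.CVal (cl : BR X.F) (q₀ : AddCircle (1 : ℚ)) : Prop :=
  ∀ (L : Type) [Field L] [Algebra K L] [Algebra k L] [IsScalarTower k K L] [FiniteDimensional K L]
    (Y : LExt K ρ s L) (x : Fin (X.N + 1) → L), X.On x →
      LInv L Y.ρ (s ^ Y.f) (X.val cl L x) ((Y.e * Y.f) • q₀)

/-- the class has different values at all lifts of two points of the curve over the line -/
def Var.TVal {GG : Set (Fm X.N O)} (c₀ : Chart O σ X.N GG) (Θ : MP (Option σ) O)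
    (a b : Option σ → O) (cl : BR X.F) : Prop :=
  ∃ (m : ℕ) (t z : Fin 2 → κ), 0 < m ∧ (∀ i, LPt ρ c₀.χ Θ a b (s ^ m) (t i) (z i)) ∧
    ∀ (L : Type) [Field L] [Algebra K L] [Algebra k L] [IsScalarTower k K L] [FiniteDimensional K L]
      (Y : LExt K ρ s L), Y.e = 1 → Y.f = m → ∀ (y : Fin 2 → Option σ → Y.R) (ζ : Fin 2 → Y.R),
      (∀ i, ev (algebraMap O Y.R) (y i) (ζ i) c₀.χ = 0 ∧
        (∀ j, Y.ρ (y i j) = tpt ρ a b (t i) j) ∧ Y.ρ (ζ i) = z i) →
      ∃ q : Fin 2 → AddCircle (1 : ℚ), q 0 ≠ q 1 ∧ ∀ i, LInv L Y.ρ (s ^ m) (X.val cl L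
        fun j => algebraMap Y.R L (c₀.pv (algebraMap O Y.R) (y i) (ζ i) j)) (q i)

end Pool.Agent.ZCy
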