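import Pool.Agent.Lib.MP_751085_ag.ZC.T.Def2

/-! Block T: the generic fibre of a chart, algebraic independence. -/

namespace Pool.Agent.ZCy

open scoped Classical

/-- the chart over `K` and the function field that belong to a chart over `O` -/
structure Var.KX {k O σ : Type} [Field k] [CommRing O] (X : Var k) (K : Type) [Field K]
    [Algebra k K] [Algebra O K] {GG : Set (Fm X.N O)} (c₀ : Chart O σ X.N GG) : Type 1 where
  c : Chart K σ X.N (X.IK K)
  F : Type
  [fld : Field F]
  [alg : Algebra (RF (Option σ) K) F]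
  [algk : Algebra k F]
  θ : F
  γ : X.F →+* F
  map : c₀.IsMap (algebraMap O K) c
  gi : c.GI
  ff : X.Fld c F θ γ

attribute [instance] Var.KX.fld Var.KX.alg Var.KX.algk

/-- `ξ` is algebraically independent over the image of `φ` -/
def AInd {O Ω ι : Type} [CommRing O] [CommRing Ω] (φ : O →+* Ω) (ξ : ι → Ω) : Prop :=
  ∀ Q : MP ι O, MvPolynomial.eval₂ φ ξ Q = 0 → MvPolynomial.map φ Q = 0

end Pool.Agent.ZCy
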