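import Pool.Agent.Lib.MP_751085_ag.ZC.K.KT

/-! Block T: definitions. -/

namespace Pool.Agent.ZCy

open scoped Classical WithZero Polynomial
open groupCohomology

/-- power series in the variables `ι` -/
abbrev PS (ι A : Type) : Type := MvPowerSeries ι A

/-- the fraction field of the power series ring -/
abbrev FP (ι A : Type) [CommRing A] : Type := Fr (MvPowerSeries ι A)

/-- power series inside their fraction field -/
noncomputable abbrev ps (ι A : Type) [CommRing A] : PS ι A →+* FP ι A := algebraMap _ _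

/-- `Γ` acts on fractions of power series through `f` on the coefficients -/
def CoefL {ι A B : Type} [CommRing A] [CommRing B] (f : A →+* B) (Γ : FP ι A → FP ι B) : Prop :=
  ∀ y, Γ (ps ι A y) = ps ι B (MvPowerSeries.map f y)

/-- `κ` is algebraic over a prime field and `s` is a power of the characteristic -/
structure FinB (κ : Type) [Field κ] (s : ℕ) : Prop where
  ex : ∃ p r : ℕ, p.Prime ∧ CharP κ p ∧ 0 < r ∧ s = p ^ r
  alg : ∀ x : κ, ∃ n, 0 < n ∧ x ^ s ^ n = x

/-- `ρ` is a residue map of the local ring `R` -/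
def KerM {R κ : Type} [CommRing R] [Field κ] (ρ : R →+* κ) : Prop := ∀ a, ρ a = 0 ↔ ¬IsUnit a

/-- `ρ` is the residue map of the local ring `R` onto the field with `s` elements inside `κ` -/
structure LRes {R κ : Type} [CommRing R] [Field κ] (ρ : R →+* κ) (s : ℕ) : Prop where
  ker : KerM ρ
  rng : ∀ x, x ∈ ρ.range ↔ x ^ s = x

/-- `ρ'` extends `ψ` along `φ` -/
def RedA {A K Ω : Type} [CommRing A] [Field K] [Field Ω] (φ : A →+* K) {v : Vl K}
    (ρ' : v.integer →+* Ω) (ψ : A →+* Ω) : Prop :=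
  ∀ (a : A) (y : v.integer), (y : K) = φ a → ρ' y = ψ a

/-- the residue of the class `β` of the local field `K` takes the value `x` at Frobenius -/
def LInv {R κ : Type} (K : Type) [CommRing R] [Field κ] [Field K] [Algebra R K] (ρ : R →+* κ)
    (s : ℕ) (β : BR K) (x : AddCircle (1 : ℚ)) : Prop :=
  ∃ (v : Vl K) (ρ' : v.integer →+* κ) (γ : κ ≃+* κ), IsVR (algebraMap R K) v ∧
    RedA (algebraMap R K) ρ' ρ ∧ (∀ z, γ z = z ^ s) ∧ ResAt v ρ' β γ x

/-- A finite extension `L` of the local field `K` with its ring of integers and residue map. -/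
structure LExt {O κ : Type} (K : Type) [CommRing O] [Field κ] [Field K] [Algebra O K]
    (ρ₀ : O →+* κ) (s : ℕ) (L : Type) [Field L] [Algebra K L] : Type 1 where
  R : Type
  [cr : CommRing R]
  [dom : IsDomain R]
  [cdvr : CDVR R]
  [algO : Algebra O R]
  [int : Algebra.IsIntegral O R]
  [algL : Algebra R L]
  [fr : IsFractionRing R L]
  ρ : R →+* κ
  e : ℕ
  f : ℕ
  tow : ∀ a : O, algebraMap R L (algebraMap O R a) = algebraMap K L (algebraMap O K a)
  res : LRes ρ (s ^ f)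
  cmp : ∀ a, ρ (algebraMap O R a) = ρ₀ a
  fpos : 0 < f
  idx : ∀ (π : O) (π₁ : R), Irreducible π → Irreducible π₁ →
    Associated (algebraMap O R π) (π₁ ^ e)
  deg : e * f = Module.finrank K L

attribute [instance] LExt.cr LExt.dom LExt.cdvr LExt.algO LExt.int LExt.algL LExt.fr

/-- `φ` presents `K` as the fraction field of `A` -/
structure Frc {A K : Type} [CommRing A] [Field K] (φ : A →+* K) : Prop where
  inj : Function.Injective φ
  surj : ∀ z, ∃ a b, z = φ a / φ b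

/-- every nonzero element is a power of `P` times an element prime to `P` -/
def Fac {A : Type} [CommRing A] (P : A) : Prop :=
  ∀ a : A, a ≠ 0 → ∃ (n : ℕ) (b : A), a = P ^ n * b ∧ ¬P ∣ b

/-- `w` is centred at `P` and `P` is a uniformiser -/
def Cen1 {A E : Type} [CommRing A] [Field E] (φ : A →+* E) (w : Vl E) (P : A) : Prop :=
  Cen φ w P ∧ w (φ P) = WithZero.exp (-1)

/-- polynomials over `O` inside an extension of the rational function field over `K` -/
noncomputable abbrev gO (O K ι F : Type) [CommRing O] [Field K] [Algebra O K] [Field F]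
    [Algebra (RF ι K) F] : MP ι O →+* F :=
  (toE (MP ι K) F).comp (MvPolynomial.map (algebraMap O K))

/-- residue data on a given extension -/
structure RDat {F E : Type} [Field F] [Field E] [Algebra F E] (v : Vl F) (w : Vl E) (a : BR F) where
  e : ℚ
  c : (E ≃ₐ[F] E) × (E ≃ₐ[F] E) → Eˣ
  lam : (E ≃ₐ[F] E) → ℚ
  e_pos : 0 < e
  idq : Idq (algebraMap F E) v w e
  coc : IsMulCocycle₂ c
  cls_eq : cls F c = a
  infl : Infl (Dec F w) (Ine F w) c
  ord_eq : ∀ g ∈ Dec F w, ∀ h ∈ Dec F w,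
    (ord w (c (g, h) : E) : ℚ) = e * (lam g + lam h - lam (g * h))

section

variable {F E Ω Ω' : Type} [Field F] [Field E] [Algebra F E] [Field Ω] [Field Ω'] {v : Vl F}
  {w : Vl E} {a : BR F}

/-- the bundled residue data -/
def RDat.rd [FiniteDimensional F E] [IsGalois F E] (R : RDat v w a) : RD v a :=
  { E := E, w := w, e := R.e, c := R.c, lam := R.lam, e_pos := R.e_pos, idq := R.idq,
    coc := R.coc, cls_eq := R.cls_eq, infl := R.infl, ord_eq := R.ord_eq }

theorem RDat.resAt [FiniteDimensional F E] [IsGalois F E] (R : RDat v w a) {ρ : v.integer →+* Ω}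
    {ρ' : w.integer →+* Ω} (h : IsRed w ρ') (hc : Cmp (algebraMap F E) ρ ρ' id) {d : E ≃ₐ[F] E}
    (hd : d ∈ Dec F w) {γ : Ω ≃+* Ω} (hγ : Cmp d ρ' ρ' γ) :
    ResAt v ρ a γ (R.lam d : AddCircle (1 : ℚ)) := ⟨R.rd, ρ', d, h, hc, hd, hγ, rfl⟩

theorem IsRed.tcomp {ρ : v.integer →+* Ω} (h : IsRed v ρ) (β : Ω →+* Ω') : IsRed v (β.comp ρ) :=
  fun x => (map_eq_zero β).trans (h x)

theorem ResAt.comp {ρ : v.integer →+* Ω} {γ : Ω ≃+* Ω} {q : AddCircle (1 : ℚ)}
    (h : ResAt v ρ a γ q) (β : Ω →+* Ω') {γ' : Ω' ≃+* Ω'} (hβ : ∀ x, γ' (β x) = β (γ x)) :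
    ResAt v (β.comp ρ) a γ' q := by
  obtain ⟨R, ρ', d, h1, h2, h3, h4, h5⟩ := h
  exact ⟨R, β.comp ρ', d, h1.tcomp β, fun x y e => congrArg β (h2 x y e), h3,
    fun x y e => (congrArg β (h4 x y e)).trans (hβ _).symm, h5⟩

end

/-- A representation by roots of unity on an extension that contains a root `ϖ` of `π` on which
the inertia groups above `π` act faithfully. -/
structure TRep {O K ι : Type} [CommRing O] [Field K] [Algebra O K] (π : O) (Θ : MP ι K) (F : Type)
    [Field F] [Algebra (RF ι K) F] (a : BR F) : Type 1 extends MuRep Θ F a where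
  e : ℕ
  ϖ : Eˣ
  ζ : Eˣ
  root : (ϖ : E) ^ e = gO O K ι E (MvPolynomial.C π)
  prim : IsPrimitiveRoot ζ (m * e)
  unit : IsUnit ((m * e : ℕ) : O)
  tame : ∀ w : Vl E, Cen (gO O K ι E) w (MvPolynomial.C π) → Tame (RF ι K) w
  faith : ∀ w : Vl E, Cen (gO O K ι E) w (MvPolynomial.C π) → ∀ g ∈ Ine (RF ι K) w,
    g ϖ = ϖ → g = 1

section

variable {O K ι F κ : Type} [CommRing O] [Field K] [Algebra O K] [Field F] [Algebra (RF ι K) F]
  [Field κ]

variable (K) in
/-- the residue map `ρ` is the expansion at the point `(y, z)` -/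
def AtPt (ρ₀ : O →+* κ) (θ : F) {v : Vl F} (ρ : v.integer →+* FP ι κ) (y : ι → κ) (z : κ) : Prop :=
  RedA (gO O K ι F) ρ ((ps ι κ).comp (tay ρ₀ y)) ∧ ∃ T : PS ι κ,
    MvPowerSeries.constantCoeff T = z ∧ ∀ u : v.integer, (u : F) = θ → ρ u = ps ι κ T

/-- the algebraic closure of the rational function field -/
abbrev OB (ι κ : Type) [Field κ] : Type := AlgebraicClosure (RF ι κ)

/-- The automorphism `γ` of the closure of `κ(ξ)` is the Frobenius `φ` at the point `(y, z)`. -/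
def PtLink (y : ι → κ) (z : κ) (φ : κ →+* κ) (θ₀ : OB ι κ) (γ : OB ι κ ≃+* OB ι κ) : Prop :=
  ∃ (𝕂 : Type) (_ : Field 𝕂) (_ : IsAlgClosed 𝕂) (β : OB ι κ →+* 𝕂) (β' : FP ι κ →+* 𝕂)
    (γ' : 𝕂 ≃+* 𝕂) (T : PS ι κ), (∀ x, γ' (β x) = β (γ x)) ∧
    (∀ f, γ' (β' (ps ι κ f)) = β' (ps ι κ (MvPowerSeries.map φ f))) ∧
    (∀ Q : MP ι κ, β (toE (MP ι κ) _ Q) = β' (ps ι κ (tay (RingHom.id κ) y Q))) ∧
    β θ₀ = β' (ps ι κ T) ∧ MvPowerSeries.constantCoeff T = z

/-- the point of the line with parameter `t` -/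
def tpt {S : Type} [CommRing S] (φ : O →+* S) (a b : ι → O) (t : S) : ι → S :=
  fun i => φ (a i) + φ (b i) * t

/-- a power of `Θ` lies in the ideal of `χ` and its derivative -/
def Bez {A : Type} [CommRing A] (χ : A[X]) (Θ : A) : Prop :=
  ∃ (N : ℕ) (α β : A[X]), Polynomial.C (Θ ^ N) = α * χ + β * Polynomial.derivative χ

variable (K) in
/-- the residue of `a` is the inflation of the character of the constants with value `q₀` at
Frobenius -/
def ConstR (ρ₀ : O →+* κ) (s : ℕ) (v : Vl F) (ι : Type) [Algebra (RF ι K) F] (a : BR F)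
    (q₀ : AddCircle (1 : ℚ)) : Prop :=
  ∀ (𝕂 : Type) [Field 𝕂] [IsAlgClosed 𝕂] (β : κ →+* 𝕂) (ρ : v.integer →+* 𝕂) (γ : 𝕂 ≃+* 𝕂) (f : ℕ),
    IsRed v ρ → RedA ((gO O K ι F).comp MvPolynomial.C) ρ (β.comp ρ₀) → (∀ x, γ (ρ x) = ρ x) →
    (∀ z, γ (β z) = β (z ^ s ^ f)) → ResAt v ρ a γ (f • q₀)

/-- `(t, z)` is a good point of the curve over the line, with coordinates in the field with `s`
elements -/
structure LPt (ρ₀ : O →+* κ) (χ : (MP ι O)[X]) (Θ : MP ι O) (a b : ι → O) (s : ℕ) (t z : κ) :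
    Prop where
  ht : t ^ s = t
  hz : z ^ s = z
  on : ev ρ₀ (tpt ρ₀ a b t) z χ = 0
  off : MvPolynomial.eval₂ ρ₀ (tpt ρ₀ a b t) Θ ≠ 0

variable (K) in
/-- the residue of `cl` has different values at the Frobenius elements of two points of the curve
over the line -/
def TwoPt (ρ₀ : O →+* κ) (s : ℕ) (χ : (MP ι O)[X]) (Θ : MP ι O) (a b : ι → O) (θ : F) (v : Vl F)
    (cl : BR F) : Prop :=
  ∃ (m : ℕ) (t z : Fin 2 → κ), 0 < m ∧ (∀ i, LPt ρ₀ χ Θ a b (s ^ m) (t i) (z i)) ∧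
    ∀ (φ : κ ≃+* κ) (Γ : FP ι κ ≃+* FP ι κ) (ρ : Fin 2 → v.integer →+* FP ι κ)
      (q : Fin 2 → AddCircle (1 : ℚ)), (∀ x, φ x = x ^ s ^ m) → CoefL (φ : κ →+* κ) Γ →
      (∀ i, IsRed v (ρ i) ∧ AtPt K ρ₀ θ (ρ i) (tpt ρ₀ a b (t i)) (z i) ∧
        ResAt v (ρ i) cl Γ (q i)) → q 0 ≠ q 1

/-- the point of the plane through the line in the direction `j₀` -/
noncomputable def csub {S : Type} [CommRing S] (φ : O →+* S) (a b : ι → O) (j₀ : ι) (t η : S) :
    ι → S := fun i => tpt φ a b t i + if i = j₀ then η else 0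

/-- the Jacobian determinant -/
noncomputable def jdet {A S : Type} [CommRing A] [CommRing S] {n : ℕ} (φ : A →+* S)
    (G : Fin n → MP (Fin n) A) (x : Fin n → S) : S :=
  (Matrix.of fun i j => MvPolynomial.eval₂ φ x (MvPolynomial.pderiv j (G i))).det

/-- modulo `π` the points `(0, z)`, `h(z) = 0`, `ϑ ≠ 0` are simple solutions of the system `G` -/
def SysJ (π : O) (h : O[X][X]) (ϑ : O[X]) (G : Fin 2 → MP (Fin 2) O[X]) : Prop :=
  ∀ (Ω : Type) [Field Ω] (ψ : O[X] →+* Ω) (z : Ω), ψ (Polynomial.C π) = 0 → h.eval₂ ψ z = 0 →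
    ψ ϑ ≠ 0 → (∀ i, MvPolynomial.eval₂ ψ ![0, z] (G i) = 0) ∧ jdet ψ G ![0, z] ≠ 0

/-- expansion at `τ = t` -/
noncomputable def atT {R : Type} [CommRing R] (φ : O →+* R) (t : R) : O[X] →+* PowerSeries R :=
  Polynomial.eval₂RingHom (PowerSeries.C.comp φ) (PowerSeries.C t + PowerSeries.X)

end

/-! ### Statements from block V that are used as hypotheses -/

/-- purity in mixed characteristic, tame version -/
def TZP : Prop := ∀ (O K R ι : Type) [CommRing O] [IsDomain O] [IsDiscreteValuationRing O] [Field K]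
  [Algebra O K] [IsFractionRing O K] [CharZero K] [CommRing R] [IsDomain R] [CDVR R] (φ : O →+* R),
  Function.Injective φ → IsLocalHom φ → ∀ [Fintype ι] (E : Type) [Field E] [Algebra (RF ι K) E]
  [FiniteDimensional (RF ι K) E] [IsGalois (RF ι K) E] (Θ : MP ι O) (π : O), Irreducible π →
  UnrOff (RF ι K) (toE (MP ι K) E) (Θ.map (algebraMap O K)) →
  (∀ w : Vl E, Cen (gO O K ι E) w (MvPolynomial.C π) → Tame (RF ι K) w) →
  ∀ y : ι → R, IsUnit (Θ.eval₂ φ y) →
    ∃ (R' : Type) (_ : CommRing R') (_ : IsDomain R') (_ : CDVR R') (_ : Algebra R R')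
      (_ : Module.Finite R R') (_ : FaithfulSMul R R') (J : E →+* FP ι R'),
      ∀ Q : MP ι O, J (gO O K ι E Q) =
        ps ι R' (MvPowerSeries.map (algebraMap R R') (tay φ y Q))

/-- purity at the generic point of a good line, and the Lefschetz theorem for the line -/
def ZLP : Prop := ∀ (κ ι : Type) [Field κ] [IsAlgClosed κ] [Fintype ι] (E : Type) [Field E]
  [Algebra (RF ι κ) E] [FiniteDimensional (RF ι κ) E] [IsGalois (RF ι κ) E],
  (Nat.card (E ≃ₐ[RF ι κ] E) : κ) ≠ 0 → ∀ Θ : MP ι κ, UnrOff (RF ι κ) (toE (MP ι κ) E) Θ →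
  ∀ a b : ι → κ, b ≠ 0 → GoodLine Θ a b →
    ∃ (M : Type) (_ : Field M) (_ : Algebra (RatFunc κ) M) (_ : FiniteDimensional (RatFunc κ) M)
      (_ : IsGalois (RatFunc κ) M) (J : E →+* FP ι M),
      (∀ Q, J (toE _ E Q) = ps ι M (tay ((algebraMap (RatFunc κ) M).comp RatFunc.C)
        (tpt ((algebraMap (RatFunc κ) M).comp RatFunc.C) a b
          (algebraMap (RatFunc κ) M RatFunc.X)) Q)) ∧
      ∀ g : E ≃ₐ[RF ι κ] E, ∃ σ : M ≃ₐ[RatFunc κ] M, ∀ Γ : FP ι M →+* FP ι M,
        CoefL (σ : M →+* M) Γ → ∀ x, J (g x) = Γ (J x)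

/-- irreducibility on a good line in characteristic zero -/
def Z1LP : Prop := ∀ (κ ι : Type) [Field κ] [IsAlgClosed κ] [CharZero κ] [Fintype ι]
  (χ : (MP ι κ)[X]) (Θ : MP ι κ), χ.Monic → Irreducible χ → Bez χ Θ → ∀ a b : ι → κ, b ≠ 0 →
  GoodLine Θ a b → Irreducible (χ.map (line (RingHom.id κ) a b))

/-- irreducibility is kept by good reduction -/
def TAP : Prop := ∀ (R : Type) [CommRing R] [IsDomain R] [CDVR R] [CharZero R]
  [IsAlgClosed (IsLocalRing.ResidueField R)] (h : R[X][X]) (Ψ : R[X]), h.Monic →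
  Irreducible (h.map (Polynomial.mapRingHom (algebraMap R (Fr R)))) → Bez h Ψ →
  IsUnit Ψ.leadingCoeff → Ψ.Separable →
  Irreducible (h.map (Polynomial.mapRingHom (IsLocalRing.residue R)))

/-- absolutely irreducible polynomials stay irreducible over extension fields -/
def IrrExt : Prop := ∀ (K K' ι : Type) [Field K] [IsAlgClosed K] [Field K'] [Fintype ι]
  (φ : K →+* K') (χ : (MP ι K)[X]), χ.Monic → Irreducible χ → Irreducible (mq φ χ)

end Pool.Agent.ZCy
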