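import Mathlib

/-! Duality for finite groups, and normal subgroups of index prime to `p`. -/

namespace Pool.Agent.ZCy

open scoped Classical

theorem tdual_tor {u v : AddCircle (1 : ℚ)} (h0 : 0 < addOrderOf u) (hv : addOrderOf u • v = 0) :
    ∃ k : ℕ, v = k • u := by
  have hfin := AddCircle.finite_torsion (1 : ℚ) h0
  have hle := AddCircle.card_torsion_le_of_isSMulRegular (1 : ℚ) _ h0.ne'
    (.of_right_eq_zero_of_smul fun _ ↦ by simp [h0.ne'])
  have hsub : (AddSubgroup.zmultiples u : Set (AddCircle (1 : ℚ))) ⊆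
      {x | addOrderOf u • x = 0} := by
    rintro _ ⟨k, rfl⟩
    change addOrderOf u • k • u = 0
    rw [smul_comm, addOrderOf_nsmul_eq_zero, smul_zero]
  have hc : (AddSubgroup.zmultiples u : Set (AddCircle (1 : ℚ))).ncard = addOrderOf u := by
    rw [← Nat.card_coe_set_eq]; exact Nat.card_zmultiples u
  have heq := Set.eq_of_subset_of_ncard_le hsub (by
    rw [hc]; rw [← hfin.cast_ncard_eq] at hle; exact_mod_cast hle) hfin
  have hm : v ∈ AddSubgroup.zmultiples u := by
    change v ∈ (AddSubgroup.zmultiples u : Set (AddCircle (1 : ℚ))); rw [heq]; exact hv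
  obtain ⟨k, hk⟩ := ((isOfFinAddOrder_iff_nsmul_eq_zero.2
    ⟨_, h0, addOrderOf_nsmul_eq_zero u⟩).mem_multiples_iff_mem_zmultiples).2 hm
  exact ⟨k, hk.symm⟩

theorem tdual_hom {B : Type} [AddCommGroup B] {j : B →+ AddCircle (1 : ℚ)}
    (hj : Function.Injective j) {N : ℕ} (hN : 0 < N) (φ : B →+ AddCircle (1 : ℚ)) :
    ∃ n : ℕ, ∀ b, N • b = 0 → φ b = n • j b := by
  let T : AddSubgroup B := (nsmulAddMonoidHom N).ker
  have hT : AddMonoid.ExponentExists T := ⟨N, hN, fun t => Subtype.ext t.2⟩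
  obtain ⟨g, hg⟩ := AddMonoid.exists_addOrderOf_eq_exponent hT
  have ho : addOrderOf (j g) = AddMonoid.exponent T := by
    rw [addOrderOf_injective j hj, AddSubgroup.addOrderOf_coe, hg]
  have h0 : 0 < addOrderOf (j g) := by
    rw [ho]; exact Nat.pos_of_ne_zero hT.exponent_ne_zero
  have hk : ∀ (ψ : B →+ AddCircle (1 : ℚ)) (t : T), addOrderOf (j g) • ψ t = 0 := fun ψ t => by
    rw [ho, ← map_nsmul, ← AddSubgroup.coe_nsmul, AddMonoid.exponent_nsmul_eq_zero,
      AddSubgroup.coe_zero, map_zero]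
  obtain ⟨n, hn⟩ := tdual_tor h0 (hk φ g)
  refine ⟨n, fun b hb => ?_⟩
  obtain ⟨k, hk'⟩ := tdual_tor h0 (hk j ⟨b, hb⟩)
  have hb' : b = k • (g : B) := hj (by rw [map_nsmul]; exact hk')
  rw [hb', map_nsmul, map_nsmul, hn, smul_comm]

/-- Duality: an element killed by all linear forms that kill `H` lies in `H`. -/
theorem tdual {B ι : Type} [AddCommGroup B] [Fintype ι] {j : B →+ AddCircle (1 : ℚ)}
    (hj : Function.Injective j) {N : ℕ} (hN : 0 < N) (H : AddSubgroup (ι → B))
    (hH : ∀ h ∈ H, ∀ i, N • h i = 0) {z : ι → B} (hz : ∀ i, N • z i = 0)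
    (h : ∀ n : ι → ℕ, (∀ h ∈ H, ∑ i, n i • h i = 0) → ∑ i, n i • z i = 0) : z ∈ H := by
  by_contra hzH
  obtain ⟨c, hc⟩ := CharacterModule.exists_character_apply_ne_zero_of_ne_zero
    (a := (QuotientAddGroup.mk z : (ι → B) ⧸ H)) (by rwa [Ne, QuotientAddGroup.eq_zero_iff])
  let c' : ((ι → B) ⧸ H) →+ AddCircle (1 : ℚ) := c
  let f : (ι → B) →+ AddCircle (1 : ℚ) := c'.comp (QuotientAddGroup.mk' H)
  choose n hn using fun i => tdual_hom hj hN (f.comp (AddMonoidHom.single (fun _ => B) i))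
  have hf : ∀ w : ι → B, (∀ i, N • w i = 0) → f w = j (∑ i, n i • w i) := fun w hw => by
    conv_lhs => rw [← Finset.univ_sum_single w]
    rw [map_sum, map_sum]
    exact Finset.sum_congr rfl fun i _ => by rw [map_nsmul]; exact hn i _ (hw i)
  refine hc ?_
  change f z = 0
  rw [hf z hz, h n fun w hw => hj ?_, map_zero]
  rw [← hf w (hH w hw), map_zero]
  change c' (QuotientAddGroup.mk w) = 0
  rw [(QuotientAddGroup.eq_zero_iff w).2 hw, map_zero]

theorem tdual_fix {G S : Type} [Group G] [Finite G] [MulAction G S] (x : S) {p : ℕ}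
    (hp : p.Prime) (hδ : Nat.card (MulAction.orbit G x) < p) {g : G} (hg : g ^ p • x = x) :
    g • x = x := by
  rcases (Nat.dvd_prime hp).1 (MulAction.pow_smul_eq_iff_period_dvd.1 hg) with h | h
  · exact MulAction.period_eq_one_iff.1 h
  · exfalso
    have : Finite (MulAction.orbit G x) := (Set.finite_range _).to_subtype
    have hi : Function.Injective fun k : Fin p =>
        (⟨g ^ (k : ℕ) • x, MulAction.mem_orbit _ _⟩ : MulAction.orbit G x) := fun a b hab => by
      have h1 : g ^ (a : ℕ) • x = g ^ (b : ℕ) • x := congrArg Subtype.val hab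
      rw [← smul_iterate_apply, ← smul_iterate_apply] at h1
      exact Fin.ext (Function.iterate_injOn_Iio_minimalPeriod (f := (g • ·)) (x := x)
        (by rw [← MulAction.period_eq_minimalPeriod, h]; exact a.2)
        (by rw [← MulAction.period_eq_minimalPeriod, h]; exact b.2) h1)
    have := Nat.card_le_card_of_injective _ hi
    rw [Nat.card_eq_fintype_card, Fintype.card_fin] at this
    exact absurd this (not_le.2 hδ)

/-- The normal core of the kernel of `lam` in the stabilizer of `x` has index prime to `p`. -/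
theorem grp_core {G S A : Type} [Group G] [Finite G] [MulAction G S] [AddCommGroup A] (x : S)
    (lam : G → A) (hl : ∀ g h, g • x = x → h • x = x → lam (g * h) = lam g + lam h) {p m : ℕ}
    (hp : p.Prime) (hm : ¬p ∣ m) (hk : ∀ g, g • x = x → m • lam g = 0)
    (hδ : Nat.card (MulAction.orbit G x) < p) :
    ∃ N : Subgroup G, N.Normal ∧ ¬p ∣ N.index ∧ ∀ g ∈ N, g • x = x ∧ lam g = 0 := by
  have h1 : lam 1 = 0 := by
    have := hl 1 1 (one_smul _ _) (one_smul _ _)
    rw [one_mul] at this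
    exact left_eq_add.1 this
  have hpow : ∀ g, g • x = x → ∀ k : ℕ, g ^ k • x = x ∧ lam (g ^ k) = k • lam g := fun g hg k => by
    induction k with
    | zero => simp [h1]
    | succ k ih => exact ⟨by rw [pow_succ, mul_smul, hg, ih.1],
        by rw [pow_succ, hl _ _ ih.1 hg, ih.2, succ_nsmul]⟩
  let K : Subgroup G :=
    { carrier := {g | g • x = x ∧ lam g = 0}
      one_mem' := ⟨one_smul _ _, h1⟩
      mul_mem' := fun {a b} ha hb => ⟨by rw [mul_smul, hb.1, ha.1],
        by rw [hl _ _ ha.1 hb.1, ha.2, hb.2, add_zero]⟩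
      inv_mem' := fun {a} ha => by
        have hi : a⁻¹ • x = x := inv_smul_eq_iff.2 ha.1.symm
        have := hl _ _ ha.1 hi
        rw [mul_inv_cancel, h1, ha.2, zero_add] at this
        exact ⟨hi, this.symm⟩ }
  refine ⟨K.normalCore, inferInstance, fun hd => ?_, fun g hg => K.normalCore_le hg⟩
  have := Fact.mk hp
  obtain ⟨q, hq⟩ := exists_prime_orderOf_dvd_card' (G := G ⧸ K.normalCore) p hd
  obtain ⟨g, rfl⟩ := QuotientGroup.mk_surjective q
  have hgp : g ^ p ∈ K.normalCore := by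
    rw [← QuotientGroup.eq_one_iff, QuotientGroup.mk_pow, ← hq, pow_orderOf_eq_one]
  have hg : g ∈ K.normalCore := fun b => by
    have h2 : (b * g * b⁻¹) ^ p ∈ K := by rw [conj_pow]; exact hgp b
    have h3 := tdual_fix x hp hδ h2.1
    refine ⟨h3, ?_⟩
    have h4 : p • lam (b * g * b⁻¹) = 0 := by rw [← (hpow _ h3 p).2]; exact h2.2
    have h5 := Nat.dvd_gcd (addOrderOf_dvd_of_nsmul_eq_zero h4)
      (addOrderOf_dvd_of_nsmul_eq_zero (hk _ h3))
    rw [(hp.coprime_iff_not_dvd.2 hm).gcd_eq_one, Nat.dvd_one] at h5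
    exact AddMonoid.addOrderOf_eq_one_iff.1 h5
  rw [(QuotientGroup.eq_one_iff g).2 hg, orderOf_one] at hq
  exact hp.one_lt.ne hq

end Pool.Agent.ZCy
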