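import Pool.Agent.Lib.MP_751085_ag.ZC.T.Gau
import Pool.Agent.Lib.MP_751085_ag.ZC.T.Cf

/-! The valuation of the uniformiser on fractions of power series, and induced valuations. -/

namespace Pool.Agent.ZCy

open scoped Classical WithZero Polynomial

variable {R Ω ι : Type} [CommRing R] [IsDomain R] [IsDiscreteValuationRing R] [Field Ω] {π : R}
  {ρ : R →+* Ω}

theorem tpsv_map {A B S : Type} [CommRing A] [CommRing B] [CommRing S] (f : A →+* B)
    (g : B →+* S) (y : PS ι A) :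
    MvPowerSeries.map g (MvPowerSeries.map f y) = MvPowerSeries.map (g.comp f) y := rfl

theorem tpsv_cen (hπ : Irreducible π) (hρ : KerM ρ) {u : Vl (FP ι R)}
    (hu : Cen1 (ps ι R) u (MvPowerSeries.C π)) {σ : R ≃+* R} {Γ : FP ι R →+* FP ι R}
    (hΓ : CoefL (σ : R →+* R) Γ) : Cen1 (ps ι R) (u.comap Γ) (MvPowerSeries.C π) := by
  have hσ : KerM (ρ.comp (σ : R →+* R)) := fun a =>
    (hρ (σ a)).trans (MulEquiv.isUnit_map (f := σ)).not
  refine ⟨⟨fun a => ?_, fun a => ?_⟩, ?_⟩ <;> rw [Valuation.comap_apply, hΓ]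
  · exact hu.1.1 _
  · rw [hu.1.2, ← ps_ker hρ hπ, tpsv_map, ps_ker hσ hπ]
  · obtain ⟨e, he⟩ := IsDiscreteValuationRing.associated_of_irreducible R hπ (hπ.map σ)
    have h1 : u (ps ι R (MvPowerSeries.C (e : R))) = 1 :=
      le_antisymm (hu.1.1 _) (not_lt.1 fun h => (ps_prime hπ).1.not_isUnit
        (isUnit_of_dvd_unit ((hu.1.2 _).1 h) (e.isUnit.map _)))
    rw [MvPowerSeries.map_C, RingHom.coe_coe, ← he, map_mul, map_mul, map_mul, h1, mul_one, hu.2]

/-- the Gauss valuation, its residue map and the action on coefficients -/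
theorem exists_psv (hπ : Irreducible π) (hρ : KerM ρ) :
    ∃ (u : Vl (FP ι R)) (ρu : u.integer →+* FP ι Ω), Cen1 (ps ι R) u (MvPowerSeries.C π) ∧
      IsRed u ρu ∧ RedA (ps ι R) ρu ((ps ι Ω).comp (MvPowerSeries.map ρ)) ∧
      ∀ (σ : R ≃+* R) (Γ : FP ι R →+* FP ι R), CoefL (σ : R →+* R) Γ → (∀ z, u (Γ z) = u z) ∧
        ∀ (φ : Ω →+* Ω) (Φ : FP ι Ω →+* FP ι Ω), (∀ a, ρ (σ a) = φ (ρ a)) → CoefL φ Φ →
          Cmp Γ ρu ρu Φ := by
  obtain ⟨hP, hF⟩ := ps_prime (ι := ι) hπ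
  have hf : Frc (ps ι R) := frc_alg
  obtain ⟨u, hu⟩ := gau_exists hf hP hF
  obtain ⟨ρu, h1, h2⟩ := gau_red hf hP hF hu.1 (ψ := (ps ι Ω).comp (MvPowerSeries.map ρ))
    fun a => (map_eq_zero_iff _ (IsFractionRing.injective _ _)).trans (ps_ker hρ hπ a)
  refine ⟨u, ρu, hu, h1, h2, fun σ Γ hΓ => ?_⟩
  have hc := tpsv_cen hπ hρ hu hΓ
  refine ⟨fun z => DFunLike.congr_fun (gau_eq hf hP hF hu hc) z, fun φ Φ h3 hΦ =>
    gau_cmp hf hP hF hu.1 h1 Γ Φ hc.1.1 fun a x y hx hy => ?_⟩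
  rw [h2 _ y (hy.trans (hΓ a)), h2 a x hx, RingHom.comp_apply, RingHom.comp_apply, hΦ, tpsv_map,
    tpsv_map, show ρ.comp (σ : R →+* R) = φ.comp ρ from RingHom.ext h3]

/-- on constants the valuation is the valuation of `R` -/
theorem psv_const {L : Type} [Field L] [Algebra R L] [IsFractionRing R L] (hπ : Irreducible π)
    {u : Vl (FP ι R)} (hu : Cen1 (ps ι R) u (MvPowerSeries.C π)) {v : Vl L}
    (hv : IsVR (algebraMap R L) v) {B : FP ι R →+* FP ι L} (hB : CoefL (algebraMap R L) B)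
    {z : FP ι R} {x : L} (h : B z = cC ι L x) : u z = v x := by
  have hi : Function.Injective ((ps ι R).comp MvPowerSeries.C) :=
    (IsFractionRing.injective (PS ι R) _).comp MvPowerSeries.C_injective
  have hj : ∀ a, IsFractionRing.lift (K := L) hi (algebraMap R L a) =
      ps ι R (MvPowerSeries.C a) := IsFractionRing.lift_algebraMap hi
  have h1 : B.comp (IsFractionRing.lift hi) = cC ι L :=
    IsLocalization.ringHom_ext (nonZeroDivisors R) (RingHom.ext fun a => by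
      simp only [RingHom.comp_apply, hj]
      rw [hB, MvPowerSeries.map_C])
  have h2 : z = IsFractionRing.lift hi x :=
    B.injective (h.trans (DFunLike.congr_fun h1 x).symm)
  have h3 : Cen1 (algebraMap R L) (u.comap (IsFractionRing.lift hi)) π := by
    refine ⟨⟨fun a => ?_, fun a => ?_⟩, ?_⟩ <;> rw [Valuation.comap_apply, hj]
    · exact hu.1.1 _
    · rw [hu.1.2]
      exact ⟨fun e => by simpa using map_dvd MvPowerSeries.constantCoeff e, map_dvd _⟩
    · exact hu.2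
  rw [h2]
  exact DFunLike.congr_fun (gau_eq frc_alg hπ.prime (fac_of_wf hπ.prime) (hv.cen1 hπ) h3) x

/-- The valuation and the residue map induced by an embedding over the expansion at a point. -/
theorem psv_comap {O K E : Type} [CommRing O] [IsDomain O] [IsDiscreteValuationRing O] [Field K]
    [Algebra O K] [Field E] [Algebra (RF ι K) E] {π₀ : O} (hπ₀ : Irreducible π₀)
    (hπ : Irreducible π) (hρ : KerM ρ) {φ : O →+* R} (hφ : KerM (ρ.comp φ)) {u : Vl (FP ι R)}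
    {ρu : u.integer →+* FP ι Ω} (hu : Cen (ps ι R) u (MvPowerSeries.C π)) (h1 : IsRed u ρu)
    (h2 : RedA (ps ι R) ρu ((ps ι Ω).comp (MvPowerSeries.map ρ))) {y : ι → R} {J : E →+* FP ι R}
    (hJ : ∀ Q, J (gO O K ι E Q) = ps ι R (tay φ y Q)) :
    Cen (gO O K ι E) (u.comap J) (MvPolynomial.C π₀) ∧
      ∃ ρw : (u.comap J).integer →+* FP ι Ω, IsRed (u.comap J) ρw ∧ Cmp J ρw ρu id ∧
        RedA (gO O K ι E) ρw ((ps ι Ω).comp (tay (ρ.comp φ) fun i => ρ (y i))) := by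
  refine ⟨⟨fun a => ?_, fun a => ?_⟩, ρu.comp ((J.comp (u.comap J).integer.subtype).codRestrict _
    fun x => x.2), fun x => h1 _, fun x z e => congrArg ρu (Subtype.ext e), fun a z e => ?_⟩
  · rw [Valuation.comap_apply, hJ]
    exact hu.1 _
  · rw [Valuation.comap_apply, hJ, hu.2, ← ps_ker hρ hπ, map_tay, tay_eq_zero, mp_ker hφ hπ₀]
  · refine (h2 (tay φ y a) _ ((congrArg J e).trans (hJ a))).trans ?_
    rw [RingHom.comp_apply, RingHom.comp_apply, map_tay]

end Pool.Agent.ZCy
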