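import Pool.Agent.Lib.MP_751085_ag.ZC.T.Ord
import Pool.Agent.Lib.MP_751085_ag.ZC.T.PsV

/-! Subfields of the residue field of a tame cover are unramified off the branch locus. -/

namespace Pool.Agent.ZCy

open scoped Classical Polynomial

theorem te0b_gen {A : Type} [CommRing A] {P : A} (hP : Prime P) :
    ∃ (Ω : Type) (_ : Field Ω) (q : A →+* Ω), ∀ Q, q Q = 0 ↔ P ∣ Q :=
  have := (Ideal.span_singleton_prime hP.ne_zero).2 hP
  ⟨Fr (A ⧸ Ideal.span {P}), inferInstance,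
    (algebraMap (A ⧸ Ideal.span {P}) _).comp (Ideal.Quotient.mk _), fun _ =>
    (map_eq_zero_iff _ (IsFractionRing.injective (A ⧸ Ideal.span {P}) _)).trans
      (Ideal.Quotient.eq_zero_iff_mem.trans Ideal.mem_span_singleton)⟩

theorem te0b_fac {A B C : Type} [CommRing A] [Field B] [Field C] (f : A →+* C) (a : B →+* C)
    (h : ∀ x, f x ∈ a.fieldRange) : ∃ j : A →+* B, ∀ x, a (j x) = f x :=
  ⟨a.rangeRestrictFieldEquiv.symm.toRingHom.comp (f.codRestrict _ h), fun x =>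
    congrArg Subtype.val (a.rangeRestrictFieldEquiv.apply_symm_apply ⟨f x, h x⟩)⟩

theorem te0b_emb {O K κ ι E Ω : Type} [CommRing O] [IsDomain O] [IsDiscreteValuationRing O]
    [Field K] [Algebra O K] [IsFractionRing O K] [Field κ] [Field Ω] {π : O} {ρ : O →+* κ}
    (hπ : Irreducible π) [Field E] [Algebra (RF ι K) E] [FiniteDimensional (RF ι K) E]
    [IsGalois (RF ι K) E] {w w' : Vl E} (hw : Cen (gO O K ι E) w (MvPolynomial.C π))
    {ρW : w.integer →+* OB ι κ} (h1 : IsRed w ρW)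
    (h2 : RedA (gO O K ι E) ρW ((toE (MP ι κ) (OB ι κ)).comp (MvPolynomial.map ρ)))
    (hw' : Cen (gO O K ι E) w' (MvPolynomial.C π)) {ρ' : w'.integer →+* FP ι Ω} (r1 : IsRed w' ρ')
    {ψ : κ →+* Ω} {y' : ι → Ω} (r2 : RedA (gO O K ι E) ρ' ((ps ι Ω).comp (tay (ψ.comp ρ) y')))
    {E₀ : IntermediateField (RF ι κ) (OB ι κ)}
    (hle : E₀ ≤ IntermediateField.adjoin (RF ι κ) (Set.range ρW)) :
    ∃ j : E₀ →+* FP ι Ω, ∀ Q, j (toE (MP ι κ) E₀ Q) = ps ι Ω (tay ψ y' Q) := by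
  let a := algebraMap (FP ι Ω) (AlgebraicClosure (FP ι Ω))
  have i1 : Function.Injective ((ps ι Ω).comp (tay ψ y')) :=
    (IsFractionRing.injective _ _).comp ((injective_iff_map_eq_zero _).2 fun Q h =>
      MvPolynomial.map_injective _ ψ.injective
        (((tay_eq_zero _ _ _).1 h).trans (map_zero _).symm))
  obtain ⟨β₁, b1⟩ := exists_hom_ext (Ω := OB ι κ)
    (a.comp (IsFractionRing.lift (K := RF ι κ) i1))
  have b2 : ∀ Q, β₁ (toE (MP ι κ) (OB ι κ) Q) = a (ps ι Ω (tay ψ y' Q)) := fun Q =>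
    (b1 _).trans (congrArg a (IsFractionRing.lift_algebraMap i1 Q))
  obtain ⟨p1, p2⟩ := mp_prime (ι := ι) hπ
  obtain ⟨v, hv, -⟩ := gau_exists (frc_gO O K ι) p1 p2
  have o1 := (gau_over (frc_gO O K ι) p1 p2 hv (j := algebraMap _ E)).1 hw
  have o2 := (gau_over (frc_gO O K ι) p1 p2 hv (j := algebraMap _ E)).1 hw'
  obtain ⟨g, g1, g2⟩ := place_conj_over o1 o2 (h1.tcomp β₁) (r1.tcomp a) fun x =>
    gau_cmp (frc_gO O K ι) p1 p2 hv ((h1.tcomp β₁).comp_int o1) (ρ' := a.comp ρ') (algebraMap _ E)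
      (RingHom.id _) hw'.1 (fun Q x z hx hz => (congrArg a ((r2 Q z hz).trans
        (congrArg (ps ι Ω) (tay_map ρ ψ y' Q).symm))).trans ((b2 _).symm.trans
          (congrArg β₁ (h2 Q _ (congrArg (algebraMap _ E) hx)).symm))) x _ rfl
  have h3 : IntermediateField.adjoin (RF ι κ) (Set.range ρW) ≤
      (a.fieldRange.comap β₁).toIntermediateField fun z => ⟨_, (b1 z).symm⟩ := by
    rw [IntermediateField.adjoin_le_iff]
    rintro _ ⟨x, rfl⟩
    have h4 : w (g (g.symm x)) ≤ 1 := (g.apply_symm_apply x).symm ▸ x.2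
    exact ⟨_, (g2 _ ((g1 _).2 h4) h4).trans
      (congrArg (β₁.comp ρW) (Subtype.ext (g.apply_symm_apply x)))⟩
  obtain ⟨j, hj⟩ := te0b_fac (β₁.comp (algebraMap E₀ (OB ι κ))) a fun z => h3 (hle z.2)
  exact ⟨j, fun Q => a.injective ((hj _).trans (b2 Q))⟩

/-- expand at a lift of the generic point of the prime and reduce -/
theorem e0_unr (hT : TZP) {O K κ ι E : Type} [CommRing O] [IsDomain O] [IsDiscreteValuationRing O]
    [Field K] [CharZero K] [Algebra O K] [IsFractionRing O K] [Field κ] [IsAlgClosed κ] [Fintype ι]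
    {π : O} {ρ : O →+* κ} (hπ : Irreducible π) (hρ : KerM ρ) [Field E] [Algebra (RF ι K) E]
    [FiniteDimensional (RF ι K) E] [IsGalois (RF ι K) E] {Θ : MP ι O}
    (hU : UnrOff (RF ι K) (toE (MP ι K) E) (Θ.map (algebraMap O K)))
    (ht : ∀ w : Vl E, Cen (gO O K ι E) w (MvPolynomial.C π) → Tame (RF ι K) w) {w : Vl E}
    (hw : Cen (gO O K ι E) w (MvPolynomial.C π)) {ρW : w.integer →+* OB ι κ} (h1 : IsRed w ρW)
    (h2 : RedA (gO O K ι E) ρW ((toE (MP ι κ) (OB ι κ)).comp (MvPolynomial.map ρ)))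
    (E₀ : IntermediateField (RF ι κ) (OB ι κ)) [FiniteDimensional (RF ι κ) E₀]
    [IsGalois (RF ι κ) E₀] (hG : (Nat.card (E₀ ≃ₐ[RF ι κ] E₀) : κ) ≠ 0)
    (hle : E₀ ≤ IntermediateField.adjoin (RF ι κ) (Set.range ρW)) :
    UnrOff (RF ι κ) (toE (MP ι κ) E₀) (Θ.map ρ) := by
  intro P w₀ hP hΘ hw₀
  obtain ⟨Ω₀, _, q, hq⟩ := te0b_gen hP
  obtain ⟨R, _, _, _, φ, β, hφ, hl, -, hβ⟩ := exists_tlift (ψ := (q.comp MvPolynomial.C).comp ρ)
    fun a => (map_eq_zero (q.comp MvPolynomial.C)).trans (hρ a)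
  choose y hy using fun i => IsLocalRing.residue_surjective (β (q (MvPolynomial.X i)))
  have e1 : (IsLocalRing.residue R).comp (MvPolynomial.eval₂Hom φ y) =
      (β.comp q).comp (MvPolynomial.map ρ) :=
    MvPolynomial.ringHom_ext (fun a => by simpa using (hβ a).symm) fun i => by simpa using hy i
  obtain ⟨R', _, _, _, _, _, _, J, hJ⟩ := hT O K R ι φ hφ hl E Θ π hπ hU ht y
    (not_not.1 fun h => hΘ ((hq _).1 ((map_eq_zero β).1
      ((DFunLike.congr_fun e1 Θ).symm.trans ((kerM_residue _).2 h)))))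
  let t := (IsLocalRing.ResidueField.map (algebraMap R R')).comp β
  let ψ := t.comp (q.comp MvPolynomial.C)
  let y' := fun i => t (q (MvPolynomial.X i))
  have e2 : MvPolynomial.eval₂Hom ψ y' = t.comp q :=
    MvPolynomial.ringHom_ext (fun a => by simp [ψ]) fun i => by simp [y']
  have e3 : (IsLocalRing.residue R').comp ((algebraMap R R').comp φ) = ψ.comp ρ :=
    RingHom.ext fun a => (congrArg (IsLocalRing.ResidueField.map (algebraMap R R')) (hβ a)).symm
  have e4 : (fun i => IsLocalRing.residue R' (algebraMap R R' (y i))) = y' :=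
    funext fun i => congrArg (IsLocalRing.ResidueField.map (algebraMap R R')) (hy i)
  obtain ⟨π', hπ'⟩ := IsDiscreteValuationRing.exists_irreducible R'
  obtain ⟨u, ρu, u1, u2, u3, -⟩ := exists_psv (ι := ι) hπ' kerM_residue
  obtain ⟨hw', ρ', r1, -, r2⟩ := psv_comap hπ hπ' kerM_residue (φ := (algebraMap R R').comp φ)
    (e3 ▸ fun a => (map_eq_zero ψ).trans (hρ a)) u1.1 u2 u3 fun Q =>
      (hJ Q).trans (congrArg _ (map_tay _ _ _ _))
  rw [e3, e4] at r2
  obtain ⟨j, hj⟩ := te0b_emb hπ hw h1 h2 hw' r1 r2 hle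
  exact unr_of_temb hG hP (ψ := ψ) (y := y') (fun Q => by
    rw [← MvPolynomial.coe_eval₂Hom, e2, RingHom.comp_apply, map_eq_zero, hq])
    hj hw₀

end Pool.Agent.ZCy
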