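import Pool.Agent.Lib.MP_751085_ag.ZC.T.E0a
import Pool.Agent.Lib.MP_751085_ag.ZC.T.E0b
import Pool.Agent.Lib.MP_751085_ag.ZC.T.Rf1
import Pool.Agent.Lib.MP_751085_ag.ZC.T.XX

/-! The geometric part of the residue lives on a tame cover with the given branch locus. -/

namespace Pool.Agent.ZCy

open scoped Classical Polynomial

variable {O K κ σ F : Type} [CommRing O] [IsDomain O] [IsDiscreteValuationRing O] [Field K]
  [CharZero K] [Algebra O K] [IsFractionRing O K] [Field κ] [IsAlgClosed κ] [Fintype σ] [Field F]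
  [Algebra (RF (Option σ) K) F] {s : ℕ} {π : O} {ρ : O →+* κ} {c₀ : PChart O σ} {c : PChart K σ}
  {θ : F} {v : Vl F} {a : BR F}

/-- the data attached to a root `θ₀` of the reduction of `χ` -/
structure GenR (K : Type) [Field K] [Algebra O K] [Algebra (RF (Option σ) K) F] (π : O) (ρ : O →+* κ)
    (θ : F) (v : Vl F) (θ₀ : OB (Option σ) κ) (ρ₀ : v.integer →+* OB (Option σ) κ) : Prop where
  cen : Cen1 (gO O K (Option σ) F) v (MvPolynomial.C π)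
  red : IsRed v ρ₀
  base : RedA (gO O K (Option σ) F) ρ₀ ((toE (MP (Option σ) κ) _).comp (MvPolynomial.map ρ))
  th : ∀ u : v.integer, (u : F) = θ → ρ₀ u = θ₀

variable {θ₀ : OB (Option σ) κ} {ρ₀ : v.integer →+* OB (Option σ) κ}

omit [IsAlgClosed κ] [Fintype σ] in
theorem te0_ker {Ω : Type} [Field Ω] [Algebra (RF (Option σ) κ) Ω] (hρ : KerM ρ)
    (hπ : Irreducible π) (Q : MP (Option σ) O) :
    ((toE (MP (Option σ) κ) Ω).comp (MvPolynomial.map ρ)) Q = 0 ↔ MvPolynomial.C π ∣ Q := by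
  rw [← mp_ker hρ hπ]
  exact (map_eq_zero (algebraMap (RF (Option σ) κ) Ω)).trans
    (map_eq_zero_iff _ (IsFractionRing.injective _ _))

theorem te0_sep {A L : Type} [CommRing A] [Field L] (f : A →+* L) {Θ : A} {χ : A[X]}
    (hb : Bez χ Θ) (h : f Θ ≠ 0) : (χ.map f).Separable := by
  obtain ⟨r, α, β, e⟩ := hb.map f
  refine ⟨Polynomial.C (f Θ ^ r)⁻¹ * α, Polynomial.C (f Θ ^ r)⁻¹ * β, ?_⟩
  rw [mul_assoc, mul_assoc, ← mul_add, ← e, ← map_mul, inv_mul_cancel₀ (pow_ne_zero r h), map_one]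

theorem XH.exists_genR (h : XH π ρ c₀ c θ) : ∃ (v : Vl F) (θ₀ : OB (Option σ) κ)
    (ρ₀ : v.integer →+* OB (Option σ) κ), GenR K π ρ θ v θ₀ ρ₀ := by
  obtain ⟨v, hv⟩ := h.exists
  obtain ⟨z, hz⟩ := IsAlgClosed.exists_root
    (c₀.χ.map ((toE (MP (Option σ) κ) (OB (Option σ) κ)).comp (MvPolynomial.map ρ))) (by
      rw [c₀.monic.degree_map, Polynomial.degree_eq_natDegree c₀.monic.ne_zero, c₀.deg]
      exact Nat.cast_ne_zero.2 c₀.pos.ne')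
  rw [Polynomial.IsRoot, Polynomial.eval_map] at hz
  obtain ⟨ρ₀, h1, h2, h3⟩ := h.red_ex hv.1 (te0_ker h.ker h.irr) hz
  exact ⟨v, z, ρ₀, hv, h1, h2, h3⟩

/-- `XH.le`, `XH.root` -/
theorem GenR.root (g : GenR K π ρ θ v θ₀ ρ₀) (h : XH π ρ c₀ c θ) :
    c₀.χ.eval₂ ((toE (MP (Option σ) κ) _).comp (MvPolynomial.map ρ)) θ₀ = 0 :=
  g.th ⟨θ, h.le g.cen.1⟩ rfl ▸ h.root g.cen.1 g.base rfl

/-- `XH.red_ext` -/
theorem GenR.fix (g : GenR K π ρ θ v θ₀ ρ₀) (h : XH π ρ c₀ c θ)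
    {γ : OB (Option σ) κ ≃+* OB (Option σ) κ} (h1 : ∀ Q : MP (Option σ) O,
      γ (toE (MP (Option σ) κ) _ (MvPolynomial.map ρ Q)) =
        toE (MP (Option σ) κ) _ (MvPolynomial.map ρ Q)) (h2 : γ θ₀ = θ₀) (x : v.integer) :
    γ (ρ₀ x) = ρ₀ x :=
  RingHom.congr_fun (h.red_ext (ρ' := (γ : OB (Option σ) κ →+* OB (Option σ) κ).comp ρ₀) g.cen.1
    g.red (fun Q u e => by rw [RingHom.comp_apply, g.base Q u e]; exact h1 Q)
    fun u e => by rw [RingHom.comp_apply, g.th u e]; exact h2) x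

omit [IsAlgClosed κ] in
/-- `nr_add`, `nr_zero`, `nr_uniq` -/
theorem resAt_tors {Ω : Type} [Field Ω] [IsAlgClosed Ω] [CharZero F] {ρ' : v.integer →+* Ω}
    (hv : Nrm v) (hρ : IsRed v ρ') {γ : Ω ≃+* Ω} (hγ : ∀ x, γ (ρ' x) = ρ' x)
    {q : AddCircle (1 : ℚ)} (h : ResAt v ρ' a γ q) {N : ℕ} (ha : N • a = 0) : N • q = 0 := by
  have k : ∀ n : ℕ, ResAt v ρ' (n • a) γ (n • q) := fun n => by
    induction n with
    | zero => rw [zero_nsmul a, zero_nsmul q]; exact nr_zero hv hρ hγ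
    | succ n ih => rw [succ_nsmul a, succ_nsmul q]; exact nr_add hv ih h
  exact nr_uniq hv (ha ▸ k N) (nr_zero hv hρ hγ)

/-- the field cut out by the residue inside the residue field of a tame cover -/
theorem GenR.exists_E0 (hT : TZP) (hs : FinB κ s) (g : GenR K π ρ θ v θ₀ ρ₀) (h : XH π ρ c₀ c θ)
    (hδ : IsUnit (c₀.δ.factorial : O)) {Θ : MP (Option σ) O} {r : ℕ} (hΘ : c₀.br ∣ Θ ^ r)
    (h0 : ¬MvPolynomial.C π ∣ Θ) (T : TRep π c.br F a) {N : ℕ} (hN : IsUnit (N : O))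
    (ha : N • a = 0) : HasRes v a ∧ ∃ E₀ : IntermediateField (RF (Option σ) κ) (OB (Option σ) κ),
      FiniteDimensional (RF (Option σ) κ) E₀ ∧ IsGalois (RF (Option σ) κ) E₀ ∧
      (Nat.card (E₀ ≃ₐ[RF (Option σ) κ] E₀) : κ) ≠ 0 ∧
      UnrOff (RF (Option σ) κ) (toE (MP (Option σ) κ) E₀) (Θ.map ρ) ∧ θ₀ ∈ E₀ ∧
      ∀ γ : OB (Option σ) κ ≃+* OB (Option σ) κ, (∀ x ∈ E₀, γ x = x) → ResAt v ρ₀ a γ 0 := by
  have : CharZero F :=
    charZero_of_injective_ringHom ((toE (MP (Option σ) K) F).comp MvPolynomial.C).injective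
  have : FiniteDimensional F T.E := FiniteDimensional.right (RF (Option σ) K) F T.E
  have : IsGalois F T.E := IsGalois.tower_top_of_isGalois (RF (Option σ) K) F T.E
  obtain ⟨p, -, hp, _, -⟩ := hs.ex
  have : CharP (RF (Option σ) κ) p := charP_of_injective_ringHom
    ((algebraMap (MP (Option σ) κ) (RF (Option σ) κ)).comp MvPolynomial.C).injective p
  have hu : ∀ n : ℕ, IsUnit (n : O) → ¬p ∣ n := fun n hn hd =>
    (hn.map ρ).ne_zero (by rw [map_natCast, CharP.cast_eq_zero_iff κ p]; exact hd)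
  obtain ⟨hP, hF⟩ := mp_prime (ι := Option σ) h.irr
  obtain ⟨hb, r', hD⟩ := c₀.bez_of hΘ
  have hv := g.cen.nrm
  obtain ⟨w, ho⟩ := lv_exists (E := T.E) v
  have e0 : ∀ Q, gO O K (Option σ) T.E Q = algebraMap F T.E (gO O K (Option σ) F Q) := fun Q =>
    IsScalarTower.algebraMap_apply _ _ _ _
  have hw : Cen (gO O K (Option σ) T.E) w (MvPolynomial.C π) :=
    (RingHom.ext e0 : _ = (algebraMap F T.E).comp _) ▸ (cen_of_over ho).2 g.cen.1
  obtain ⟨v', hv', h1, hi⟩ := exists_cen1 h.irr h.map h.ff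
    (fun d => h0 (hP.dvd_of_dvd_pow (d.trans hD))) hw
  rw [h.eq g.cen hv'] at hi
  obtain ⟨R, -⟩ := T.rdat h.irr hw h1 hi
  obtain ⟨ρW, hρW, hc⟩ := nv_redext ho g.red
  have h2 : RedA (gO O K (Option σ) T.E) ρW
      ((toE (MP (Option σ) κ) (OB (Option σ) κ)).comp (MvPolynomial.map ρ)) := fun Q y e =>
    (hc ⟨_, g.cen.1.1 Q⟩ y (e.trans (e0 Q))).trans (g.base Q _ rfl)
  have hW : ∀ γ : OB (Option σ) κ ≃ₐ[RF (Option σ) κ] OB (Option σ) κ, ∀ x ∈ ρW.range,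
      γ x ∈ ρW.range := by
    rintro γ _ ⟨y, rfl⟩
    obtain ⟨d, hd, cd⟩ := exists_dec (K := RF (Option σ) K) hρW
      (γ : OB (Option σ) κ →+* OB (Option σ) κ) fun x y e => by
        obtain ⟨a', b, hb, e1⟩ := gau_desc (frc_gO O K (Option σ)) hP hF
          (v := w.comap (algebraMap (RF (Option σ) K) T.E)) hw (x := x) (e ▸ y.2 :)
        have e2 : y * ⟨_, hw.1 b⟩ = ⟨_, hw.1 a'⟩ := Subtype.ext (by
          have := congrArg (algebraMap (RF (Option σ) K) T.E) e1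
          rw [map_mul, ← e] at this
          exact this)
        have e3 := congrArg ρW e2
        rw [map_mul, h2 b ⟨_, hw.1 b⟩ rfl, h2 a' ⟨_, hw.1 a'⟩ rfl,
          ← eq_div_iff (mt (te0_ker h.ker h.irr b).1 hb)] at e3
        rw [e3, map_div₀]
        exact congrArg₂ _ (γ.commutes _) (γ.commutes _)
    exact ⟨⟨d y, (hd y).trans_le y.2⟩, cd y _ rfl⟩
  have hθ : θ₀ ∈ ρW.range := ⟨⟨_, (ho θ).2 (h.le g.cen.1)⟩,
    (hc ⟨θ, h.le g.cen.1⟩ _ rfl).trans (g.th _ rfl)⟩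
  have hm : minpoly (RF (Option σ) κ) θ₀ ∣
      c₀.χ.map ((toE (MP (Option σ) κ) (RF (Option σ) κ)).comp (MvPolynomial.map ρ)) :=
    minpoly.dvd _ _ (by rw [Polynomial.aeval_def, Polynomial.eval₂_map]; exact g.root h)
  have ez : ∀ i : {d : T.E ≃ₐ[F] T.E // d ∈ Dec F w ∧ d ∉ Ine F w}, ∃ y : w.integer,
      ¬w (i.1 y - y) < 1 := fun i => by
    by_contra hn
    exact i.2.2 ⟨i.2.1, fun x hx => not_not.1 (not_exists.1 hn ⟨x, hx⟩)⟩
  choose y hy using ez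
  obtain ⟨S, s1, s2, s3, s4⟩ := exists_sep_set hp ρW.range hW hθ
    ((te0_sep _ hb (mt (te0_ker h.ker h.irr Θ).1 h0)).of_dvd hm) (fun i => ρW (y i))
    fun i => ⟨_, rfl⟩
  have fx : ∀ γ : OB (Option σ) κ ≃ₐ[RF (Option σ) κ] OB (Option σ) κ, γ θ₀ = θ₀ →
      ∀ x, γ.toRingEquiv (ρ₀ x) = ρ₀ x := fun γ e => g.fix h (fun _ => γ.commutes _) e
  obtain ⟨E₀, _, _, k1, k2, k3, k4⟩ := e0_field hp (hu N hN) s1 (fun x hx => (s2 x hx).2) s3
    (((Polynomial.natDegree_le_of_dvd hm (c₀.monic.map _).ne_zero).trans_eq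
      ((c₀.monic.natDegree_map _).trans c₀.deg)).trans_lt
        (not_le.1 (mt hp.dvd_factorial.2 (hu _ hδ))))
    (fun γ q => ResAt v ρ₀ a γ.toRingEquiv q ∧ γ θ₀ = θ₀)
    (fun γ e => (nr_exists ⟨R.rd⟩ g.red (fx γ e)).imp fun _ k => ⟨k, e⟩)
    (fun γ q q' k k' => nr_uniq hv k.1 k'.1)
    (fun γ γ' q q' k k' => ⟨nr_mul hv k.1 k'.1, by rw [AlgEquiv.mul_apply, k'.2, k.2]⟩)
    (fun γ q k => resAt_tors hv g.red (fx γ k.2) k.1 ha) fun γ e => ⟨by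
      obtain ⟨d, hd, cd⟩ := exists_dec (K := F) hρW (γ : OB (Option σ) κ →+* OB (Option σ) κ)
        fun x u eu => by
          rw [hc ⟨x, (ho x).1 (eu ▸ u.2 :)⟩ u eu]
          exact fx γ (e _ s1) _
      have hI : d ∈ Ine F w := by_contra fun hn => hy ⟨d, hd, hn⟩ ((hρW
        (⟨d (y ⟨d, hd, hn⟩), (hd _).trans_le (y _).2⟩ - y ⟨d, hd, hn⟩)).1 (by
          rw [map_sub, cd _ _ rfl]
          exact sub_eq_zero.2 (s4 γ e _)))
      exact (nr_lam hv R.rd).2 d hI ▸ R.resAt hρW hc hd cd, e _ s1⟩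
  have hG : (Nat.card (E₀ ≃ₐ[RF (Option σ) κ] E₀) : κ) ≠ 0 := mt (CharP.cast_eq_zero_iff κ p _).1 k1
  refine ⟨⟨R.rd⟩, E₀, ‹_›, ‹_›, hG, e0_unr hT h.irr h.ker (unrOff_mono (n := r) ?_ T.unr) T.tame hw
    hρW h2 E₀ hG (k3.trans (IntermediateField.adjoin.mono _ _ _ fun x hx => (s2 x hx).1)), k2,
    fun γ hγ => (k4 (AlgEquiv.ofRingEquiv (f := γ) fun b => hγ _ (E₀.algebraMap_mem b)) hγ).1⟩
  rw [h.map.br, ← map_pow]
  exact map_dvd _ hΘ

end Pool.Agent.ZCy
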