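import Pool.Agent.Lib.MP_751085_ag.ZC.T.Dual

/-! The Galois closure of the field cut out by a character. -/

namespace Pool.Agent.ZCy

open scoped Classical

theorem te0a_orbit {B M : Type} [Field B] [Field M] [Algebra B M] {x : M} (hx : IsIntegral B x) :
    MulAction.orbit (M ≃ₐ[B] M) x ⊆ (((minpoly B x).aroots M).toFinset : Set M) := by
  rintro _ ⟨g, rfl⟩
  rw [← Polynomial.rootSet_def, Polynomial.mem_rootSet_of_ne (minpoly.ne_zero hx),
    ← minpoly.algEquiv_eq g x]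
  exact minpoly.aeval B _

theorem te0a_card {B M : Type} [Field B] [Field M] [Algebra B M] {x : M} (hx : IsIntegral B x) :
    Nat.card (MulAction.orbit (M ≃ₐ[B] M) x) ≤ (minpoly B x).natDegree :=
  (Set.ncard_le_ncard (te0a_orbit hx)).trans ((Set.ncard_coe_finset _).trans_le
    ((Multiset.toFinset_card_le _).trans ((Polynomial.card_roots' _).trans
      Polynomial.natDegree_map_le)))

/-- the fixed field of the normal core inside the Galois extension generated by `S` -/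
theorem e0_field {B Ω A : Type} [Field B] [Field Ω] [Algebra B Ω] [IsAlgClosure B Ω]
    [AddCommGroup A] {p m : ℕ} (hp : p.Prime) (hm : ¬p ∣ m) {θ₀ : Ω} {S : Finset Ω} (hθ : θ₀ ∈ S)
    (hsep : ∀ x ∈ S, IsSeparable B x) (hst : ∀ γ : Ω ≃ₐ[B] Ω, ∀ x ∈ S, γ x ∈ S)
    (hδ : (minpoly B θ₀).natDegree < p) (V : (Ω ≃ₐ[B] Ω) → A → Prop)
    (ex : ∀ γ, γ θ₀ = θ₀ → ∃ q, V γ q) (uniq : ∀ γ q q', V γ q → V γ q' → q = q')
    (mul : ∀ γ γ' q q', V γ q → V γ' q' → V (γ * γ') (q + q')) (tors : ∀ γ q, V γ q → m • q = 0)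
    (triv : ∀ γ, (∀ x ∈ S, γ x = x) → V γ 0) :
    ∃ E₀ : IntermediateField B Ω, FiniteDimensional B E₀ ∧ IsGalois B E₀ ∧
      ¬p ∣ Nat.card (E₀ ≃ₐ[B] E₀) ∧ θ₀ ∈ E₀ ∧ E₀ ≤ IntermediateField.adjoin B (S : Set Ω) ∧
      ∀ γ : Ω ≃ₐ[B] Ω, (∀ x ∈ E₀, γ x = x) → V γ 0 := by
  have h1 : FiniteDimensional B (IntermediateField.adjoin B (S : Set Ω)) :=
    IntermediateField.finiteDimensional_adjoin fun x hx => (hsep x hx).isIntegral
  have h2 : Normal B (IntermediateField.adjoin B (S : Set Ω)) :=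
    IntermediateField.normal_iff_forall_map_le'.2 fun σ => by
      rw [IntermediateField.adjoin_map]
      exact IntermediateField.adjoin.mono _ _ _ (Set.image_subset_iff.2 fun x hx => hst σ x hx)
  have h3 := (IntermediateField.isSeparable_adjoin_iff_isSeparable B Ω).2 hsep
  have hM : ∀ x ∈ S, x ∈ IntermediateField.adjoin B (S : Set Ω) :=
    IntermediateField.subset_adjoin B _
  generalize IntermediateField.adjoin B (S : Set Ω) = M at *
  have : IsGalois B M := {}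
  obtain ⟨r, s, hr, hs⟩ : ∃ (r : (Ω ≃ₐ[B] Ω) →* (M ≃ₐ[B] M)) (s : _ → _),
      (∀ γ (x : M), (r γ x : Ω) = γ x) ∧ ∀ g, r (s g) = g :=
    ⟨_, _, AlgEquiv.restrictNormalHom_apply M,
      Function.surjInv_eq (AlgEquiv.restrictNormalHom_surjective Ω)⟩
  have tr : ∀ γ γ' q, r γ = r γ' → V γ q → V γ' q := fun γ γ' q e h => by
    have := mul _ _ _ _ h (triv (γ⁻¹ * γ') fun x hx => by
      rw [← hr _ ⟨x, hM x hx⟩, map_mul, map_inv, e, inv_mul_cancel]; rfl)
    rwa [mul_inv_cancel_left, add_zero] at this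
  obtain ⟨x, rfl⟩ : ∃ x : M, x = θ₀ := ⟨⟨θ₀, hM _ hθ⟩, rfl⟩
  have key : ∀ g : M ≃ₐ[B] M, g • x = x → ∃ q, V (s g) q := fun g hg =>
    ex _ ((hr _ x).symm.trans (by rw [hs]; exact congrArg Subtype.val hg))
  choose! lam hlam using key
  have hl : ∀ g h : M ≃ₐ[B] M, g • x = x → h • x = x → lam (g * h) = lam g + lam h :=
    fun g h hg hh => uniq _ _ _ (hlam _ (by rw [mul_smul, hh, hg]))
      (tr _ _ _ (by rw [map_mul, hs, hs, hs]) (mul _ _ _ _ (hlam g hg) (hlam h hh)))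
  obtain ⟨N, hN, h4, h5⟩ := grp_core x lam hl hp hm (fun g hg => tors _ _ (hlam g hg))
    ((te0a_card (Algebra.IsIntegral.isIntegral x)).trans_lt
      (by rwa [IntermediateField.minpoly_eq]))
  let e := IntermediateField.liftAlgEquiv (IntermediateField.fixedField N)
  refine ⟨IntermediateField.lift (IntermediateField.fixedField N),
    Module.Finite.equiv e.toLinearEquiv, IsGalois.of_algEquiv e, ?_,
    (IntermediateField.mem_lift x).2 fun g => (h5 g g.2).1, IntermediateField.lift_le _,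
    fun γ hγ => ?_⟩
  · rwa [← Nat.card_congr ((IsGalois.normalAutEquivQuotient N).trans e.autCongr).toEquiv]
  · have : r γ ∈ N := by
      rw [← IntermediateField.fixingSubgroup_fixedField N, IntermediateField.mem_fixingSubgroup_iff]
      exact fun y hy => Subtype.ext ((hr γ y).trans (hγ _ ((IntermediateField.mem_lift y).2 hy)))
    exact tr _ _ _ (hs _) ((h5 _ this).2 ▸ hlam _ (h5 _ this).1)

/-- a power of an algebraic element is separable -/
theorem exists_pow_sep {B Ω : Type} [Field B] [Field Ω] [Algebra B Ω] [Algebra.IsAlgebraic B Ω]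
    {p : ℕ} (hp : p.Prime) [CharP B p] (x : Ω) : ∃ n : ℕ, IsSeparable B (x ^ p ^ n) := by
  have := Fact.mk hp
  have : CharP (separableClosure B Ω) p := charP_of_injective_algebraMap' B p
  obtain ⟨n, y, hy⟩ := IsPurelyInseparable.pow_mem (separableClosure B Ω) p x
  exact ⟨n, hy ▸ mem_separableClosure_iff.1 y.2⟩

/-- a finite stable set of separable elements that controls finitely many elements -/
theorem exists_sep_set {B Ω I : Type} [Field B] [Field Ω] [Algebra B Ω] [Algebra.IsAlgebraic B Ω]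
    [Finite I] {p : ℕ} (hp : p.Prime) [CharP B p] (W : Subring Ω)
    (hW : ∀ γ : Ω ≃ₐ[B] Ω, ∀ x ∈ W, γ x ∈ W) {θ₀ : Ω} (h0 : θ₀ ∈ W) (hθ : IsSeparable B θ₀)
    (z : I → Ω) (hz : ∀ i, z i ∈ W) : ∃ S : Finset Ω, θ₀ ∈ S ∧ (∀ x ∈ S, x ∈ W ∧ IsSeparable B x) ∧
      (∀ γ : Ω ≃ₐ[B] Ω, ∀ x ∈ S, γ x ∈ S) ∧
      ∀ γ : Ω ≃ₐ[B] Ω, (∀ x ∈ S, γ x = x) → ∀ i, γ (z i) = z i := by
  have := Fact.mk hp
  have : CharP Ω p := charP_of_injective_algebraMap' B p
  choose n hn using fun i => exists_pow_sep (B := B) hp (z i)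
  let y : Option I → Ω := fun o => o.elim θ₀ fun i => z i ^ p ^ n i
  have hy : ∀ o, y o ∈ W ∧ IsSeparable B (y o) := fun o =>
    o.rec ⟨h0, hθ⟩ fun i => ⟨pow_mem (hz i) _, hn i⟩
  have hf : (⋃ o, MulAction.orbit (Ω ≃ₐ[B] Ω) (y o)).Finite := Set.finite_iUnion fun o =>
    (Finset.finite_toSet _).subset (te0a_orbit (hy o).2.isIntegral)
  have hm : ∀ x, x ∈ hf.toFinset ↔ ∃ o, ∃ g : Ω ≃ₐ[B] Ω, g (y o) = x := fun x =>
    hf.mem_toFinset.trans Set.mem_iUnion
  refine ⟨hf.toFinset, (hm _).2 ⟨none, 1, rfl⟩, fun x hx => ?_, fun γ x hx => ?_,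
    fun γ hγ i => ?_⟩
  · obtain ⟨o, g, rfl⟩ := (hm x).1 hx
    exact ⟨hW g _ (hy o).1, g.isSeparable_iff.2 (hy o).2⟩
  · obtain ⟨o, g, rfl⟩ := (hm x).1 hx
    exact (hm _).2 ⟨o, γ * g, rfl⟩
  · exact (iterateFrobenius Ω p (n i)).injective
      ((map_pow γ _ _).symm.trans (hγ _ ((hm _).2 ⟨some i, 1, rfl⟩)))

end Pool.Agent.ZCy
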