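import Pool.Agent.Lib.MP_751085_ag.ZC.T.Need
import Pool.Agent.Lib.MP_751085_ag.ZC.T.Gau
import Pool.Agent.Lib.MP_751085_ag.ZC.T.Cf

/-! Finite extensions of local fields. -/

namespace Pool.Agent.ZCy

open scoped Classical WithZero Polynomial

variable {O K κ : Type} [CommRing O] [IsDomain O] [CDVR O] [Field K] [CharZero K] [Algebra O K]
  [IsFractionRing O K] [Field κ] [IsAlgClosed κ] {s : ℕ} {ρ : O →+* κ}

theorem tlex_rng {k Ω : Type} [Field k] [Finite k] [Field Ω] (i : k →+* Ω) (x : Ω) :
    x ∈ i.range ↔ x ^ Nat.card k = x := by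
  have := Fintype.ofFinite k
  rw [Nat.card_eq_fintype_card]
  constructor
  · rintro ⟨a, rfl⟩
    rw [← map_pow, FiniteField.pow_card]
  · intro hx
    refine root_mem_range i (h := Polynomial.X ^ Fintype.card k - Polynomial.X)
      (FiniteField.X_pow_card_sub_X_ne_zero k Fintype.one_lt_card) ?_ ?_
    · rw [Polynomial.splits_iff_card_roots, FiniteField.roots_X_pow_card_sub_X,
        FiniteField.X_pow_card_sub_X_natDegree_eq k Fintype.one_lt_card]
      rfl
    · rw [Polynomial.eval₂_sub, Polynomial.eval₂_X_pow, Polynomial.eval₂_X, hx, sub_self]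

theorem tlex_lres {A Ω : Type} [CommRing A] [IsLocalRing A] [Finite (IsLocalRing.ResidueField A)]
    [Field Ω] (i : IsLocalRing.ResidueField A →+* Ω) :
    LRes (i.comp (IsLocalRing.residue A)) (Nat.card (IsLocalRing.ResidueField A)) := by
  refine ⟨fun a => ?_, fun x => ?_⟩
  · rw [RingHom.comp_apply, map_eq_zero, IsLocalRing.residue_eq_zero_iff,
      IsLocalRing.mem_maximalIdeal, mem_nonunits_iff]
  · rw [← tlex_rng i x]
    constructor
    · rintro ⟨a, rfl⟩
      exact ⟨_, rfl⟩
    · rintro ⟨a, rfl⟩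
      obtain ⟨b, rfl⟩ := IsLocalRing.residue_surjective a
      exact ⟨b, rfl⟩

theorem tlex_res {A Ω : Type} [CommRing A] [IsLocalRing A] [Field Ω] [IsAlgClosed Ω] {s : ℕ}
    {ρ : A →+* Ω} (hs : FinB Ω s) (hρ : LRes ρ s) :
    ∃ i : IsLocalRing.ResidueField A →+* Ω, (∀ a, i (IsLocalRing.residue A a) = ρ a) ∧
      Nat.card (IsLocalRing.ResidueField A) = s ∧ Finite (IsLocalRing.ResidueField A) := by
  have : IsLocalHom ρ := ⟨fun a ha => by
    by_contra h
    exact ha.ne_zero ((hρ.ker a).2 h)⟩
  have h1 : ∀ a, IsLocalRing.ResidueField.lift ρ a ^ s = IsLocalRing.ResidueField.lift ρ a := by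
    intro a
    obtain ⟨b, rfl⟩ := IsLocalRing.residue_surjective a
    exact (hρ.rng _).1 ⟨b, rfl⟩
  have h2 : Nat.card (IsLocalRing.ResidueField A) = s := by
    rw [← hs.card]
    refine Nat.card_congr (Equiv.ofBijective
      (fun a => (⟨IsLocalRing.ResidueField.lift ρ a, h1 a⟩ : {z : Ω // z ^ s = z})) ⟨?_, ?_⟩)
    · intro a b h
      exact (IsLocalRing.ResidueField.lift ρ).injective (congrArg Subtype.val h)
    · rintro ⟨z, hz⟩
      obtain ⟨b, rfl⟩ := (hρ.rng z).2 hz
      exact ⟨IsLocalRing.residue A b, rfl⟩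
  refine ⟨IsLocalRing.ResidueField.lift ρ, fun _ => rfl, h2, Nat.finite_of_card_ne_zero ?_⟩
  have := hs.one_lt
  omega

/-- `κ` is the algebraic closure of the residue field; `FiniteField.card`,
`FiniteField.pow_card`; the range has `s` elements, all roots of `X ^ s - X` -/
theorem exists_finB (O : Type) [CommRing O] [IsLocalRing O] [Finite (IsLocalRing.ResidueField O)] :
    ∃ (κ : Type) (_ : Field κ) (_ : IsAlgClosed κ) (s : ℕ) (ρ : O →+* κ), FinB κ s ∧ LRes ρ s :=
  by
  have := Fintype.ofFinite (IsLocalRing.ResidueField O)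
  obtain ⟨p, hp, n, hpp, hn⟩ := FiniteField.card' (IsLocalRing.ResidueField O)
  refine ⟨AlgebraicClosure (IsLocalRing.ResidueField O), inferInstance, inferInstance,
    Nat.card (IsLocalRing.ResidueField O), (algebraMap _ _).comp (IsLocalRing.residue O),
    ⟨⟨p, n, hpp, charP_of_injective_algebraMap (algebraMap (IsLocalRing.ResidueField O) _).injective p,
      n.pos, by rw [Nat.card_eq_fintype_card, hn]⟩, fun x => ?_⟩, tlex_lres _⟩
  have hx : IsIntegral (IsLocalRing.ResidueField O) x := Algebra.IsIntegral.isIntegral x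
  have := IntermediateField.adjoin.finiteDimensional hx
  have : Finite (IntermediateField.adjoin (IsLocalRing.ResidueField O) {x}) :=
    Module.finite_of_finite (IsLocalRing.ResidueField O)
  refine ⟨Module.finrank (IsLocalRing.ResidueField O)
    (IntermediateField.adjoin (IsLocalRing.ResidueField O) {x}), Module.finrank_pos, ?_⟩
  rw [← Module.natCard_eq_pow_finrank]
  exact (tlex_rng (algebraMap (IntermediateField.adjoin (IsLocalRing.ResidueField O) {x}) _) x).1
    ⟨⟨x, IntermediateField.mem_adjoin_simple_self _ x⟩, rfl⟩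

omit [CharZero K] in
theorem tlex_mk (hs : FinB κ s) (hρ : LRes ρ s) (L : Type) [Field L] [Algebra K L] (R : Type)
    [CommRing R] [IsDomain R] [CDVR R] [Algebra O R] [Module.Finite O R] [Algebra R L]
    [IsFractionRing R L] [Algebra O L] [IsScalarTower O R L] [IsScalarTower O K L] :
    Nonempty (LExt K ρ s L) := by
  obtain ⟨i, hi, hc, hf⟩ := tlex_res hs hρ
  have := FaithfulSMul.of_field_isFractionRing O R K L
  have : IsLocalHom (algebraMap O R) := inferInstance
  have : Module.Finite (IsLocalRing.ResidueField O) (IsLocalRing.ResidueField R) := inferInstance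
  have : Finite (IsLocalRing.ResidueField R) := Module.finite_of_finite (IsLocalRing.ResidueField O)
  obtain ⟨j, hj⟩ := exists_hom_ext (Ω := IsLocalRing.ResidueField R) i
  obtain ⟨π, hπ⟩ := IsDiscreteValuationRing.exists_irreducible O
  obtain ⟨π₁, hπ₁⟩ := IsDiscreteValuationRing.exists_irreducible R
  have h0 : algebraMap O R π ≠ 0 := fun h =>
    hπ.ne_zero (FaithfulSMul.algebraMap_injective O R (h.trans (map_zero _).symm))
  obtain ⟨n, hn⟩ := IsDiscreteValuationRing.associated_pow_irreducible h0 hπ₁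
  have hmap : Ideal.map (algebraMap O R) (IsLocalRing.maximalIdeal O) =
      IsLocalRing.maximalIdeal R ^ n := by
    rw [hπ.maximalIdeal_eq, hπ₁.maximalIdeal_eq, Ideal.map_span, Set.image_singleton,
      Ideal.span_singleton_pow, Ideal.span_singleton_eq_span_singleton]
    exact hn
  have he : Ideal.ramificationIdx' (IsLocalRing.maximalIdeal O) (IsLocalRing.maximalIdeal R) = n := by
    refine Ideal.ramificationIdx'_spec hmap.le ?_
    rw [hmap]
    exact (Ideal.pow_succ_lt_pow (IsDiscreteValuationRing.not_a_field R) n).not_ge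
  have hd := Ideal.ramificationIdx_mul_inertiaDeg_of_isLocalRing R K L
    (IsDiscreteValuationRing.not_a_field O)
  rw [he, Ideal.inertiaDeg'_algebraMap] at hd
  refine ⟨{ R := R, ρ := j.comp (IsLocalRing.residue R), e := n,
            f := Module.finrank (IsLocalRing.ResidueField O) (IsLocalRing.ResidueField R),
            tow := fun a => ?_, res := ?_, cmp := fun a => ?_, fpos := Module.finrank_pos,
            idx := fun π' π₁' h h₁ => ?_, deg := hd }⟩
  · rw [← IsScalarTower.algebraMap_apply, ← IsScalarTower.algebraMap_apply]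
  · rw [← hc, ← Module.natCard_eq_pow_finrank]
    exact tlex_lres j
  · rw [← hi, ← hj]
    rfl
  · exact (((IsDiscreteValuationRing.associated_of_irreducible O h hπ).map (algebraMap O R)).trans
      hn).trans (IsDiscreteValuationRing.associated_of_irreducible R hπ₁ h₁).pow_pow

/-- `R = integralClosure O L` (`nv_cdvr`, `IsIntegralClosure.finite`), the residue field of `R` is
finite over that of `O`, of degree `f`; embed it into `κ`;
`Ideal.ramificationIdx_mul_inertiaDeg_of_isLocalRing` -/
theorem exists_lext (hs : FinB κ s) (hρ : LRes ρ s) (L : Type) [Field L] [Algebra K L]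
    [FiniteDimensional K L] : Nonempty (LExt K ρ s L) := by
  let : Algebra O L := ((algebraMap K L).comp (algebraMap O K)).toAlgebra
  have : IsScalarTower O K L := IsScalarTower.of_algebraMap_eq fun _ => rfl
  have := (nv_cdvr (K := K) (E := L) O).1
  have : IsFractionRing (integralClosure O L) L :=
    integralClosure.isFractionRing_of_finite_extension K L
  have : Module.Finite O (integralClosure O L) := IsIntegralClosure.finite O K L _
  exact tlex_mk hs hρ L (integralClosure O L)

omit [IsDomain O] [CDVR O] [CharZero K] [IsFractionRing O K] [IsAlgClosed κ] in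
theorem tlex_int {L : Type} [Field L] [Algebra K L] (Y : LExt K ρ s L) {P : O[X]} (hP : P.Monic)
    {x : L} (hx : P.eval₂ ((algebraMap K L).comp (algebraMap O K)) x = 0) :
    ∃ y : Y.R, algebraMap Y.R L y = x := by
  refine IsIntegrallyClosed.isIntegral_iff.1 ⟨P.map (algebraMap O Y.R), hP.map _, ?_⟩
  rw [Polynomial.eval₂_map, ← hx]
  congr 1
  exact RingHom.ext Y.tow

/-- Let `z` generate the field of the roots of `X ^ s ^ m - X` over the range of `ρ`
(`Field.exists_primitive_element`, or a generator of the cyclic group of units); its minimal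
polynomial has degree `m`; lift it to a monic `P` over `O`, irreducible over `O`, so over `K`;
`L = AdjoinRoot P`. For `Y` from `exists_lext` the residue of the root is a conjugate of `z`, so
`m ≤ Y.f`, and `Y.e * Y.f = m`. -/
theorem exists_unx (hs : FinB κ s) (hρ : LRes ρ s) {m : ℕ} (hm : 0 < m) :
    ∃ (L : Type) (_ : Field L) (_ : Algebra K L) (_ : FiniteDimensional K L) (Y : LExt K ρ s L),
      Y.e = 1 ∧ Y.f = m := by
  obtain ⟨i, hi, hc, hf⟩ := tlex_res hs hρ
  obtain ⟨p, hp⟩ := CharP.exists (IsLocalRing.ResidueField O)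
  have : Fact p.Prime := ⟨CharP.char_is_prime (IsLocalRing.ResidueField O) p⟩
  have : NeZero m := ⟨hm.ne'⟩
  obtain ⟨α, hα⟩ := Field.exists_primitive_element_of_finite_top (IsLocalRing.ResidueField O)
    (FiniteField.Extension (IsLocalRing.ResidueField O) p m)
  have hint : IsIntegral (IsLocalRing.ResidueField O) α := Algebra.IsIntegral.isIntegral α
  have hdeg := (Field.primitive_element_iff_minpoly_natDegree_eq _ α).1 hα
  rw [FiniteField.finrank_extension] at hdeg
  have hirr := minpoly.irreducible hint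
  have hmon := minpoly.monic hint
  generalize minpoly (IsLocalRing.ResidueField O) α = g at hdeg hirr hmon
  obtain ⟨P, hPg, hPd, hP⟩ := Polynomial.lifts_and_natDegree_eq_and_monic
    (f := IsLocalRing.residue O) (p := g)
    (Polynomial.mem_lifts_of_surjective IsLocalRing.residue_surjective g) hmon
  have hPi : Irreducible P := hP.irreducible_of_irreducible_map (IsLocalRing.residue O) P
    (hPg ▸ hirr)
  have hK : Irreducible (P.map (algebraMap O K)) :=
    hP.irreducible_iff_irreducible_map_fraction_map.1 hPi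
  have : Fact (Irreducible (P.map (algebraMap O K))) := ⟨hK⟩
  have : FiniteDimensional K (AdjoinRoot (P.map (algebraMap O K))) :=
    (AdjoinRoot.powerBasis hK.ne_zero).finite
  have hrk : Module.finrank K (AdjoinRoot (P.map (algebraMap O K))) = m := by
    rw [(AdjoinRoot.powerBasis hK.ne_zero).finrank, AdjoinRoot.powerBasis_dim, hP.natDegree_map,
      hPd, hdeg]
  obtain ⟨Y⟩ := exists_lext (K := K) hs hρ (AdjoinRoot (P.map (algebraMap O K)))
  have hroot : P.eval₂ ((algebraMap K (AdjoinRoot (P.map (algebraMap O K)))).comp (algebraMap O K))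
      (AdjoinRoot.root _) = 0 := by
    rw [← Polynomial.eval₂_map]
    exact AdjoinRoot.eval₂_root _
  obtain ⟨y, hy⟩ := tlex_int Y hP hroot
  have hy0 : P.eval₂ (algebraMap O Y.R) y = 0 := by
    apply IsFractionRing.injective Y.R (AdjoinRoot (P.map (algebraMap O K)))
    rw [Polynomial.hom_eval₂, hy, map_zero, ← hroot]
    congr 1
    exact RingHom.ext Y.tow
  let : Algebra (IsLocalRing.ResidueField O) κ := i.toAlgebra
  have hz : Polynomial.aeval (Y.ρ y) g = 0 := by
    rw [Polynomial.aeval_def, ← hPg, Polynomial.eval₂_map, ← map_zero Y.ρ, ← hy0,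
      Polynomial.hom_eval₂]
    congr 1
    exact RingHom.ext fun a => (hi a).trans (Y.cmp a).symm
  have hdv : g.natDegree ∣ Y.f := by
    apply hirr.natDegree_dvd_of_dvd_X_pow_card_pow_sub_X
    rw [← hirr.dvd_iff_aeval_eq_zero hz, map_sub, map_pow, Polynomial.aeval_X, hc,
      (Y.res.rng _).1 ⟨y, rfl⟩, sub_self]
  rw [hdeg] at hdv
  have hef := Y.deg
  rw [hrk] at hef
  have hfm : Y.f = m := Nat.dvd_antisymm ⟨Y.e, by rw [← hef, mul_comm]⟩ hdv
  refine ⟨_, inferInstance, inferInstance, inferInstance, Y, ?_, hfm⟩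
  rw [hfm] at hef
  exact Nat.eq_of_mul_eq_mul_right hm (hef.trans (one_mul m).symm)

variable {L : Type} [Field L] [Algebra K L] (Y : LExt K ρ s L)

theorem LExt.inj : Function.Injective (algebraMap O Y.R) := fun a b h => by
  apply IsFractionRing.injective O K
  apply (algebraMap K L).injective
  rw [← Y.tow, ← Y.tow, h]

theorem LExt.loc (hρ : LRes ρ s) : IsLocalHom (algebraMap O Y.R) := ⟨fun a ha => by
  by_contra h
  have h1 := (hρ.ker a).2 h
  rw [← Y.cmp] at h1
  exact (Y.res.ker _).1 h1 ha⟩

theorem LExt.epos : 0 < Y.e := by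
  obtain ⟨π, hπ⟩ := IsDiscreteValuationRing.exists_irreducible O
  obtain ⟨π₁, hπ₁⟩ := IsDiscreteValuationRing.exists_irreducible Y.R
  have : FaithfulSMul O Y.R := (faithfulSMul_iff_algebraMap_injective O Y.R).2 Y.inj
  refine Nat.pos_of_ne_zero fun h => hπ.not_isUnit ?_
  have h1 := Y.idx π π₁ hπ hπ₁
  rw [h, pow_zero, associated_one_iff_isUnit] at h1
  exact isUnit_of_map_unit (algebraMap O Y.R) π h1

omit [IsDomain O] [CDVR O] [CharZero K] [IsFractionRing O K] [IsAlgClosed κ] in
theorem tlex_lift {S : Type} [CommRing S] [Algebra O S] [Algebra.IsIntegral O S] (j : S →+* L)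
    (hj : ∀ a : O, j (algebraMap O S a) = algebraMap K L (algebraMap O K a)) :
    ∃ j₀ : S →+* Y.R, ∀ a, algebraMap Y.R L (j₀ a) = j a := by
  have h : ∀ a : S, ∃ y : Y.R, algebraMap Y.R L y = j a := by
    intro a
    obtain ⟨P, hP, h0⟩ := Algebra.IsIntegral.isIntegral (R := O) a
    refine tlex_int Y hP ?_
    have h1 := congrArg j h0
    rw [Polynomial.hom_eval₂, map_zero] at h1
    rw [← h1]
    congr 1
    exact RingHom.ext fun b => (hj b).symm
  choose φ hφ using h
  have hi := IsFractionRing.injective Y.R L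
  exact ⟨{ toFun := φ
           map_one' := hi (by rw [hφ, map_one, map_one])
           map_mul' := fun a b => hi (by rw [map_mul, hφ, hφ, hφ, map_mul])
           map_zero' := hi (by rw [hφ, map_zero, map_zero])
           map_add' := fun a b => hi (by rw [map_add, hφ, hφ, hφ, map_add]) }, hφ⟩

/-- automorphisms preserve the integers: they are the elements integral over `O` -/
theorem LExt.aut (g : L ≃ₐ[K] L) : ∃ g₀ : Y.R ≃+* Y.R,
    (∀ a, algebraMap Y.R L (g₀ a) = g (algebraMap Y.R L a)) ∧
      ∀ a : O, g₀ (algebraMap O Y.R a) = algebraMap O Y.R a := by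
  have h : ∀ g : L ≃ₐ[K] L, ∃ j₀ : Y.R →+* Y.R,
      ∀ a, algebraMap Y.R L (j₀ a) = g (algebraMap Y.R L a) := fun g =>
    tlex_lift Y ((g : L →+* L).comp (algebraMap Y.R L)) fun a => by
      rw [RingHom.comp_apply, Y.tow]
      exact g.commutes _
  obtain ⟨φ, hφ⟩ := h g
  obtain ⟨ψ, hψ⟩ := h g.symm
  have hi := IsFractionRing.injective Y.R L
  refine ⟨RingEquiv.ofRingHom φ ψ (RingHom.ext fun a => hi ?_) (RingHom.ext fun a => hi ?_),
    hφ, fun a => hi ?_⟩
  · rw [RingHom.comp_apply, hφ, hψ, g.apply_symm_apply, RingHom.id_apply]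
  · rw [RingHom.comp_apply, hψ, hφ, g.symm_apply_apply, RingHom.id_apply]
  · refine (hφ _).trans ?_
    rw [Y.tow]
    exact g.commutes _

/-- a ring that is integral over `O` maps to the integers -/
theorem LExt.lift {S : Type} [CommRing S] [Algebra O S] [Algebra.IsIntegral O S] (j : S →+* L)
    (hj : ∀ a : O, j (algebraMap O S a) = algebraMap K L (algebraMap O K a)) :
    ∃ j₀ : S →+* Y.R, ∀ a, algebraMap Y.R L (j₀ a) = j a := tlex_lift Y j hj

/-- a nonzero vector is proportional to a primitive integral vector -/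
theorem exists_prim {R : Type} [CommRing R] [IsDomain R] [IsDiscreteValuationRing R] [Algebra R L]
    [IsFractionRing R L] {n : ℕ} {x : Fin n → L} (hx : x ≠ 0) : ∃ (u : L) (y : Fin n → R),
      u ≠ 0 ∧ (∀ i, algebraMap R L (y i) = u * x i) ∧ ∃ i, IsUnit (y i) := by
  obtain ⟨i₀, hi₀⟩ := Function.ne_iff.1 hx
  obtain ⟨i, -, hi⟩ := Finset.exists_max_image Finset.univ
    (fun i => ValuationRing.valuation R L (x i)) ⟨i₀, Finset.mem_univ _⟩
  have h0 : x i ≠ 0 := by
    intro h
    have h1 := hi i₀ (Finset.mem_univ _)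
    rw [h, map_zero, le_zero_iff, map_eq_zero] at h1
    exact hi₀ h1
  have h : ∀ k, ∃ y : R, algebraMap R L y = (x i)⁻¹ * x k := by
    intro k
    rw [← ValuationRing.mem_integer_iff, Valuation.mem_integer_iff, map_mul, map_inv₀,
      inv_mul_le_iff₀ (zero_lt_iff.2 ((map_ne_zero _).2 h0)), mul_one]
    exact hi k (Finset.mem_univ _)
  choose y hy using h
  refine ⟨(x i)⁻¹, y, inv_ne_zero h0, hy, i, ?_⟩
  have h1 : y i = 1 := IsFractionRing.injective R L (by rw [hy, inv_mul_cancel₀ h0, map_one])
  rw [h1]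
  exact isUnit_one

end Pool.Agent.ZCy
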