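import Pool.Agent.Lib.MP_751085_ag.ZC.T.Def2
import Pool.Agent.Lib.MP_751085_ag.ZC.T.Lex
import Pool.Agent.Lib.MP_751085_ag.ZC.T.Loc
import Pool.Agent.Lib.MP_751085_ag.ZC.W5
import Pool.Agent.Lib.MP_751085_ag.ZC.UCrv

/-! Cycles of points, unramified extensions, lifts of points of the curve over the line. -/

namespace Pool.Agent.ZCy

open Module Pool.Agent.ZeroCyc IsLocalRing NumberField IsDedekindDomain
open scoped Classical Polynomial

open scoped Pointwise in
theorem tfin_cdvr {k : Type} [Field k] [NumberField k] (v : HeightOneSpectrum (𝓞 k)) :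
    CDVR (v.adicCompletionIntegers k) ∧ Finite (ResidueField (v.adicCompletionIntegers k)) := by
  have hp := U.proper_adic v
  have hc : CompactSpace (v.adicCompletionIntegers k) :=
    Valued.integer.properSpace_iff_compactSpace_integer.1 hp
  refine ⟨{ prec' := fun f hf => ?_, haus' := IsHausdorff.haus inferInstance },
    (Valued.integer.compactSpace_iff_completeSpace_and_isDiscreteValuationRing_and_finite_residueField.1
      hc).2.2⟩
  have : IsTopologicalRing (v.adicCompletionIntegers k) :=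
    inferInstanceAs (IsTopologicalRing (v.adicCompletionIntegers k).toSubring)
  let S n : Set (v.adicCompletionIntegers k) :=
    f n +ᵥ ((maximalIdeal (v.adicCompletionIntegers k) ^ n : Ideal _) : Set _)
  have hS n : S (n + 1) ⊆ S n := by
    apply (Set.vadd_set_subset_vadd_set_iff.mpr (Ideal.pow_le_pow_right n.le_succ)).trans
    simpa [S] using (hf n.le_succ).symm
  have h n : IsClosed (S n) := (IsNoetherianRing.isClosed_ideal (_ ^ n)).vadd (f n)
  obtain ⟨L, hL⟩ := (h 0).isCompact.nonempty_iInter_of_sequence_nonempty_isCompact_isClosed S hS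
    (by simp [S]) h
  refine ⟨L, fun n ↦ ?_⟩
  obtain ⟨y, hy, rfl⟩ := Set.mem_iInter.mp hL n
  simpa [SModEq.sub_mem] using hy

section

variable {k K : Type} [Field k] [CharZero k] [Field K] [CharZero K] [Algebra k K] {X : Var k}

/-- the cycle of a point over a finite extension -/
theorem EvApi.exists_cyc (h : EvApi X) (L : IntermediateField K (AlgebraicClosure K))
    [FiniteDimensional K L] {x : Fin (X.N + 1) → L} (hx : X.On x) : ∃ w : X.Cyc K,
      Var.deg w = finrank K L ∧ X.cyc K w = U.pc (X.JK K) L (fun l => (x l : AlgebraicClosure K)) ∧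
      ∀ a ∈ X.Brauer, Var.pair w a = corF K L (X.val a L x) := by
  obtain ⟨i, hi⟩ := Function.ne_iff.1 hx.1
  have hi' : (x i : AlgebraicClosure K) ≠ 0 := fun e => hi (Subtype.ext e)
  have : IsScalarTower k L (AlgebraicClosure K) := IsScalarTower.of_algebraMap_eq fun _ => rfl
  obtain ⟨p, e, hle, hp⟩ := U.exists_pt (X := X) (L := L)
    (v := fun l => (x l : AlgebraicClosure K)) hi'
    ⟨fun e => hi' (congrFun e i), (U.onX_JK X K _).2 fun G hG => by
      have := MvPolynomial.aeval_algebraMap_apply (AlgebraicClosure K) x G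
      rw [hx.2 G hG, map_zero] at this
      exact this, fun l => (x l).2⟩
  obtain ⟨r, hr⟩ := U.lk2_rk hle
  refine ⟨Finsupp.single p r, by rw [Var.deg_single, ← hr, Nat.cast_mul], (hp r hr).symm,
    fun a ha => ?_⟩
  have e1 := h.val_map a ha _ L ((IntermediateField.inclusion hle).restrictScalars k) _
    (Var.crd_on p)
  have e2 : ((IntermediateField.inclusion hle).restrictScalars k) ∘ Var.crd p = (x i)⁻¹ • x :=
    funext fun l => Subtype.ext (congrFun e l)
  rw [e2, h.val_smul a ha L x _ hx (inv_ne_zero hi)] at e1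
  rw [h.pair_single ha, e1, natCast_zsmul]
  exact (cor_rs (IntermediateField.inclusion hle) hr.symm _).symm

omit [CharZero k] in
theorem EvApi.val_kill (h : EvApi X) {a : BR X.F} (ha : a ∈ X.Brauer) {N : ℕ} (hN : N • a = 0)
    (M : Type) [Field M] [Algebra k M] {x : Fin (X.N + 1) → M} (hx : X.On x) :
    N • X.val a M x = 0 := by
  have e := h.val_nsmul a ha 0 M x hx
  rw [zero_nsmul, zero_nsmul] at e
  rw [← h.val_nsmul a ha N M x hx, hN, e]

variable {O κ : Type} [CommRing O] [IsDomain O] [CDVR O] [Algebra O K] [IsFractionRing O K]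
  [Field κ] [IsAlgClosed κ] {s : ℕ} {ρ : O →+* κ}

theorem Var.CVal.pair (h : EvApi X) (hs : FinB κ s) (hρ : LRes ρ s) {b : BR X.F}
    (hb : b ∈ X.Brauer) {N : ℕ} (hN : IsUnit (N : O)) (h0 : N • b = 0) {q : AddCircle (1 : ℚ)}
    (hq : X.CVal K ρ s b q) (z : X.Cyc K) : LInv K ρ s (Var.pair z b) (Var.deg z • q) := by
  induction z using Finsupp.induction_linear with
  | zero =>
    have e : Var.deg (0 : X.Cyc K) = 0 := rfl
    rw [e, zero_smul]
    exact LInv.zero hs hρ
  | add z z' h1 h2 =>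
    rw [Var.pair_add, Var.deg_add, add_smul]
    exact h1.add hs hρ h2
  | single x n =>
    have : IsScalarTower k K (Var.res x) := IsScalarTower.of_algebraMap_eq fun _ => rfl
    obtain ⟨Y⟩ := exists_lext (K := K) hs hρ (Var.res x)
    rw [h.pair_single hb, Var.deg_single, mul_smul, natCast_zsmul, ← Y.deg]
    exact (LInv.cor hs hρ Y hN (h.val_kill hb h0 _ (Var.crd_on x))
      (hq _ Y _ (Var.crd_on x))).zsmul hs hρ n

theorem tfin_unx (hs : FinB κ s) (hρ : LRes ρ s) {m : ℕ} (hm : 0 < m) :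
    ∃ (L : IntermediateField K (AlgebraicClosure K)) (_ : FiniteDimensional K L)
      (Y : LExt K ρ s L), Y.e = 1 ∧ Y.f = m := by
  obtain ⟨L, _, _, _, Y, h1, h2⟩ := exists_unx (K := K) hs hρ hm
  let u : L →ₐ[K] AlgebraicClosure K := IsAlgClosed.lift
  let e : L ≃ₐ[K] u.fieldRange := u.equivFieldRange
  let _ : Algebra Y.R u.fieldRange := ((e : L →+* _).comp (algebraMap Y.R L)).toAlgebra
  have : IsFractionRing Y.R u.fieldRange := IsLocalization.isLocalization_of_algEquiv _
    (AlgEquiv.ofRingEquiv (f := e.toRingEquiv) fun _ => rfl : L ≃ₐ[Y.R] u.fieldRange)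
  exact ⟨u.fieldRange, e.toLinearEquiv.finiteDimensional,
    { R := Y.R, ρ := Y.ρ, e := Y.e, f := Y.f, res := Y.res, cmp := Y.cmp, fpos := Y.fpos,
      idx := Y.idx, deg := Y.deg.trans e.toLinearEquiv.finrank_eq
      tow := fun a => (congrArg e (Y.tow a)).trans (e.commutes _) }, h1, h2⟩

omit [CharZero K] [IsDomain O] [CDVR O] [IsFractionRing O K] [IsAlgClosed κ] in
theorem LExt.exists_lift {L : Type} [Field L] [Algebra K L] (Y : LExt K ρ s L) {t : κ}
    (ht : t ^ s ^ Y.f = t) {p : K[X]} (hp : p ≠ 0) :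
    ∃ t' : Y.R, Y.ρ t' = t ∧ Polynomial.aeval (algebraMap Y.R L t') p ≠ 0 := by
  obtain ⟨t₀, rfl⟩ := (Y.res.rng t).2 ht
  obtain ⟨π, hπ⟩ := IsDiscreteValuationRing.exists_irreducible Y.R
  by_contra hne
  refine (Polynomial.finite_setOfPred_isRoot
    (Polynomial.map_ne_zero (f := algebraMap K L) hp)).not_infinite
    (Set.infinite_of_injective_forall_mem (f := fun n : ℕ => algebraMap Y.R L (t₀ + π ^ (n + 1)))
      (fun n m e => ?_) fun n => ?_)
  · exact Nat.succ_injective (pow_injective_of_not_isUnit hπ.not_isUnit hπ.ne_zero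
      (add_left_cancel (IsFractionRing.injective Y.R L e)))
  · refine (Polynomial.eval_map_algebraMap _ _).trans (not_not.1 fun h => hne ⟨_, ?_, h⟩)
    rw [map_add, map_pow, (Y.res.ker π).2 hπ.not_isUnit, zero_pow n.succ_ne_zero, add_zero]

variable {σ : Type} [Fintype σ] {Y : Gen k X.N} {f : Fm X.N k} {GG : Set (Fm X.N O)}
  {fO : Fm X.N O} {u : K} {c : Chart O σ X.N GG} {n : ℕ} {a b : Option σ → O} {j₀ : Option σ}
  {Θ : MP (Option σ) O}

/-- lifts of the points of the curve over the line -/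
theorem tfin_curve (hρ : LRes ρ s) (hJ : U.Charts k (AlgebraicClosure K) (Y.var.JK K) n)
    (hf : X.Sec Y f) (hG : X.Model (K := K) GG) (hu : u ≠ 0)
    (hfO : MvPolynomial.map (algebraMap O K) fO =
      MvPolynomial.C u * MvPolynomial.map (algebraMap k K) f) (h : U.Hd c fO Θ a b j₀) :
    ∃ H : AddSubgroup (VV (AlgebraicClosure K) (Y.var.JK K)), U.BddZ H ∧
      ∀ (L : IntermediateField K (AlgebraicClosure K)) [FiniteDimensional K L] (E : LExt K ρ s L)
        (t z : κ), LPt ρ c.χ Θ a b (s ^ E.f) t z → ∃ (y : Option σ → E.R) (ζ : E.R),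
          (ev (algebraMap O E.R) y ζ c.χ = 0 ∧ (∀ j, E.ρ (y j) = tpt ρ a b t j) ∧ E.ρ ζ = z) ∧
          Y.var.On (fun j => algebraMap E.R L (c.pv (algebraMap O E.R) y ζ j)) ∧
          U.pc (Y.var.JK K) L (fun j => (algebraMap E.R L (c.pv (algebraMap O E.R) y ζ j) :
            AlgebraicClosure K)) ∈ H := by
  obtain ⟨H, p, hH, hp, hc⟩ := U.exists_curve (IsFractionRing.injective O K) hJ hf hG hu hfO h
  refine ⟨H, hH, fun L _ E t z hP => ?_⟩
  have : IsScalarTower k K L := IsScalarTower.of_algebraMap_eq fun _ => rfl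
  have := E.loc hρ
  obtain ⟨t', rfl, h3⟩ := E.exists_lift hP.ht hp
  obtain ⟨θ, rfl⟩ := (E.res.rng z).2 hP.hz
  have e1 : E.ρ.comp (algebraMap O E.R) = ρ := RingHom.ext E.cmp
  have e2 : ∀ j, E.ρ (algebraMap O E.R (a j) + algebraMap O E.R (b j) * t') =
      tpt ρ a b (E.ρ t') j := fun j => by
    rw [map_add, map_mul, E.cmp, E.cmp]
    rfl
  obtain ⟨y, ζ, g1, g2, g3, g4, g5⟩ := hc L E.R (algebraMap O E.R) (algebraMap E.R L)
    (RingHom.ext E.tow) t' θ
    ((E.res.ker _).1 (by
      rw [map_ev, e1, funext e2]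
      exact hP.on))
    (not_not.1 fun hn => hP.off (by
      rw [← (E.res.ker _).2 hn, MvPolynomial.eval₂_comp_left, e1, ← funext e2]
      rfl)) h3
  refine ⟨y, ζ, ⟨g3, fun j => ?_, ?_⟩, g4, g5⟩
  · rw [← e2, ← sub_eq_zero, ← map_sub]
    exact (E.res.ker _).2 (g1 j)
  · rw [← sub_eq_zero, ← map_sub]
    exact (E.res.ker _).2 g2

end

end Pool.Agent.ZCy
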