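import Pool.Agent.Lib.MP_751085_ag.ZC.T.Defs

/-! Expansion of a power series along a line through the origin. -/

namespace Pool.Agent.ZCy

open scoped Classical LaurentSeries PowerSeries

/-- `A⟦s, t⟧ → A⟦s⟧⟦t⟧`: the coefficient of `s ^ k` in the coefficient of `t ^ n` is the
coefficient of `n.optionElim k` (`Finsupp.optionElim`, `MvPowerSeries.coeff_mul`; or look for an
equivalence in Mathlib) -/
theorem exists_optS (A ι : Type) [CommRing A] :
    ∃ S : PS (Option ι) A →+* PS ι A⟦X⟧, ∀ f n k, PowerSeries.coeff k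
      (MvPowerSeries.coeff n (S f)) = MvPowerSeries.coeff (n.optionElim k) f := by
  let s : PS (Option ι) A → PS ι A⟦X⟧ := fun f n =>
    PowerSeries.mk fun k => MvPowerSeries.coeff (n.optionElim k) f
  have hs : ∀ f n k, PowerSeries.coeff k (MvPowerSeries.coeff n (s f)) = MvPowerSeries.coeff n
      (PowerSeries.coeff k (MvPowerSeries.optionEquivLeft ι A f)) := fun f n k => by
    rw [MvPowerSeries.coeff_coeff_optionEquivLeft]
    exact PowerSeries.coeff_mk k fun k => MvPowerSeries.coeff (n.optionElim k) f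
  refine ⟨{ toFun := s, map_one' := ?_, map_mul' := fun f g => ?_, map_zero' := ?_,
            map_add' := fun f g => ?_ },
    fun f n k => (hs f n k).trans (MvPowerSeries.coeff_coeff_optionEquivLeft ..)⟩
  · ext n k
    rw [hs, map_one, PowerSeries.coeff_one, MvPowerSeries.coeff_one]
    split_ifs with h1 h2 h2
    · rw [h1, h2, MvPowerSeries.coeff_zero_one, PowerSeries.coeff_zero_one]
    · rw [map_zero, MvPowerSeries.coeff_one, if_neg h2]
    · rw [map_zero, PowerSeries.coeff_one, if_neg h1]
    · rw [map_zero, map_zero]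
  · ext n k
    rw [hs, map_mul, PowerSeries.coeff_mul, MvPowerSeries.coeff_mul, map_sum, map_sum]
    simp only [PowerSeries.coeff_mul, MvPowerSeries.coeff_mul, hs]
    exact Finset.sum_comm
  · ext n k
    rw [hs]
    simp only [map_zero]
  · ext n k
    simp only [hs, map_add]

theorem tswap_elim {ι : Type} (n : ι →₀ ℕ) (k : ℕ) (o : Option ι) :
    n.optionElim k = Finsupp.single o 1 ↔
      o.elim (n = 0 ∧ k = 1) fun i => n = Finsupp.single i 1 ∧ k = 0 := by
  rw [← (Finsupp.single o 1).optionElim_some]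
  have h : ∀ (m : ι →₀ ℕ) (l : ℕ), n.optionElim k = m.optionElim l ↔ n = m ∧ k = l := fun m l =>
    ⟨fun e => ⟨by simpa using congrArg Finsupp.some e, by simpa using DFunLike.congr_fun e none⟩,
      fun e => by rw [e.1, e.2]⟩
  rw [h]
  cases o <;> simp

theorem tswap_zero {ι : Type} (n : ι →₀ ℕ) (k : ℕ) : n.optionElim k = 0 ↔ n = 0 ∧ k = 0 := by
  rw [← not_iff_not, ← Ne, Finsupp.optionElim_ne_zero_iff, not_and_or]



/-- First substitute `X i ↦ C (b i) * X none + X (some i)` (`MvPowerSeries.substAlgHom`,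
`map_subst`; the coefficients of `s ^ 0` give back `f`, so the map is injective), then
`exists_optS`, then the inclusion of `κ⟦X⟧` into `κ⸨X⸩` on coefficients. -/
theorem exists_swapT (κ ι : Type) [Field κ] [Fintype ι] (b : ι → κ) :
    ∃ S : PS ι κ →+* PS ι κ⸨X⸩, Function.Injective S ∧
      (∀ a, S (MvPowerSeries.C a) = MvPowerSeries.C (HahnSeries.C a)) ∧
      (∀ i, S (MvPowerSeries.X i) = MvPowerSeries.C (HahnSeries.C (b i) * HahnSeries.single 1 1) +
        MvPowerSeries.X i) ∧
      (∀ f, ∃ g : κ⟦X⟧, MvPowerSeries.constantCoeff (S f) = HahnSeries.ofPowerSeries ℤ κ g ∧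
        PowerSeries.constantCoeff g = MvPowerSeries.constantCoeff f) ∧
      ∀ (φ : κ →+* κ) (φ' : κ⸨X⸩ →+* κ⸨X⸩), (∀ x k, (φ' x).coeff k = φ (x.coeff k)) →
        (∀ i, φ (b i) = b i) → ∀ f, S (MvPowerSeries.map φ f) = MvPowerSeries.map φ' (S f) := by
  obtain ⟨S, hS⟩ := exists_optS κ ι
  let a : ι → PS (Option ι) κ := fun i =>
    MvPowerSeries.C (b i) * MvPowerSeries.X none + MvPowerSeries.X (some i)
  have ha0 : ∀ i, MvPowerSeries.constantCoeff (a i) = 0 := fun i => by simp [a]
  have ha := MvPowerSeries.hasSubst_of_constantCoeff_zero ha0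
  let a' : Option ι → PS ι κ := fun o => o.elim 0 MvPowerSeries.X
  have ha' : MvPowerSeries.HasSubst a' :=
    MvPowerSeries.hasSubst_of_constantCoeff_zero fun o => by cases o <;> simp [a']
  let T : PS ι κ →+* PS (Option ι) κ := (MvPowerSeries.substAlgHom (R := κ) ha).toRingHom
  have hT : ∀ f, T f = MvPowerSeries.subst a f := fun f => MvPowerSeries.substAlgHom_apply ha f
  have hTi : Function.Injective T := Function.LeftInverse.injective
    (g := MvPowerSeries.subst a') fun f => by
      rw [hT, MvPowerSeries.subst_comp_subst_apply ha ha']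
      have : (fun s => MvPowerSeries.subst a' (a s)) = MvPowerSeries.X := funext fun s => by
        simp only [a, MvPowerSeries.subst_add ha', MvPowerSeries.subst_mul ha',
          MvPowerSeries.subst_X ha']
        simp [a']
      rw [this, MvPowerSeries.subst_self, id]
  have hSi : Function.Injective S := fun f g e => MvPowerSeries.ext fun n => by
    rw [← n.optionElim_some, ← hS, ← hS, e]
  have hC : ∀ c, S (MvPowerSeries.C c) = MvPowerSeries.C (PowerSeries.C c) := fun c => by
    ext n k
    rw [hS, MvPowerSeries.coeff_C, MvPowerSeries.coeff_C]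
    by_cases h : n = 0 <;> simp [tswap_zero, h, PowerSeries.coeff_C]
  have hn : S (MvPowerSeries.X none) = MvPowerSeries.C PowerSeries.X := by
    ext n k
    rw [hS, MvPowerSeries.coeff_X, MvPowerSeries.coeff_C]
    simp only [tswap_elim]
    by_cases h : n = 0 <;> simp [h, PowerSeries.coeff_X]
  have hs : ∀ i, S (MvPowerSeries.X (some i)) = MvPowerSeries.X i := fun i => by
    ext n k
    rw [hS, MvPowerSeries.coeff_X, MvPowerSeries.coeff_X]
    simp only [tswap_elim]
    by_cases h : n = Finsupp.single i 1 <;> simp [h, PowerSeries.coeff_one]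
  refine ⟨(MvPowerSeries.map (HahnSeries.ofPowerSeries ℤ κ)).comp (S.comp T), ?_, fun c => ?_,
    fun i => ?_, fun f => ⟨MvPowerSeries.constantCoeff (S (T f)), rfl, ?_⟩,
    fun φ φ' h h' f => ?_⟩
  · refine fun f g e => hTi (hSi (MvPowerSeries.ext fun n => ?_))
    exact HahnSeries.ofPowerSeries_injective (Γ := ℤ) (congrArg (MvPowerSeries.coeff n) e)
  · rw [RingHom.comp_apply, RingHom.comp_apply, hT, MvPowerSeries.subst_C, hC, MvPowerSeries.map_C,
      HahnSeries.ofPowerSeries_C]
  · rw [RingHom.comp_apply, RingHom.comp_apply, hT, MvPowerSeries.subst_X ha]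
    simp only [a, map_add, map_mul, hC, hn, hs, MvPowerSeries.map_C, MvPowerSeries.map_X,
      HahnSeries.ofPowerSeries_C, HahnSeries.ofPowerSeries_X]
  · rw [← PowerSeries.coeff_zero_eq_constantCoeff_apply,
      ← MvPowerSeries.coeff_zero_eq_constantCoeff_apply, hS, (tswap_zero 0 0).2 ⟨rfl, rfl⟩,
      MvPowerSeries.coeff_zero_eq_constantCoeff_apply]
    have h1 := MvPowerSeries.constantCoeff_subst_eq_zero ha ha0
      (f := f - MvPowerSeries.C (MvPowerSeries.constantCoeff f)) (by simp)
    rw [MvPowerSeries.subst_sub ha, MvPowerSeries.subst_C, map_sub, MvPowerSeries.constantCoeff_C,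
      sub_eq_zero] at h1
    rw [hT, h1]
  · have h1 : T (MvPowerSeries.map φ f) = MvPowerSeries.map φ (T f) := by
      rw [hT, hT, MvPowerSeries.map_subst ha]
      simp only [a, map_add, map_mul, MvPowerSeries.map_C, MvPowerSeries.map_X, h']
    refine MvPowerSeries.ext fun n => HahnSeries.ext (funext fun k => ?_)
    simp only [RingHom.comp_apply, MvPowerSeries.coeff_map, h, h1]
    rw [PowerSeries.coeff_coe, PowerSeries.coeff_coe]
    split_ifs
    · exact (map_zero φ).symm
    · rw [hS, hS, MvPowerSeries.coeff_map]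

end Pool.Agent.ZCy
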