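import Pool.Agent.Lib.MP_751085_ag.ZC.T.Cf
import Pool.Agent.Lib.MP_751085_ag.ZC.T.Swap
import Pool.Agent.Lib.MP_751085_ag.ZC.L.Ps

/-! From a point of a cover of the line to a Frobenius element at a point of affine space. -/

namespace Pool.Agent.ZCy

open scoped Classical Polynomial LaurentSeries PowerSeries

/-- Compare the two expansions inside the closure of the fractions of `κ⸨X⸩⟦ξ⟧`. -/
theorem pt_link {κ ι M : Type} [Field κ] [Fintype ι] [Field M] {χ : (MP ι κ)[X]} {Θ : MP ι κ}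
    (hm : χ.Monic) (hb : Bez χ Θ) {a b : ι → κ} {ψ : κ →+* M} {τ : M}
    {β₁ : OB ι κ →+* AlgebraicClosure (FP ι M)}
    (h1 : ∀ Q, β₁ (toE (MP ι κ) _ Q) = algebraMap (FP ι M) _ (ps ι M (tay ψ (tpt ψ a b τ) Q)))
    {θ₀ : OB ι κ} (h0 : χ.eval₂ (toE (MP ι κ) _) θ₀ = 0) {T : PS ι M}
    (h2 : β₁ θ₀ = algebraMap (FP ι M) _ (ps ι M T)) {j : M →+* κ⸨X⸩} {t z : κ}
    (hj : ∀ x, j (ψ x) = HahnSeries.C x) (hτ : j τ = HahnSeries.C t + HahnSeries.single 1 1)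
    {g : κ⟦X⟧} (hg : j (MvPowerSeries.constantCoeff T) = HahnSeries.ofPowerSeries ℤ κ g)
    (hz : PowerSeries.constantCoeff g = z)
    (hΘ : MvPolynomial.eval (tpt (RingHom.id κ) a b t) Θ ≠ 0) {Φ : M ≃+* M} {φ : κ ≃+* κ}
    (hΦ : ∀ x n, (j (Φ x)).coeff n = φ ((j x).coeff n)) (ha : ∀ i, φ (a i) = a i)
    (hb' : ∀ i, φ (b i) = b i) (ht : φ t = t) :
    ∃ γ : OB ι κ ≃+* OB ι κ,
      (∀ Q, γ (toE (MP ι κ) _ Q) = toE (MP ι κ) _ (MvPolynomial.map (φ : κ →+* κ) Q)) ∧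
      PtLink (tpt (RingHom.id κ) a b t) z (φ : κ →+* κ) θ₀ γ ∧
      ∀ Γ : FP ι M →+* FP ι M, CoefL (Φ : M →+* M) Γ → ∀ (x x' : OB ι κ) (u : FP ι M),
        β₁ x = algebraMap _ _ u → β₁ x' = algebraMap _ _ (Γ u) → γ x = x' := by
  obtain ⟨S, Si, SC, SX, Sc, Sm⟩ := exists_swapT κ ι b
  have : IsDomain (PS ι κ) := NoZeroDivisors.to_isDomain _
  have : IsDomain (PS ι M) := NoZeroDivisors.to_isDomain _
  have : IsDomain (PS ι κ⸨X⸩) := NoZeroDivisors.to_isDomain _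
  let φ' : κ⸨X⸩ ≃+* κ⸨X⸩ := RingEquiv.ofRingHom (lm (φ : κ →+* κ)) (lm (φ.symm : κ →+* κ))
    (RingHom.ext fun x => by ext n; simp) (RingHom.ext fun x => by ext n; simp)
  have hφ' : ∀ x k, ((φ' : κ⸨X⸩ →+* κ⸨X⸩) x).coeff k = (φ : κ →+* κ) (x.coeff k) :=
    fun x k => lm_coeff _ x k
  let A := algebraMap (FP ι κ⸨X⸩) (AlgebraicClosure (FP ι κ⸨X⸩))
  have hi : Function.Injective (A.comp ((ps ι κ⸨X⸩).comp S)) :=
    A.injective.comp ((IsFractionRing.injective _ _).comp Si)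
  let β' : FP ι κ →+* _ := IsFractionRing.lift hi
  have hβ' : ∀ f, β' (ps ι κ f) = A (ps ι κ⸨X⸩ (S f)) := IsFractionRing.lift_algebraMap hi
  obtain ⟨Γ', hΓ'⟩ := exists_coefE (ι := ι) φ'
  obtain ⟨γ', hγ'⟩ := exists_taut (Ω := AlgebraicClosure (FP ι κ⸨X⸩)) Γ'
  obtain ⟨Bj, hBj⟩ := exists_coefL (ι := ι) j.injective
  obtain ⟨β₂, hβ₂⟩ := exists_hom_ext (Ω := AlgebraicClosure (FP ι M)) (A.comp Bj)
  set y := tpt (RingHom.id κ) a b t with hy
  have key : S.comp (tay (RingHom.id κ) y) =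
      (MvPowerSeries.map j).comp (tay ψ (tpt ψ a b τ)) := by
    refine MvPolynomial.ringHom_ext (fun r => ?_) fun i => ?_
    · simp [tay, SC, hj]
    · simp [tay, SC, SX, hj, hτ, hy, tpt, mul_add, add_assoc]
      rw [← map_mul, HahnSeries.single_mul_single, zero_add, mul_one]
  have hβ : ∀ Q, β₂ (β₁ (toE (MP ι κ) _ Q)) = β' (ps ι κ (tay (RingHom.id κ) y Q)) := fun Q => by
    rw [h1, hβ₂, hβ', RingHom.comp_apply, hBj]
    exact congrArg (fun u => A (ps ι _ u)) (RingHom.congr_fun key Q).symm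
  have e1 : ∀ f, γ' (β' (ps ι κ f)) = β' (ps ι κ (MvPowerSeries.map (φ : κ →+* κ) f)) := fun f => by
    rw [hβ', hβ', Sm _ _ hφ' hb', ← hΓ']
    exact hγ' _
  have e2 : ∀ Q, γ' (β₂ (β₁ (toE (MP ι κ) _ Q))) =
      β₂ (β₁ (toE (MP ι κ) _ (MvPolynomial.map (φ : κ →+* κ) Q))) := fun Q => by
    rw [hβ, hβ, e1, map_tay, tay_map]
    refine congrArg (fun v => β' (ps ι κ (tay _ v Q))) (funext fun i => ?_)
    simp [hy, tpt, ha, hb', ht]
  obtain ⟨γ₀, hγ₀⟩ := exists_rf_aut (ι := ι) φ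
  obtain ⟨γ, hγ⟩ := exists_aut_res (β₂.comp β₁) γ' γ₀ (DFunLike.congr_fun
    (IsLocalization.ringHom_ext (nonZeroDivisors (MP ι κ))
      (j := (γ' : _ →+* _).comp ((β₂.comp β₁).comp (algebraMap (RF ι κ) (OB ι κ))))
      (k := ((β₂.comp β₁).comp (algebraMap (RF ι κ) (OB ι κ))).comp (γ₀ : _ →+* _))
      (RingHom.ext fun Q => (e2 Q).trans
        (congrArg (fun u => β₂ (β₁ (algebraMap (RF ι κ) (OB ι κ) u))) (hγ₀ Q).symm))))
  let ψ₁ : MP ι κ →+* κ⟦X⟧ := MvPolynomial.eval₂Hom PowerSeries.C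
    fun i => PowerSeries.C (y i) + PowerSeries.C (b i) * PowerSeries.X
  have c1 : MvPowerSeries.constantCoeff.comp ((MvPowerSeries.map j).comp (tay ψ (tpt ψ a b τ))) =
      (HahnSeries.ofPowerSeries ℤ κ).comp ψ₁ := by
    refine MvPolynomial.ringHom_ext (fun r => ?_) fun i => ?_
    · simp [tay, hj, ψ₁]
    · simp [tay, hj, hτ, hy, tpt, mul_add, add_assoc, ψ₁]
  have c2 : PowerSeries.constantCoeff.comp ψ₁ =
      MvPowerSeries.constantCoeff.comp (tay (RingHom.id κ) y) := by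
    refine MvPolynomial.ringHom_ext (fun r => ?_) fun i => ?_ <;> simp [tay, ψ₁]
  have down : ∀ (U : PS ι κ⸨X⸩) (u : κ⟦X⟧) (p : (MP ι κ)[X]),
      MvPowerSeries.constantCoeff U = HahnSeries.ofPowerSeries ℤ κ u →
      MvPowerSeries.constantCoeff (p.eval₂ ((MvPowerSeries.map j).comp (tay ψ (tpt ψ a b τ))) U) =
        HahnSeries.ofPowerSeries ℤ κ (p.eval₂ ψ₁ u) := fun U u p e => by
    rw [Polynomial.hom_eval₂, Polynomial.hom_eval₂, c1, e]
  have r0 : χ.eval₂ (tay ψ (tpt ψ a b τ)) T = 0 := by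
    have := congrArg β₁ h0
    rw [Polynomial.hom_eval₂, map_zero, h2, RingHom.ext (g := ((algebraMap (FP ι M) _).comp
      (ps ι M)).comp (tay ψ (tpt ψ a b τ))) (f := β₁.comp _) h1, ← RingHom.comp_apply,
      ← Polynomial.hom_eval₂] at this
    exact (map_eq_zero_iff (ps ι M) (IsFractionRing.injective _ _)).1
      ((map_eq_zero (algebraMap (FP ι M) _)).1 this)
  have r1 : χ.eval₂ ((MvPowerSeries.map j).comp (tay ψ (tpt ψ a b τ)))
      (MvPowerSeries.map j T) = 0 := by rw [← Polynomial.hom_eval₂, r0, map_zero]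
  have r2 : χ.eval₂ ψ₁ g = 0 := HahnSeries.ofPowerSeries_injective (Γ := ℤ) (by
    rw [← down (MvPowerSeries.map j T) g χ hg, r1, map_zero, map_zero])
  have r3 : χ.eval₂ (MvPowerSeries.constantCoeff.comp (tay (RingHom.id κ) y)) z = 0 := by
    rw [← c2, ← hz, ← Polynomial.hom_eval₂, r2, map_zero]
  have u1 := hb.unit _ r3 (by rw [RingHom.comp_apply, cc_tay]; exact hΘ.isUnit)
  obtain ⟨T₀, ⟨t1, t2⟩, -⟩ := lv_hensel (χ.map (tay (RingHom.id κ) y)) (hm.map _) z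
    (by rwa [Polynomial.eval₂_map]) (by rwa [Polynomial.derivative_map, Polynomial.eval₂_map])
  rw [Polynomial.eval_map] at t1
  have r4 : χ.eval₂ ((MvPowerSeries.map j).comp (tay ψ (tpt ψ a b τ))) (S T₀) = 0 := by
    rw [← key, ← Polynomial.hom_eval₂, t1, map_zero]
  obtain ⟨g', g1, g2⟩ := Sc T₀
  have r5 : χ.eval₂ ψ₁ g' = 0 := HahnSeries.ofPowerSeries_injective (Γ := ℤ) (by
    rw [← down _ g' χ g1, r4, map_zero, map_zero])
  have u2 : IsUnit (PowerSeries.constantCoeff (χ.derivative.eval₂ ψ₁ g)) := by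
    rwa [Polynomial.hom_eval₂, c2, hz]
  obtain rfl : g = g' := ps_root_uniq (ι := Unit) ψ₁ r2 r5 (hz.trans (g2.trans t2).symm) u2
  have e3 : S T₀ = MvPowerSeries.map j T := ps_root_uniq _ r4 r1 (g1.trans hg.symm) (by
    rw [down _ g _ g1]
    exact (PowerSeries.isUnit_iff_constantCoeff.2 u2).map _)
  refine ⟨γ, fun Q => (β₂.comp β₁).injective ((hγ _).symm.trans (e2 Q)),
    ⟨_, inferInstance, inferInstance, β₂.comp β₁, β', γ', T₀, hγ, e1, hβ, ?_, t2⟩,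
    fun Γ hΓ x x' u hx hx' => (β₂.comp β₁).injective ?_⟩
  · rw [RingHom.comp_apply, h2, hβ₂, hβ', e3, RingHom.comp_apply, hBj]
  · have e4 : Bj.comp Γ = (Γ' : _ →+* _).comp Bj := fp_ext fun w => by
      rw [RingHom.comp_apply, RingHom.comp_apply, hΓ, hBj, hBj]
      refine Eq.trans (congrArg _ (MvPowerSeries.ext fun m => ?_)) (hΓ' _).symm
      ext n
      exact (hΦ _ n).trans (hφ' _ n).symm
    rw [← hγ, RingHom.comp_apply, RingHom.comp_apply, hx, hx', hβ₂, hβ₂]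
    exact (hγ' _).trans (congrArg A (RingHom.congr_fun e4 u).symm)

end Pool.Agent.ZCy
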