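import Pool.Agent.Lib.MP_751085_ag.ZC.T.E0

/-! Geometrically trivial residues come from the constants. -/

namespace Pool.Agent.ZCy

open scoped Classical Polynomial

variable {O K κ σ F : Type} [CommRing O] [IsDomain O] [IsDiscreteValuationRing O] [Field K]
  [CharZero K] [Algebra O K] [IsFractionRing O K] [Field κ] [IsAlgClosed κ] [Fintype σ] [Field F]
  [Algebra (RF (Option σ) K) F] {s : ℕ} {π : O} {ρ : O →+* κ} {c₀ : PChart O σ} {c : PChart K σ}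
  {θ : F} {v : Vl F} {a : BR F} {θ₀ : OB (Option σ) κ} {ρ₀ : v.integer →+* OB (Option σ) κ}

set_option linter.unusedSectionVars false

theorem tgeo1_conj (h : XH π ρ c₀ c θ) {x y : OB (Option σ) κ}
    (hx : c₀.χ.eval₂ ((toE (MP (Option σ) κ) _).comp (MvPolynomial.map ρ)) x = 0)
    (hy : c₀.χ.eval₂ ((toE (MP (Option σ) κ) _).comp (MvPolynomial.map ρ)) y = 0) :
    ∃ τ : OB (Option σ) κ ≃ₐ[RF (Option σ) κ] OB (Option σ) κ, τ x = y := by
  have hm := c₀.monic.map (MvPolynomial.map ρ)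
  have e : ∀ z : OB (Option σ) κ, Polynomial.aeval z ((c₀.χ.map (MvPolynomial.map ρ)).map
      (algebraMap _ (RF (Option σ) κ))) =
      c₀.χ.eval₂ ((toE (MP (Option σ) κ) _).comp (MvPolynomial.map ρ)) z := fun z => by
    rw [Polynomial.aeval_def, Polynomial.eval₂_map, Polynomial.eval₂_map]
  refine minpoly.exists_algEquiv_of_root (Algebra.IsAlgebraic.isAlgebraic y) ?_
  rw [← minpoly.eq_of_irreducible_of_monic
    (hm.irreducible_iff_irreducible_map_fraction_map.1 h.red) ((e y).trans hy) (hm.map _), e, hx]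

theorem tgeo1_map (hρ : LRes ρ s) {φ : κ ≃+* κ} (hφ : ∀ x, φ x = x ^ s) (Q : MP (Option σ) O) :
    MvPolynomial.map (φ : κ →+* κ) (MvPolynomial.map ρ Q) = MvPolynomial.map ρ Q := by
  rw [MvPolynomial.map_map, show (φ : κ →+* κ).comp ρ = ρ from
    RingHom.ext fun a => (hφ _).trans ((hρ.rng _).1 ⟨a, rfl⟩)]

theorem GenR.exists_frob (hs : FinB κ s) (hρ : LRes ρ s) (g : GenR K π ρ θ v θ₀ ρ₀)
    (h : XH π ρ c₀ c θ) : ∃ (φ : κ ≃+* κ) (γ₀ : OB (Option σ) κ ≃+* OB (Option σ) κ),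
      (∀ x, φ x = x ^ s) ∧ γ₀ θ₀ = θ₀ ∧ ∀ Q, γ₀ (toE (MP (Option σ) κ) _ Q) =
        toE (MP (Option σ) κ) _ (MvPolynomial.map (φ : κ →+* κ) Q) := by
  obtain ⟨φ, hφ⟩ := hs.frob 1
  simp only [pow_one] at hφ
  obtain ⟨Φ, hΦ⟩ := exists_rf_aut (ι := Option σ) φ
  obtain ⟨γ₁, hγ⟩ := exists_taut (Ω := OB (Option σ) κ) Φ
  have e : ∀ Q, γ₁ (toE (MP (Option σ) κ) _ Q) =
      toE (MP (Option σ) κ) _ (MvPolynomial.map (φ : κ →+* κ) Q) := fun Q =>
    (hγ _).trans (congrArg _ (hΦ Q))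
  have h1 := congrArg (γ₁ : OB (Option σ) κ →+* OB (Option σ) κ) (g.root h)
  have e' : (γ₁ : OB (Option σ) κ →+* OB (Option σ) κ).comp ((toE (MP (Option σ) κ) _).comp
      (MvPolynomial.map ρ)) = (toE (MP (Option σ) κ) _).comp (MvPolynomial.map ρ) :=
    RingHom.ext fun Q => (e _).trans (congrArg _ (tgeo1_map hρ hφ Q))
  rw [Polynomial.hom_eval₂, map_zero, e'] at h1
  obtain ⟨τ, hτ⟩ := tgeo1_conj h h1 (g.root h)
  exact ⟨φ, γ₁.trans τ.toRingEquiv, hφ, hτ, fun Q => (congrArg τ (e Q)).trans (τ.commutes _)⟩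

theorem GenR.factor (hs : FinB κ s) (g : GenR K π ρ θ v θ₀ ρ₀) (h : XH π ρ c₀ c θ) {𝕂 : Type}
    [Field 𝕂] [IsAlgClosed 𝕂] {β : κ →+* 𝕂} {ρ' : v.integer →+* 𝕂} (h1 : IsRed v ρ')
    (h2 : RedA ((gO O K (Option σ) F).comp MvPolynomial.C) ρ' (β.comp ρ)) :
    ∃ B : OB (Option σ) κ →+* 𝕂, B.comp ρ₀ = ρ' ∧
      ∀ x, B (toE (MP (Option σ) κ) _ (MvPolynomial.C x)) = β x := by
  let φ : MP (Option σ) O →+* v.integer := (gO O K (Option σ) F).codRestrict _ g.cen.1.1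
  let y : Option σ → 𝕂 := fun i => ρ' (φ (MvPolynomial.X i))
  have e : (MvPolynomial.eval₂Hom β y).comp (MvPolynomial.map ρ) = ρ'.comp φ :=
    MvPolynomial.ringHom_ext (fun a => by simpa using (h2 a _ rfl).symm) fun i => by simp [y]
  have hi : Function.Injective (MvPolynomial.eval₂Hom β y) := by
    let := β.toAlgebra
    have : Algebra.IsAlgebraic ρ.range κ := ⟨fun x => by
      obtain ⟨n, hn, hx⟩ := hs.alg x
      refine ⟨Polynomial.X ^ s ^ n - Polynomial.X, fun h0 => ?_, by simp [hx]⟩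
      have := congrArg Polynomial.natDegree (sub_eq_zero.1 h0)
      rw [Polynomial.natDegree_X_pow, Polynomial.natDegree_X] at this
      exact (Nat.one_lt_pow hn.ne' hs.one_lt).ne' this⟩
    refine AlgebraicIndependent.extendScalars κ (algebraicIndependent_iff.2
      fun (p : MP (Option σ) ρ.range) hp => ?_)
    obtain ⟨Q, rfl⟩ := MvPolynomial.map_surjective _ ρ.rangeRestrict_surjective p
    have h3 : ρ' (φ Q) = 0 := by
      rw [← hp, ← RingHom.comp_apply, ← e, RingHom.comp_apply, MvPolynomial.aeval_def,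
        MvPolynomial.coe_eval₂Hom, MvPolynomial.eval₂_map, MvPolynomial.eval₂_map]
      rfl
    obtain ⟨Q, rfl⟩ := (g.cen.1.2 Q).1 ((h1 _).1 h3)
    rw [map_mul, MvPolynomial.map_C, show ρ.rangeRestrict π = 0 from
      Subtype.ext ((h.ker.dvd h.irr π).2 dvd_rfl), map_zero, zero_mul]
  obtain ⟨B, hB⟩ := exists_hom_ext (Ω := OB (Option σ) κ)
    (IsFractionRing.lift (K := RF (Option σ) κ) hi)
  have hB' : ∀ Q, B (toE (MP (Option σ) κ) _ Q) = MvPolynomial.eval₂Hom β y Q := fun Q =>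
    (hB _).trans (IsFractionRing.lift_algebraMap hi Q)
  have e' : B.comp ((toE (MP (Option σ) κ) _).comp (MvPolynomial.map ρ)) = ρ'.comp φ :=
    RingHom.ext fun Q => (hB' _).trans (RingHom.congr_fun e Q)
  have hr := h.root g.cen.1 (ρ := ρ') (ψ := ρ'.comp φ) (fun Q u hu => congrArg ρ' (Subtype.ext hu))
    (u := ⟨θ, h.le g.cen.1⟩) rfl
  rw [← e'] at hr
  obtain ⟨θ₁, h3⟩ := root_mem_range B (c₀.monic.map _).ne_zero (IsAlgClosed.splits _)
    ((Polynomial.eval₂_map _ _ _).trans hr)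
  rw [← h3, ← Polynomial.hom_eval₂, map_eq_zero] at hr
  obtain ⟨τ, hτ⟩ := tgeo1_conj h (g.root h) hr
  refine ⟨B.comp (τ : OB (Option σ) κ →+* OB (Option σ) κ),
    h.red_ext g.cen.1 h1 (fun Q u hu => ?_) fun u hu => ?_, fun x => ?_⟩
  · exact (congrArg B ((congrArg τ (g.base Q u hu)).trans (τ.commutes _))).trans
      ((RingHom.congr_fun e' Q).trans (congrArg ρ' (Subtype.ext hu.symm)))
  · exact (congrArg B ((congrArg τ (g.th u hu)).trans hτ)).trans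
      (h3.trans (congrArg ρ' (Subtype.ext hu.symm)))
  · exact (congrArg B (τ.commutes _)).trans ((hB' _).trans (MvPolynomial.eval₂Hom_C _ _ _))

theorem GenR.const (hs : FinB κ s) (hρ : LRes ρ s) (g : GenR K π ρ θ v θ₀ ρ₀) (h : XH π ρ c₀ c θ)
    (ha : HasRes v a) (h0 : ∀ γ : OB (Option σ) κ ≃ₐ[RF (Option σ) κ] OB (Option σ) κ,
      γ θ₀ = θ₀ → ResAt v ρ₀ a γ.toRingEquiv 0) : ∃ q₀, ConstR K ρ s v (Option σ) a q₀ := by
  have : CharZero F := RingHom.charZero_iff (toE_inj F (A := MP (Option σ) K)) |>.1 inferInstance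
  obtain ⟨φ, γ₀, hφ, h1, h2⟩ := g.exists_frob hs hρ h
  obtain ⟨q₀, hq⟩ := nr_exists ha g.red
    (g.fix h (fun Q => (h2 _).trans (congrArg _ (tgeo1_map hρ hφ Q))) h1)
  have hp : ∀ f : ℕ, (∀ x, (γ₀ ^ f) (toE (MP (Option σ) κ) _ (MvPolynomial.C x)) =
      toE (MP (Option σ) κ) _ (MvPolynomial.C (x ^ s ^ f))) ∧
      (∀ i, (γ₀ ^ f) (toE (MP (Option σ) κ) _ (MvPolynomial.X i)) =
        toE (MP (Option σ) κ) _ (MvPolynomial.X i)) ∧ (γ₀ ^ f) θ₀ = θ₀ ∧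
      ResAt v ρ₀ a (γ₀ ^ f) (f • q₀) := fun f => by
    induction f with
    | zero => exact ⟨fun x => by simp, fun _ => rfl, rfl, (zero_nsmul q₀).symm ▸ h0 1 rfl⟩
    | succ f ih =>
      rw [pow_succ γ₀, succ_nsmul]
      refine ⟨fun x => ?_, fun i => ?_, ?_, nr_mul g.cen.nrm ih.2.2.2 hq⟩
      · rw [RingAut.mul_apply, h2, MvPolynomial.map_C, ih.1, RingHom.coe_coe, hφ, ← pow_mul,
          pow_succ']
      · rw [RingAut.mul_apply, h2, MvPolynomial.map_X, ih.2.1]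
      · rw [RingAut.mul_apply, h1, ih.2.2.1]
  refine ⟨q₀, fun 𝕂 _ _ β ρ' γ f h3 h4 h5 h6 => ?_⟩
  obtain ⟨B, rfl, hB⟩ := g.factor hs h h3 h4
  obtain ⟨e1, e2, e3, e4⟩ := hp f
  have e5 : ∀ i, ρ₀ ⟨_, g.cen.1.1 (MvPolynomial.X i)⟩ = toE (MP (Option σ) κ) _ (MvPolynomial.X i) :=
    fun i => (g.base _ _ rfl).trans (congrArg (toE _ _) (MvPolynomial.map_X ρ i))
  obtain ⟨τ, hτ⟩ := exists_twist (K := RF (Option σ) κ) (B.comp (γ₀ ^ f).toRingHom)
    (γ.toRingHom.comp B) (RingHom.congr_fun (f := (γ.toRingHom.comp B).comp (algebraMap _ _))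
      (g := (B.comp (γ₀ ^ f).toRingHom).comp (algebraMap _ _))
      (IsLocalization.ringHom_ext (nonZeroDivisors (MP (Option σ) κ))
        (MvPolynomial.ringHom_ext (fun x => ((congrArg γ (hB x)).trans (h6 x)).trans
          ((hB _).symm.trans (congrArg B (e1 x).symm))) fun i =>
            ((congrArg (fun z => γ (B z)) (e5 i).symm).trans (h5 _)).trans
              (congrArg B ((e5 i).trans (e2 i).symm)))))
  have e6 : ρ₀ ⟨θ, h.le g.cen.1⟩ = θ₀ := g.th _ rfl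
  have e7 : τ θ₀ = θ₀ := (γ₀ ^ f).injective (B.injective ((hτ θ₀).symm.trans (by
    rw [e3, ← e6]
    exact h5 _)))
  exact (add_zero (f • q₀) ▸ nr_mul g.cen.nrm e4 (h0 τ e7)).comp B hτ

end Pool.Agent.ZCy
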