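import Pool.Agent.Lib.MP_751085_ag.ZC.T.Cf
import Pool.Agent.Lib.MP_751085_ag.ZC.V.Tz
import Pool.Agent.Lib.MP_751085_ag.ZC.V.Z1o
import Pool.Agent.Lib.MP_751085_ag.ZC.V.TaI
import Pool.Agent.Lib.MP_751085_ag.ZC.CIrr

/-! The statements of the blocks V and C that block T uses as hypotheses. -/

namespace Pool.Agent.ZCy

open scoped Classical Polynomial

theorem tzp_thm : TZP := by
  intro O K R ι _ _ _ _ _ _ _ _ _ _ φ hφ hl _ E _ _ _ _ Θ π hπ h1 h2 y hy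
  obtain ⟨R', i1, i2, i3, i4, i5, i6, j, -, h, -⟩ :=
    tz (isFr_alg O K) (isFr_alg (MP ι K) (RF ι K)) hφ hπ h1 h2 y hy
  exact ⟨R', i1, i2, i3, i4, i5, i6, j, h⟩

theorem zlp_thm : ZLP := by
  intro κ ι _ _ _ E _ _ _ _ hG Θ hu a b h0 hg
  obtain ⟨M, i1, i2, i3, i4, j, ⟨h, -⟩, h'⟩ :=
    zl (isFr_alg (MP ι κ) (RF ι κ)) hG hu hg h0 (isFr_alg κ[X] (RatFunc κ))
  refine ⟨M, i1, i2, i3, i4, j, fun Q => (h Q).trans (congrArg _ ((map_tay _ _ _ Q).trans ?_)),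
    fun g => ?_⟩
  · congr 2
    funext i
    simp [lpt, tpt]
  · obtain ⟨γ, hγ⟩ := h' g
    refine ⟨γ, fun Γ hΓ x => ?_⟩
    obtain ⟨u, u', hu', e⟩ := (isFr_alg (PS ι M) (FP ι M)).2 (j x)
    have e1 := congrArg Γ e
    rw [map_mul, hΓ, hΓ, ← hγ x u u' e] at e1
    refine (mul_right_cancel₀ (fun e2 => hu' ?_) e1).symm
    exact ps_map_injective (γ : M →+* M).injective
      (((isFr_alg (PS ι M) (FP ι M)).1 (e2.trans (map_zero _).symm)).trans (map_zero _).symm)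

theorem z1lp_thm : Z1LP := fun _ _ _ _ _ _ _ _ hm hi ⟨_, _, _, hb⟩ _ _ h0 hg =>
  z1l hm hi (Nat.cast_ne_zero.2 (Nat.factorial_ne_zero _)) hb hg h0

theorem tap_thm : TAP := fun _ _ _ _ _ _ h Ψ hm hi ⟨N, a, b, hb⟩ hl hs =>
  ta_irr' h a b hm hi Ψ N hb hl hs.map

theorem irrExt_thm : IrrExt := fun _ _ _ _ _ _ _ φ _ hm h => irr_ext φ hm h

end Pool.Agent.ZCy
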