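import Pool.Agent.Lib.MP_751085_ag.ZC.T.Def3
import Pool.Agent.Lib.MP_751085_ag.ZC.CRk
import Pool.Agent.Lib.MP_751085_ag.ZC.CMap

/-! Generic points of one chart are generic points of every chart. -/

namespace Pool.Agent.ZCy

open scoped Classical Polynomial

theorem tind_smul {O Ω ι : Type} [CommRing O] [CommRing Ω] {G : MP ι O} {m : ℕ}
    (hG : G.IsHomogeneous m) (φ : O →+* Ω) (u : Ω) (x : ι → Ω) :
    MvPolynomial.eval₂ φ (fun i => u * x i) G = u ^ m * MvPolynomial.eval₂ φ x G := by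
  rw [MvPolynomial.eval₂_eq, MvPolynomial.eval₂_eq, Finset.mul_sum]
  refine Finset.sum_congr rfl fun e he => ?_
  simp only [mul_pow, Finset.prod_mul_distrib, Finset.prod_pow_eq_pow_sum]
  rw [← hG.degree_eq_sum_deg_support he]
  ring

/-- independence over the image of `φ` is independence over the field that it generates -/
theorem tind_iff {O Ω ι : Type} [CommRing O] [Field Ω] (φ : O →+* Ω) (ξ : ι → Ω) :
    AInd φ ξ ↔ AlgebraicIndependent (Subfield.closure (Set.range φ)) ξ := by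
  set K := Subfield.closure (Set.range φ)
  let ψ : O →+* K := φ.codRestrict K fun a => Subfield.subset_closure ⟨a, rfl⟩
  have e1 : ∀ Q, MvPolynomial.aeval ξ (MvPolynomial.map ψ Q) = MvPolynomial.eval₂ φ ξ Q :=
    fun Q => by rw [MvPolynomial.aeval_def, MvPolynomial.eval₂_map]; rfl
  have e2 : ∀ Q : MP ι O, MvPolynomial.map φ Q = 0 ↔ MvPolynomial.map ψ Q = 0 := fun Q => by
    rw [← map_eq_zero_iff _ (MvPolynomial.map_injective (σ := ι) _ K.subtype.injective),
      MvPolynomial.map_map]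
    rfl
  refine ⟨fun h => algebraicIndependent_iff.2 fun P hP => ?_, fun h Q hQ =>
    (e2 Q).2 (h.eq_zero_of_aeval_eq_zero _ ((e1 Q).trans hQ))⟩
  obtain ⟨b, Q, hb, hQ⟩ : ∃ (b : O) (Q : MP ι O), ψ b ≠ 0 ∧
      MvPolynomial.map ψ Q = MvPolynomial.C (ψ b) * P := by
    clear hP
    induction P using MvPolynomial.induction_on with
    | C z =>
      obtain ⟨p, hp, q, hq, e⟩ := Subfield.mem_closure_iff.1 z.2
      rw [← φ.coe_range, Subring.closure_eq] at hp hq
      obtain ⟨⟨a, rfl⟩, ⟨b, rfl⟩⟩ := And.intro hp hq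
      have e' : ψ a / ψ b = z := Subtype.ext e
      by_cases hb : ψ b = 0
      · exact ⟨1, 0, by simp, by simp [← e', hb]⟩
      · exact ⟨b, .C a, hb, by rw [MvPolynomial.map_C, ← map_mul, ← e', mul_div_cancel₀ _ hb]⟩
    | add p q hp hq =>
      obtain ⟨⟨a, P, ha, hP⟩, ⟨b, Q, hb, hQ⟩⟩ := And.intro hp hq
      refine ⟨a * b, .C b * P + .C a * Q, by simp [ha, hb], ?_⟩
      simp only [map_add, map_mul, MvPolynomial.map_C, hP, hQ]
      ring
    | mul_X p i hp =>
      obtain ⟨a, P, ha, hP⟩ := hp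
      exact ⟨a, P * .X i, ha, by rw [map_mul, hP, MvPolynomial.map_X, mul_assoc]⟩
  have h1 := (e2 Q).1 (h Q (by rw [← e1, hQ, map_mul, hP, mul_zero]))
  rw [hQ] at h1
  exact (mul_eq_zero.1 h1).resolve_left (MvPolynomial.C_ne_zero.2 hb)

theorem tind_mem {O Ω ι : Type} [CommRing O] [Field Ω] (φ : O →+* Ω) {t : Set Ω} {y : ι → Ω}
    (hy : ∀ i, y i ∈ acl (Subfield.closure (Set.range φ)) t) (P : MP ι O) :
    MvPolynomial.eval₂ φ y P ∈ acl (Subfield.closure (Set.range φ)) t := by
  induction P using MvPolynomial.induction_on with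
  | C a =>
    rw [MvPolynomial.eval₂_C]
    exact (acl (Subfield.closure (Set.range φ)) t).algebraMap_mem
      ⟨φ a, Subfield.subset_closure ⟨a, rfl⟩⟩
  | add p q hp hq => rw [MvPolynomial.eval₂_add]; exact add_mem hp hq
  | mul_X p i hp => rw [MvPolynomial.eval₂_mul, MvPolynomial.eval₂_X]; exact mul_mem hp (hy i)

/-- the point `x` is algebraic over its image under the finite projection -/
theorem tind_rk {O σ Ω : Type} [CommRing O] [Fintype σ] [Field Ω] {N : ℕ}
    {GG : Set (Fm N O)} (c c' : Chart O σ N GG) (φ : O →+* Ω) {x : Fin (N + 1) → Ω}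
    (hx : Zer GG φ x) (h0 : MvPolynomial.eval₂ φ x (c'.f none) ≠ 0) (h : AInd φ (c'.xi φ x))
    {u : Ω} (hu : u ≠ 0) {t : Set Ω} (ht : ∀ l, u * MvPolynomial.eval₂ φ x (c.f l) ∈
      acl (Subfield.closure (Set.range φ)) t) :
    (Fintype.card (Option σ) : ℕ∞) ≤ rk (Subfield.closure (Set.range φ)) t := by
  have h1 : ∀ j, u * x j ^ c.d ∈ acl (Subfield.closure (Set.range φ)) t := fun j => by
    obtain ⟨m, H, hm, hd, hh, he⟩ := c.int j
    refine mem_acl_of_root (hm.map (MvPolynomial.eval₂Hom φ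
      fun l => u * MvPolynomial.eval₂ φ x (c.f l))).ne_zero (fun i => ?_) ?_
    · rw [Polynomial.coeff_map]
      exact tind_mem φ ht _
    · have e := congrArg (u ^ m * ·) (he Ω φ x hx)
      rw [← ev_eq_eval, ev_def, Polynomial.eval₂_eq_sum_range, hd]
      rw [ev_def, Polynomial.eval₂_eq_sum_range, hd] at e
      simp only [mul_zero, Finset.mul_sum] at e
      refine Eq.trans (Finset.sum_congr rfl fun i hi => ?_) e
      rw [MvPolynomial.coe_eval₂Hom, MvPolynomial.coe_eval₂Hom, tind_smul (hh i), mul_pow,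
        ← pow_sub_mul_pow u (Nat.lt_succ_iff.1 (Finset.mem_range.1 hi))]
      ring
  obtain ⟨j₀, hj⟩ : ∃ j, x j ≠ 0 := by
    by_contra! hz
    have e := tind_smul (c'.hf none) φ 0 x
    rw [zero_pow c'.dpos.ne', zero_mul] at e
    exact h0 (by rw [← e]; congr 1; funext j; simp [hz j])
  have h2 : ∀ j, (x j₀)⁻¹ * x j ∈ acl (Subfield.closure (Set.range φ)) t := fun j => by
    refine mem_acl_of_root (Polynomial.monic_X_pow_sub_C ((u * x j ^ c.d) / (u * x j₀ ^ c.d))
      c.dpos.ne').ne_zero (fun i => ?_) ?_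
    · rw [Polynomial.coeff_sub, Polynomial.coeff_X_pow, Polynomial.coeff_C]
      refine sub_mem ?_ ?_ <;> split_ifs
      exacts [one_mem _, zero_mem _, div_mem (h1 j) (h1 j₀), zero_mem _]
    · rw [Polynomial.eval_sub, Polynomial.eval_pow, Polynomial.eval_X, Polynomial.eval_C,
        mul_div_mul_left _ _ hu, ← div_pow, inv_mul_eq_div, sub_self]
  refine (rk_range_iff.2 ((tind_iff φ _).1 h)).trans (rk_le_of_acl ?_)
  rintro _ ⟨l, rfl⟩
  have e := div_mem (tind_mem φ h2 (c'.f (some l))) (tind_mem φ h2 (c'.f none))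
  rwa [tind_smul (c'.hf _), tind_smul (c'.hf _),
    mul_div_mul_left _ _ (pow_ne_zero _ (inv_ne_zero hj))] at e

/-- Count transcendence ranks over the field generated by the image of `φ`. -/
theorem Chart.int_indep {O σ Ω : Type} [CommRing O] [Fintype σ] [Field Ω] {N : ℕ}
    {GG : Set (Fm N O)} (c c' : Chart O σ N GG) (φ : O →+* Ω) {x : Fin (N + 1) → Ω}
    (hx : Zer GG φ x) (h0 : MvPolynomial.eval₂ φ x (c'.f none) ≠ 0) (h : AInd φ (c'.xi φ x)) :
    MvPolynomial.eval₂ φ x (c.f none) ≠ 0 ∧ AInd φ (c.xi φ x) := by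
  have h1 : MvPolynomial.eval₂ φ x (c.f none) ≠ 0 := fun e => by
    by_cases hz : ∀ i, MvPolynomial.eval₂ φ x (c.f (some i)) = 0
    · have h2 := tind_rk c c' φ hx h0 h one_ne_zero (t := ∅) fun l => by
        cases l <;> simp [e, hz]
      rw [rk_empty] at h2
      simp at h2
    · obtain ⟨i₀, hi⟩ := not_forall.1 hz
      have h2 := (tind_rk c c' φ hx h0 h (inv_ne_zero hi) fun l => ?_).trans (rk_image_le
        (fun i => (MvPolynomial.eval₂ φ x (c.f (some i₀)))⁻¹ *
          MvPolynomial.eval₂ φ x (c.f (some i))) (Finset.univ.erase i₀))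
      · rw [Finset.card_erase_of_mem (Finset.mem_univ _), Finset.card_univ, Nat.cast_le,
          Fintype.card_option] at h2
        omega
      · rcases l with _ | i
        · simp [e]
        · by_cases hii : i = i₀
          · rw [hii, inv_mul_cancel₀ hi]; exact one_mem _
          · exact mem_acl_of_mem ⟨i, by simp [hii], rfl⟩
  refine ⟨h1, (tind_iff φ _).2 (rk_range_iff.1
    (tind_rk c c' φ hx h0 h (inv_ne_zero h1) fun l => ?_))⟩
  rcases l with _ | i
  · rw [inv_mul_cancel₀ h1]; exact one_mem _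
  · exact mem_acl_of_mem ⟨i, (inv_mul_eq_div _ _).symm⟩

end Pool.Agent.ZCy
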