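import Pool.Agent.Lib.MP_751085_ag.ZC.T.Need
import Pool.Agent.Lib.MP_751085_ag.ZC.T.Gau
import Pool.Agent.Lib.MP_751085_ag.ZC.T.Cf
import Pool.Agent.Lib.MP_751085_ag.ZC.CAl1
import Pool.Agent.Lib.MP_751085_ag.ZC.V.Cv

/-! Expansion at the generic point of a hypersurface; lifting a residue field. -/

namespace Pool.Agent.ZCy

open scoped Classical WithZero Polynomial

/-- the order of a power series, extended to fractions -/
theorem exists_ordv (ι Ω : Type) [Field Ω] : ∃ u : Vl (FP ι Ω), ∀ f : PS ι Ω, f ≠ 0 →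
    u (ps ι Ω f) = WithZero.exp (-(f.order.toNat : ℤ)) := by
  have key : ∀ f : PS ι Ω, f ≠ 0 → ∃ n : ℕ, f.order = n := fun f hf =>
    ⟨_, (MvPowerSeries.ne_zero_iff_order_finite.1 hf).symm⟩
  let u : Valuation (PS ι Ω) ℤᵐ⁰ :=
    { toFun := fun f => if f = 0 then 0 else WithZero.exp (-(f.order.toNat : ℤ))
      map_zero' := if_pos rfl
      map_one' := by
        rw [if_neg one_ne_zero, show (1 : PS ι Ω).order = 0 from MvPowerSeries.weightedOrder_one _]
        rfl
      map_mul' := fun f g => by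
        by_cases hf : f = 0
        · simp [hf]
        by_cases hg : g = 0
        · simp [hg]
        obtain ⟨m, hm⟩ := key f hf
        obtain ⟨n, hn⟩ := key g hg
        rw [if_neg hf, if_neg hg, if_neg (mul_ne_zero hf hg), MvPowerSeries.order_mul, hm, hn,
          ← Nat.cast_add, ENat.toNat_natCast, ENat.toNat_natCast, ENat.toNat_natCast,
          ← WithZero.exp_add]
        congr 1
        push_cast
        ring
      map_add_le_max' := fun f g => by
        by_cases hf : f = 0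
        · simp [hf]
        by_cases hg : g = 0
        · simp [hg]
        by_cases h : f + g = 0
        · simp [h]
        have h1 := MvPowerSeries.min_order_le_add (f := f) (g := g)
        obtain ⟨m, hm⟩ := key f hf
        obtain ⟨n, hn⟩ := key g hg
        obtain ⟨l, hl⟩ := key _ h
        rw [hm, hn, hl, min_le_iff, Nat.cast_le, Nat.cast_le] at h1
        simp only [if_neg hf, if_neg hg, if_neg h, hm, hn, hl, ENat.toNat_natCast, le_max_iff,
          WithZero.exp_le_exp]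
        omega }
  have hu : ∀ f, f ≠ 0 → u f = WithZero.exp (-(f.order.toNat : ℤ)) := fun f hf => if_neg hf
  refine ⟨u.extendToLocalization (S := nonZeroDivisors _) (fun f hf e => ?_) _, fun f hf =>
    (u.extendToLocalization_apply_map_apply _ _ f).trans (hu f hf)⟩
  exact WithZero.exp_ne_zero ((hu f (nonZeroDivisors.ne_zero hf)).symm.trans e)

theorem tord_pderiv {A B ι : Type} [CommRing A] [CommRing B] (ψ : A →+* B) (y : ι → B) (i : ι)
    (Q : MP ι A) : MvPowerSeries.pderiv B i (tay ψ y Q) = tay ψ y (MvPolynomial.pderiv i Q) := by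
  induction Q using MvPolynomial.induction_on with
  | C a => simp [tay]
  | add p q hp hq => simp only [map_add, hp, hq]
  | mul_X p j hp =>
    rw [map_mul, Derivation.leibniz, Derivation.leibniz, hp]
    by_cases h : j = i
    · simp [tay, h]
    · simp [tay, h, MvPowerSeries.pderiv_X_of_ne h]

theorem tord_der {κ ι : Type} [Field κ] [PerfectField κ] [Finite ι] {P : MP ι κ} (hP : Prime P) :
    ∃ i, MvPolynomial.pderiv i P ≠ 0 := by
  by_contra! h
  obtain ⟨q, hq⟩ := CharP.exists κ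
  obtain ⟨Q, hQ⟩ : P ∈ (MvPolynomial.expand (σ := ι) (R := κ) q).range := by
    rw [P.as_sum]
    refine Subalgebra.sum_mem _ fun m hm => ?_
    have h1 : ∀ i, q ∣ m i := fun i => by
      rcases Nat.eq_zero_or_pos (m i) with h0 | h0
      · simp [h0]
      have h2 := congrArg (MvPolynomial.coeff (m - Finsupp.single i 1)) (h i)
      rw [MvPolynomial.coeff_pderiv, tsub_add_cancel_of_le (Finsupp.single_le_iff.2 h0),
        MvPolynomial.coeff_zero, mul_eq_zero, or_iff_right (MvPolynomial.mem_support_iff.1 hm),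
        ← Nat.cast_succ, CharP.cast_eq_zero_iff κ q] at h2
      simpa [Nat.sub_add_cancel h0] using h2
    choose d hd using h1
    exact ⟨MvPolynomial.monomial (Finsupp.equivFunOnFinite.symm d) _,
      (MvPolynomial.expand_monomial ..).trans (by congr 2; ext i; simp [hd])⟩
  change MvPolynomial.expand q Q = P at hQ
  rcases CharP.char_is_prime_or_zero κ q with hp | rfl
  · have := ExpChar.prime (R := κ) hp
    obtain ⟨Q, rfl⟩ := MvPolynomial.map_surjective _ (surjective_frobenius κ q) Q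
    rw [← MvPolynomial.map_expand, MvPolynomial.map_frobenius_expand] at hQ
    exact not_irreducible_pow hp.ne_one (hQ ▸ hP.irreducible)
  · rw [MvPolynomial.expand_zero_apply] at hQ
    exact hP.not_isUnit (hQ ▸ (IsUnit.mk0 _ fun e => hP.ne_zero (by rw [← hQ, e, map_zero])).map _)

/-- a prime has order one at its generic point -/
theorem order_tay {κ ι Ω : Type} [Field κ] [IsAlgClosed κ] [Fintype ι] [Field Ω] {P : MP ι κ}
    (hP : Prime P) {ψ : κ →+* Ω} {y : ι → Ω} (hy : ∀ Q, MvPolynomial.eval₂ ψ y Q = 0 ↔ P ∣ Q) :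
    (tay ψ y P).order = 1 := by
  obtain ⟨i, hi⟩ := tord_der hP
  refine le_antisymm ?_ (MvPowerSeries.one_le_order_iff_constCoeff_eq_zero.2
    ((cc_tay ..).trans ((hy P).2 dvd_rfl)))
  refine (MvPowerSeries.order_le (d := Finsupp.single i 1) fun e => ?_).trans_eq (by simp)
  refine hi (pderiv_eq_zero_of_dvd ((hy _).1 ?_))
  rw [← cc_tay, ← tord_pderiv, ← MvPowerSeries.coeff_zero_eq_constantCoeff_apply,
    MvPowerSeries.coeff_pderiv, zero_add, e, zero_mul]

/-- an embedding at the generic point of `P` excludes ramification -/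
theorem unr_of_temb {κ ι Ω E : Type} [Field κ] [IsAlgClosed κ] [Fintype ι] [Field Ω] [Field E]
    [Algebra (RF ι κ) E] [FiniteDimensional (RF ι κ) E] [IsGalois (RF ι κ) E]
    (hG : (Nat.card (E ≃ₐ[RF ι κ] E) : κ) ≠ 0) {P : MP ι κ} (hP : Prime P) {ψ : κ →+* Ω}
    {y : ι → Ω} (hy : ∀ Q, MvPolynomial.eval₂ ψ y Q = 0 ↔ P ∣ Q) {j : E →+* FP ι Ω}
    (hj : ∀ Q, j (toE (MP ι κ) E Q) = ps ι Ω (tay ψ y Q)) {w : Vl E}
    (hw : Cen (toE (MP ι κ) E) w P) : Ine (RF ι κ) w = ⊥ := by
  obtain ⟨u, hu⟩ := exists_ordv ι Ω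
  have h0 : ∀ Q : MP ι κ, Q ≠ 0 → tay ψ y Q ≠ 0 := fun Q hQ e => hQ
    (MvPolynomial.map_injective ψ ψ.injective (((tay_eq_zero ..).1 e).trans (map_zero _).symm))
  have hc : Cen (toE (MP ι κ) E) (u.comap j) P := by
    refine ⟨fun Q => ?_, fun Q => ?_⟩ <;> rcases eq_or_ne Q 0 with rfl | hQ
    · simp
    · rw [Valuation.comap_apply, hj, hu _ (h0 Q hQ), ← WithZero.exp_zero, WithZero.exp_le_exp]
      omega
    · simp
    · rw [Valuation.comap_apply, hj, hu _ (h0 Q hQ), ← WithZero.exp_zero, WithZero.exp_lt_exp,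
        ← hy, ← cc_tay, ← MvPowerSeries.order_ne_zero_iff_constCoeff_eq_zero,
        ← MvPowerSeries.ne_zero_iff_order_finite.1 (h0 Q hQ)]
      simp [pos_iff_ne_zero]
  have h1 : u (j (toE (MP ι κ) E P)) = WithZero.exp (-1) := by
    rw [hj, hu _ (h0 P hP.ne_zero), order_tay hP hy]; rfl
  obtain ⟨g, hg⟩ := lv_conj (K := RF ι κ) (w := u.comap j) (w' := w)
    (lv_cen (v := (u.comap j).comap _) (v' := w.comap _) frc_alg.inj frc_alg.surj hP hc hw)
  rw [(lv_congr (w := (u.comap j).comap (g : E →+* E)) hg).2]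
  refine lv_unr ?_ fun x => ?_
  · have e : (Nat.card (E ≃ₐ[RF ι κ] E) : E) =
        toE (MP ι κ) E (MvPolynomial.C (Nat.card (E ≃ₐ[RF ι κ] E) : κ)) := by simp
    rw [Valuation.comap_apply, map_natCast, e]
    exact (hc.1 _).eq_of_not_lt fun h =>
      hP.not_isUnit (isUnit_of_dvd_unit ((hc.2 _).1 h) ((IsUnit.mk0 _ hG).map _))
  rcases eq_or_ne x 0 with rfl | hx
  · exact ⟨0, by simp⟩
  refine ⟨algebraMap (MP ι κ) _ P ^ (-WithZero.log (u (j (g x)))), ?_⟩
  change u (j (g x)) = u (j (g (algebraMap _ _ _)))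
  rw [g.commutes, map_zpow₀, map_zpow₀, map_zpow₀]
  refine Eq.trans ?_ (congrArg (· ^ _) h1.symm)
  rw [← WithZero.exp_zsmul, smul_eq_mul, neg_mul_neg, mul_one, WithZero.exp_log (by simpa using hx)]

/-- lifting a residue field -/
theorem exists_tlift {O Ω₀ : Type} [CommRing O] [IsDomain O] [IsDiscreteValuationRing O] [Field Ω₀]
    {ψ : O →+* Ω₀} (hψ : KerM ψ) : ∃ (R : Type) (_ : CommRing R) (_ : IsDomain R) (_ : CDVR R)
      (φ : O →+* R) (β : Ω₀ →+* IsLocalRing.ResidueField R), Function.Injective φ ∧ IsLocalHom φ ∧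
      IsAlgClosed (IsLocalRing.ResidueField R) ∧
      ∀ a, β (ψ a) = IsLocalRing.residue R (φ a) := by
  obtain ⟨π, hπ⟩ := IsDiscreteValuationRing.exists_irreducible O
  have : IsLocalHom ψ := ⟨fun a ha => by_contra fun h => ha.ne_zero ((hψ a).2 h)⟩
  let _ := (IsLocalRing.ResidueField.lift ψ).toAlgebra
  obtain ⟨S, x, hx⟩ := exists_isTranscendenceBasis' (IsLocalRing.ResidueField O) Ω₀
  have e1 : ∀ Q, MvPolynomial.eval₂Hom ψ x Q =
      MvPolynomial.aeval x (MvPolynomial.map (IsLocalRing.residue O) Q) := fun Q => by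
    rw [MvPolynomial.aeval_def, MvPolynomial.eval₂_map]; rfl
  obtain ⟨hP, hF⟩ := mp_prime (ι := S) hπ
  obtain ⟨v, hv⟩ := gau_exists (frc_gO O (Fr O) S) hP hF
  obtain ⟨ρ, hρ, hA⟩ := gau_red (frc_gO O (Fr O) S) hP hF hv.1 (ψ := MvPolynomial.eval₂Hom ψ x)
    fun Q => by rw [e1, map_eq_zero_iff _ hx.1, mp_ker kerM_residue hπ]
  have := hv.nrm.isVR.dvr
  obtain ⟨R, _, _, _, φ, hφ, hR, hm⟩ := nv_zorn v.integer
  obtain ⟨L, _, r, hr, hs⟩ := exists_resf v
  obtain ⟨i, hi⟩ := hr.factor hs hρ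
  obtain ⟨i', hi'⟩ := hr.factor hs (ρ' := (IsLocalRing.residue R).comp φ) fun a => by
    rw [← Valuation.Integer.not_isUnit_iff_valuation_lt_one, RingHom.comp_apply,
      IsLocalRing.residue_eq_zero_iff]
    exact ⟨fun h u => h (u.map φ), fun h => hm ▸ Ideal.mem_map_of_mem φ h⟩
  let ι := (gO O (Fr O) S (RF S (Fr O))).codRestrict v.integer hv.1.1
  have hc : ∀ b : Algebra.adjoin (IsLocalRing.ResidueField O) (Set.range x),
      (Subalgebra.val _).toRingHom b ∈ i.fieldRange := fun ⟨b, hb⟩ => by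
    rw [Algebra.adjoin_range_eq_range_aeval] at hb
    obtain ⟨Q, rfl⟩ := hb
    obtain ⟨Q, rfl⟩ := MvPolynomial.map_surjective _ IsLocalRing.residue_surjective Q
    exact ⟨r (ι Q), (hi _).trans ((hA Q _ rfl).trans (e1 Q))⟩
  let θ := (i.rangeRestrictFieldEquiv.symm : _ →+* L).comp (RingHom.codRestrict _ _ hc)
  have hθ : ∀ b, i (θ b) = b := fun b => i.rangeRestrictFieldEquiv_apply_symm_apply _
  let _ := i.toAlgebra
  have : Algebra.IsAlgebraic L Ω₀ := ⟨fun z =>
    (hx.isAlgebraic.isAlgebraic z).ringHom_of_comp_eq θ (RingHom.id _)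
      (fun a b e => Subtype.ext (by rw [← hθ, e, hθ])) (RingHom.ext hθ)⟩
  obtain ⟨β, hβ⟩ := exists_hom_ext (Ω := Ω₀) i'
  have e2 : ∀ a, β (ψ a) = IsLocalRing.residue R (φ (ι (MvPolynomial.C a))) := fun a => by
    rw [← MvPolynomial.eval₂Hom_C ψ x, ← hA _ (ι _) rfl, ← hi]
    exact (hβ _).trans (hi' _)
  refine ⟨R, _, _, ‹_›, φ.comp (ι.comp MvPolynomial.C), β, hφ.comp (fun a b e =>
    MvPolynomial.C_injective _ _ ((frc_gO O (Fr O) S).inj (congrArg Subtype.val e))),
    ⟨fun a ha => by_contra fun h => ?_⟩, hR, e2⟩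
  exact (IsLocalRing.residue_ne_zero_iff_isUnit _).2 ha
    ((e2 a).symm.trans (by rw [(hψ a).2 h, map_zero]))

end Pool.Agent.ZCy
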