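import Pool.Agent.Lib.MP_751085_ag.ZC.T.Lex
import Pool.Agent.Lib.MP_751085_ag.ZC.L.Fld

/-! The embedding of a tame representation into fractions of power series at an integral point. -/

namespace Pool.Agent.ZCy

open scoped Classical Polynomial

variable {O K κ σ F L : Type} [CommRing O] [IsDomain O] [CDVR O] [Field K] [CharZero K]
  [Algebra O K] [IsFractionRing O K] [Field κ] [IsAlgClosed κ] [Fintype σ] [Field F]
  [Algebra (RF (Option σ) K) F] [Field L] [Algebra K L] [FiniteDimensional K L] {s : ℕ}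
  {ρ : O →+* κ} {π : O} {c₀ : PChart O σ} {c : PChart K σ} {θ : F} {a : BR F}

/-- a finite Galois extension that contains `R'` and splits `p` -/
theorem tt1a_fld (R L R' : Type) [CommRing R] [IsDomain R] [Field L] [CharZero L] [Algebra R L]
    [IsFractionRing R L] [CommRing R'] [IsDomain R'] [Algebra R R'] [Module.Finite R R']
    [FaithfulSMul R R'] (p : L[X]) : ∃ (L₂ : Type) (_ : Field L₂) (_ : Algebra L L₂)
      (_ : FiniteDimensional L L₂) (_ : IsGalois L L₂) (j : R' →+* L₂), Function.Injective j ∧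
      (∀ a, j (algebraMap R R' a) = algebraMap L L₂ (algebraMap R L a)) ∧
      (p.map (algebraMap L L₂)).Splits := by
  have hi : Function.Injective (algebraMap R (AlgebraicClosure L)) :=
    (algebraMap L _).injective.comp (IsFractionRing.injective R L)
  have := (faithfulSMul_iff_algebraMap_injective R _).2 hi
  let j : R' →ₐ[R] AlgebraicClosure L := IsAlgClosed.lift
  obtain ⟨n, b, hb⟩ := Module.Finite.exists_fin (R := R) (M := R')
  let S := Set.range (j ∘ b) ∪ p.rootSet (AlgebraicClosure L)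
  let N := FiniteGaloisIntermediateField.adjoin L S
  have hS : S ⊆ N.toIntermediateField := FiniteGaloisIntermediateField.subset_adjoin L S
  have hj : ∀ x, (j : R' →+* AlgebraicClosure L) x ∈ N.toIntermediateField := fun x => by
    refine Submodule.span_induction (p := fun x _ => j x ∈ N.toIntermediateField) ?_ ?_ ?_ ?_
      (hb ▸ Submodule.mem_top : x ∈ Submodule.span R (Set.range b))
    · rintro _ ⟨i, rfl⟩
      exact hS (.inl ⟨i, rfl⟩)
    · simp
    · exact fun x y _ _ hx hy => map_add j x y ▸ add_mem hx hy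
    · intro a x _ hx
      rw [map_smul, Algebra.smul_def]
      exact mul_mem (N.toIntermediateField.algebraMap_mem (algebraMap R L a)) hx
  refine ⟨N.toIntermediateField, _, _, inferInstance, inferInstance, RingHom.codRestrict _ _ hj,
    ?_, fun a => Subtype.ext (j.commutes a), IntermediateField.splits_of_splits
      (IsAlgClosed.splits _) fun x hx => hS (.inr hx)⟩
  rw [RingHom.injective_iff_ker_eq_bot]
  refine Ideal.eq_bot_of_comap_eq_bot (R := R) (eq_bot_iff.2 fun a ha => hi ?_)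
  exact ((j.commutes a).symm.trans (congrArg Subtype.val ha)).trans (map_zero _).symm

/-- the embedding at an integral point -/
theorem exists_tJ (hT : TZP) (hs : FinB κ s) (hρ : LRes ρ s) (hπ : Irreducible π)
    (hc : c₀.IsMap (algebraMap O K) c) (hG : c.GI) (hF : c.FF F θ) (T : TRep π c.br F a)
    (Y : LExt K ρ s L) {y : Option σ → Y.R} {z : Y.R} (h0 : ev (algebraMap O Y.R) y z c₀.χ = 0)
    (hu : IsUnit (MvPolynomial.eval₂ (algebraMap O Y.R) y c₀.br)) :
    ∃ (L₂ : Type) (_ : Field L₂) (_ : Algebra L L₂) (_ : FiniteDimensional L L₂) (_ : IsGalois L L₂)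
      (X2 : LExt L Y.ρ (s ^ Y.f) L₂) (J : T.E →+* FP (Option σ) X2.R) (η : PS (Option σ) Y.R),
      (∀ Q, J (gO O K (Option σ) T.E Q) = ps _ X2.R
        (MvPowerSeries.map (algebraMap Y.R X2.R) (tay (algebraMap O Y.R) y Q))) ∧
      c₀.χ.eval₂ (tay (algebraMap O Y.R) y) η = 0 ∧ MvPowerSeries.constantCoeff η = z ∧
      J (algebraMap F T.E θ) = ps _ X2.R (MvPowerSeries.map (algebraMap Y.R X2.R) η) ∧
      ∀ B : FP (Option σ) X2.R →+* FP (Option σ) L₂, CoefL (algebraMap X2.R L₂) B →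
        ∀ (x : T.Eˣ) (n : ℤ), (x / T.ϖ ^ n) ^ (T.m * T.e) = 1 →
          B (J x) ∈ (cC (Option σ) L₂).range := by
  have : CharZero L := charZero_of_injective_algebraMap (algebraMap K L).injective
  obtain ⟨R', _, _, _, _, _, _, J₀, hJ₀⟩ := hT O K Y.R _ (algebraMap O Y.R) Y.inj (Y.loc hρ) T.E
    c₀.br π hπ (by rw [← hc.br]; exact T.unr) T.tame y hu
  have hN : 0 < T.m * T.e := Nat.pos_of_ne_zero fun h => by simpa [h] using T.unit
  let p : L[X] := (Polynomial.X ^ T.e - Polynomial.C (algebraMap Y.R L (algebraMap O Y.R π))) *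
    (Polynomial.X ^ (T.m * T.e) - Polynomial.C 1)
  have hp : p ≠ 0 := mul_ne_zero (Polynomial.X_pow_sub_C_ne_zero (Nat.pos_of_mul_pos_left hN) _)
    (Polynomial.X_pow_sub_C_ne_zero hN _)
  obtain ⟨L₂, _, _, _, _, j, hi, hj, hp'⟩ := tt1a_fld Y.R L R' p
  obtain ⟨X2⟩ := exists_lext (K := L) (hs.pow Y.fpos) Y.res L₂
  obtain ⟨j₁, h₁⟩ := X2.lift j hj
  obtain ⟨Γ, hΓ⟩ := exists_coefL (ι := Option σ) (f := j₁) fun a b e => hi (by rw [← h₁, e, h₁])
  have h₂ : j₁.comp (algebraMap Y.R R') = algebraMap Y.R X2.R := RingHom.ext fun a =>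
    IsFractionRing.injective X2.R L₂ ((h₁ _).trans ((hj a).trans (X2.tow a).symm))
  have hJ : ∀ Q, Γ.comp J₀ (gO O K (Option σ) T.E Q) = ps _ X2.R
      (MvPowerSeries.map (algebraMap Y.R X2.R) (tay (algebraMap O Y.R) y Q)) := fun Q => by
    rw [RingHom.comp_apply, hJ₀, hΓ, MvPowerSeries.map_map, h₂]
  have hcc : MvPowerSeries.constantCoeff.comp (tay (algebraMap O Y.R) y) =
    MvPolynomial.eval₂Hom (algebraMap O Y.R) y := RingHom.ext (cc_tay _ y)
  obtain ⟨η, ⟨h3, h4⟩, -⟩ := lv_hensel (c₀.χ.map (tay (algebraMap O Y.R) y)) (c₀.monic.map _) z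
    (by rw [Polynomial.eval₂_map, hcc]; exact h0) (by
      rw [Polynomial.derivative_map, Polynomial.eval₂_map, hcc]
      exact (c₀.bez_of (pow_one c₀.br).symm.dvd).1.unit _ h0 hu)
  rw [Polynomial.eval_map] at h3
  obtain ⟨γ, h5, h6⟩ := hF.lift hG ((Γ.comp J₀).injective.comp (toE_inj T.E))
    (ψ := (Γ.comp J₀).comp (toE _ T.E))
    (η := ps _ X2.R (MvPowerSeries.map (algebraMap Y.R X2.R) η)) (by
      have := congrArg ((ps _ X2.R).comp (MvPowerSeries.map (algebraMap Y.R X2.R))) h3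
      rw [Polynomial.hom_eval₂, map_zero] at this
      rw [hc.χ, Polynomial.coe_mapRingHom, Polynomial.eval₂_map, ← this]
      exact congrArg (c₀.χ.eval₂ · _) (RingHom.ext hJ))
  obtain ⟨g, hg⟩ := exists_twist_sub (K := RF (Option σ) K) (algebraMap F T.E)
    (fun a => (IsScalarTower.algebraMap_apply _ _ _ a).symm) (Γ.comp J₀) γ
    (RingHom.congr_fun (f := γ.comp _) (g := (Γ.comp J₀).comp _)
      (IsLocalization.ringHom_ext (nonZeroDivisors (MP (Option σ) K)) (RingHom.ext h5)))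
  have hJ' : ∀ Q, (Γ.comp J₀).comp (g : T.E →+* T.E) (gO O K (Option σ) T.E Q) = _ := fun Q =>
    (congrArg (Γ.comp J₀) (g.commutes _)).trans (hJ Q)
  refine ⟨L₂, _, _, ‹_›, ‹_›, X2, _, η, hJ', h3, h4, (hg θ).symm.trans h6, fun B hB x n hx => ?_⟩
  set J := (Γ.comp J₀).comp (g : T.E →+* T.E)
  have hr : ∀ w : T.E, w ^ T.e = gO O K (Option σ) T.E (MvPolynomial.C π) ∨ w ^ (T.m * T.e) = 1 →
      B.comp J w ∈ (cC (Option σ) L₂).range := fun w hw => by
    refine root_mem_range _ (Polynomial.map_ne_zero hp) hp' ?_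
    simp only [p, Polynomial.eval₂_map, Polynomial.eval₂_mul, Polynomial.eval₂_sub,
      Polynomial.eval₂_X_pow, Polynomial.eval₂_C, ← map_pow, mul_eq_zero, sub_eq_zero]
    refine hw.imp (fun e => ?_) fun e => by rw [e, map_one, map_one]
    rw [e, RingHom.comp_apply, hJ', hB]
    simp [tay, X2.tow]
  obtain ⟨u, hu⟩ := hr (x / T.ϖ ^ n : T.Eˣ) (.inr (by simpa using congrArg Units.val hx))
  obtain ⟨w, hw⟩ := hr T.ϖ (.inl T.root)
  refine ⟨u * w ^ n, ?_⟩
  rw [map_mul, map_zpow₀, hu, hw, ← map_zpow₀, ← map_mul]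
  simp [zpow_ne_zero]

end Pool.Agent.ZCy
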