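import Pool.Agent.Lib.MP_751085_ag.ZC.T.Loc
import Pool.Agent.Lib.MP_751085_ag.ZC.T.Lex

/-! Transfer of residue data to a local field. -/

namespace Pool.Agent.ZCy

open scoped Classical
open groupCohomology

variable {R L L₂ κ : Type} [CommRing R] [IsDomain R] [CDVR R] [Field L] [CharZero L] [Algebra R L]
  [IsFractionRing R L] [Field κ] [IsAlgClosed κ] {s : ℕ} {ρ : R →+* κ} [Field L₂] [Algebra L L₂]
  [FiniteDimensional L L₂] [IsGalois L L₂] (X2 : LExt L ρ s L₂) {v₂ : Vl L₂}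

theorem LExt.dec (hv₂ : IsVR (algebraMap X2.R L₂) v₂) (g : L₂ ≃ₐ[L] L₂) : g ∈ Dec L v₂ := by
  obtain ⟨g₀, h, -⟩ := X2.aut g
  refine lv_dec fun x => ?_
  rw [hv₂.2.2, hv₂.2.2]
  constructor
  · rintro ⟨a, ha⟩
    exact ⟨g₀.symm a, g.injective (by rw [← h, g₀.apply_symm_apply, ha])⟩
  · rintro ⟨a, rfl⟩
    exact ⟨_, h a⟩

theorem LExt.idq {v : Vl L} (hv : IsVR (algebraMap R L) v) (hv₂ : IsVR (algebraMap X2.R L₂) v₂) :
    Idq (algebraMap L L₂) v v₂ X2.e := by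
  obtain ⟨π, hπ⟩ := IsDiscreteValuationRing.exists_irreducible R
  obtain ⟨π₁, hπ₁⟩ := IsDiscreteValuationRing.exists_irreducible X2.R
  have hc := hv₂.cen1 hπ₁
  have hi := X2.idx π π₁ hπ hπ₁
  have hw : Cen ((algebraMap L L₂).comp (algebraMap R L)) v₂ π := by
    refine ⟨fun a => ?_, fun a => ?_⟩
    · rw [RingHom.comp_apply, ← X2.tow]
      exact hc.1.1 _
    · rw [RingHom.comp_apply, ← X2.tow, hc.1.2]
      refine ⟨fun h => (kerM_residue.dvd hπ a).1 ((kerM_residue a).2 fun u =>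
        hπ₁.not_isUnit (isUnit_of_dvd_unit h (u.map _))), fun h => ?_⟩
      exact ((dvd_pow_self π₁ X2.epos.ne').trans hi.symm.dvd).trans (map_dvd _ h)
  have h := (gau_idq frc_alg hπ.prime (fac_of_wf hπ.prime) (hv.cen1 hπ) hw).2
  obtain ⟨u, hu⟩ := hi
  have h1 : v₂ (algebraMap X2.R L₂ u) = 1 :=
    (hc.1.eq_one _).2 fun h => hπ₁.not_isUnit (isUnit_of_dvd_unit h u.isUnit)
  have h2 := congrArg (fun z => v₂ (algebraMap X2.R L₂ z)) hu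
  simp only [map_mul, map_pow, h1, mul_one, hc.2, X2.tow] at h2
  have h3 : ord v₂ (algebraMap L L₂ (algebraMap R L π)) = X2.e := by
    rw [ord, h2, WithZero.log_pow, WithZero.log_exp]
    simp
  rwa [h3, Int.cast_natCast] at h

/-- inertia acts trivially on residues -/
theorem LExt.ine (hv₂ : IsVR (algebraMap X2.R L₂) v₂) {g : L₂ ≃ₐ[L] L₂} (hg : g ∈ Ine L v₂)
    {a a' : X2.R} (h : algebraMap X2.R L₂ a' = g (algebraMap X2.R L₂ a)) : X2.ρ a' = X2.ρ a := by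
  obtain ⟨π₁, hπ₁⟩ := IsDiscreteValuationRing.exists_irreducible X2.R
  have hc := (hv₂.cen1 hπ₁).1
  rw [← sub_eq_zero, ← map_sub, X2.res.ker.dvd hπ₁, ← hc.2, map_sub, h]
  exact hg.2 _ (hc.1 a)

/-- a Frobenius element -/
theorem LExt.frob (hs : FinB κ s) (hρ : LRes ρ s) : ∃ d : L₂ ≃ₐ[L] L₂, ∀ a a' : X2.R,
    algebraMap X2.R L₂ a' = d (algebraMap X2.R L₂ a) → X2.ρ a' = X2.ρ a ^ s := by
  have : CharZero L₂ := charZero_of_injective_algebraMap (algebraMap L L₂).injective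
  obtain ⟨w, ρ₁, -, hw, h4, -, h6⟩ := exists_linv_data (K := L₂) (hs.pow X2.fpos) X2.res
  obtain ⟨v, hv⟩ := exists_tVR (O := R) (K := L)
  obtain ⟨φ, hφ⟩ := hs.frob 1
  have ho := (X2.idq hv hw).isOver (Nat.cast_pos.2 X2.epos)
  obtain ⟨d, -, hd⟩ := lv_red (K := L) h6.red (h6.red.tcomp (φ : κ →+* κ)) fun a y e => by
    obtain ⟨b, rfl⟩ := (hv.2.2 a).1 ((ho a).1 (e ▸ y.2))
    rw [RingHom.comp_apply, h4 _ y (e.trans (X2.tow b).symm), X2.cmp]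
    exact (hφ _).trans (by rw [pow_one, (hρ.rng _).1 ⟨b, rfl⟩])
  refine ⟨d, fun a a' h => ?_⟩
  have h7 := hd ⟨_, (hw.2.2 _).2 ⟨a, rfl⟩⟩ ⟨_, (hw.2.2 _).2 ⟨a', rfl⟩⟩ h
  rw [RingHom.comp_apply, h4 a _ rfl, h4 a' _ rfl] at h7
  exact h7.symm.trans ((hφ _).trans (by rw [pow_one]))

theorem t1_rd (hs : FinB κ s) (hρ : LRes ρ s) (hv₂ : IsVR (algebraMap X2.R L₂) v₂) {F E : Type}
    [Field F] [Field E] [Algebra F E] {v : Vl F} {w : Vl E} {a : BR F} (D : RDat v w a) {e : ℕ}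
    (he : D.e = e * X2.e) {r : (L₂ ≃ₐ[L] L₂) → E ≃ₐ[F] E}
    {cb : (L₂ ≃ₐ[L] L₂) × (L₂ ≃ₐ[L] L₂) → L₂ˣ} (hcb : IsMulCocycle₂ cb)
    (hmul : ∀ g h, r (g * h) = r g * r h) (hdec : ∀ g, r g ∈ Dec F w)
    (hine : ∀ g ∈ Ine L v₂, r g ∈ Ine F w)
    (hinj : ∀ p p', D.c (r p.1, r p.2) = D.c (r p'.1, r p'.2) → cb p = cb p')
    (hfix : ∀ p g, r g (D.c (r p.1, r p.2) : E) = D.c (r p.1, r p.2) → g (cb p : L₂) = cb p)
    (hord : ∀ p, v₂ (cb p) = w (D.c (r p.1, r p.2) : E)) {d : L₂ ≃ₐ[L] L₂}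
    (hd : ∀ a a' : X2.R, algebraMap X2.R L₂ a' = d (algebraMap X2.R L₂ a) →
      X2.ρ a' = X2.ρ a ^ s) :
    LInv L ρ s (cls L cb) (e • ((D.lam (r d) : ℚ) : AddCircle (1 : ℚ))) := by
  obtain ⟨u, ρ', γ, hu, h1, h2, -⟩ := exists_linv_data (K := L) hs hρ
  obtain ⟨π₁, hπ₁⟩ := IsDiscreteValuationRing.exists_irreducible X2.R
  obtain ⟨ρ₂, h3, h4⟩ := gau_red frc_alg hπ₁.prime (fac_of_wf hπ₁.prime) (hv₂.cen1 hπ₁).1
    (X2.res.ker.dvd hπ₁)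
  let D₂ : RDat u v₂ (cls L cb) :=
    { e := X2.e
      c := cb
      lam := fun g => e * D.lam (r g)
      e_pos := Nat.cast_pos.2 X2.epos
      idq := X2.idq hu hv₂
      coc := hcb
      cls_eq := rfl
      infl := ⟨fun g _ h _ i hi i' hi' => hinj _ _ (by
          rw [hmul, hmul]
          exact D.infl.eq _ (hdec g) _ (hdec h) _ (hine i hi) _ (hine i' hi')),
        fun g _ h _ i hi => Units.ext (hfix (g, h) i
          (congrArg Units.val (D.infl.fix _ (hdec g) _ (hdec h) _ (hine i hi))))⟩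
      ord_eq := fun g _ h _ => by
        rw [ord_congr (hord (g, h)), D.ord_eq _ (hdec g) _ (hdec h), he, hmul]
        ring }
  have hc : Cmp (algebraMap L L₂) ρ' ρ₂ id := fun y z e => by
    obtain ⟨a, ha⟩ := (hu.2.2 y.1).1 y.2
    rw [h4 _ z (e.trans (by rw [X2.tow, ha])), X2.cmp, id, h1 a y ha.symm]
  have hγ : Cmp d ρ₂ ρ₂ γ := fun y z e => by
    obtain ⟨a, ha⟩ := (hv₂.2.2 y.1).1 y.2
    obtain ⟨a', ha'⟩ := (hv₂.2.2 z.1).1 z.2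
    rw [h4 a y ha.symm, h4 a' z ha'.symm, h2, hd a a' (by rw [ha, ha', e])]
  rw [← AddCircle.coe_nsmul, nsmul_eq_mul]
  exact ⟨u, ρ', γ, hu, h1, h2, D₂.resAt h3 hc (X2.dec hv₂ d) hγ⟩

end Pool.Agent.ZCy
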